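import Mathlib

/-!
# MP_467880_co: Voronoi's conjecture for unconditional parallelohedra. Definitions.
-/

set_option autoImplicit false

open Set

namespace VorUnc

variable {d : ℕ}

/-- change the sign of the coordinates in `c` -/
def flp (c : Finset (Fin d)) (x : Fin d → ℝ) : Fin d → ℝ := fun i => if i ∈ c then -x i else x i

/-- indicator vector of `c` -/
def ind (c : Finset (Fin d)) : Fin d → ℝ := fun i => if i ∈ c then 1 else 0

/-- the point with coordinates `1/2` on `S` and `0` elsewhere -/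
noncomputable def hf (S : Finset (Fin d)) : Fin d → ℝ := fun i => if i ∈ S then 1 / 2 else 0

/-- the lattice of the code `C`: the integer vectors whose odd support lies in `C` -/
def lat (C : Set (Finset (Fin d))) : Set (Fin d → ℝ) :=
  {v | ∃ n : Fin d → ℤ, (∀ i, v i = n i) ∧ (Finset.univ.filter fun i => Odd (n i)) ∈ C}

/-- `C` is a binary linear code (words = supports) -/
structure Code (C : Set (Finset (Fin d))) : Prop where
  empty : ∅ ∈ C
  symm : ∀ c ∈ C, ∀ c' ∈ C, symmDiff c c' ∈ C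

/-- normalised situation: `P` unconditional convex body, tiles by `lat C`, face-to-face -/
structure Sit (P : Set (Fin d → ℝ)) (C : Set (Finset (Fin d))) : Prop where
  code : Code C
  conv : Convex ℝ P
  comp : IsCompact P
  int : (interior P).Nonempty
  unc : ∀ x ∈ P, ∀ c, flp c x ∈ P
  box : ∀ x ∈ P, ∀ i, |x i| ≤ 1
  cover : ∀ x, ∃ v ∈ lat C, x - v ∈ P
  disj : ∀ v ∈ lat C, v ≠ 0 → ∀ x ∈ interior P, x - v ∉ interior P
  ext : ∀ v ∈ lat C, ∀ x ∈ P, ∀ y ∈ P, ∀ z ∈ openSegment ℝ x y, z - v ∈ P → x - v ∈ P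

/-- separating functionals: `m c` is nonnegative, supported on `c`, and bounded on `P` by its value at `hf c` -/
structure IsSep (P : Set (Fin d → ℝ)) (C : Set (Finset (Fin d)))
    (m : Finset (Fin d) → Fin d → ℝ) : Prop where
  nonneg : ∀ c ∈ C, c ≠ ∅ → ∀ i, 0 ≤ m c i
  supp : ∀ c ∈ C, c ≠ ∅ → ∀ i, i ∉ c → m c i = 0
  pos : ∀ c ∈ C, c ≠ ∅ → 0 < ∑ i, m c i
  le : ∀ c ∈ C, c ≠ ∅ → ∀ x ∈ P, ∑ i, m c i * x i ≤ (∑ i, m c i) / 2

/-- circuit: minimal nonempty word -/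
def Circ (C : Set (Finset (Fin d))) (c : Finset (Fin d)) : Prop :=
  c ∈ C ∧ c ≠ ∅ ∧ ∀ c' ∈ C, c' ⊆ c → c' ≠ ∅ → c' = c

/-- three circuits `A ∪ B`, `B ∪ D`, `A ∪ D` which are all the nonempty words in `A ∪ B ∪ D` -/
structure Theta (C : Set (Finset (Fin d))) (A B D : Finset (Fin d)) : Prop where
  nA : A.Nonempty
  nB : B.Nonempty
  nD : D.Nonempty
  dAB : Disjoint A B
  dAD : Disjoint A D
  dBD : Disjoint B D
  c1 : Circ C (A ∪ B)
  c2 : Circ C (B ∪ D)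
  c3 : Circ C (A ∪ D)
  all : ∀ c ∈ C, c ⊆ A ∪ B ∪ D → c = ∅ ∨ c = A ∪ B ∨ c = B ∪ D ∨ c = A ∪ D

/-- the three functionals of a theta configuration are multiples of restrictions of one vector `l` -/
def Good (m : Finset (Fin d) → Fin d → ℝ) (A B D : Finset (Fin d)) : Prop :=
  ∃ l : Fin d → ℝ, (∀ i, 0 < l i) ∧ (∃ a > (0:ℝ), ∀ i ∈ A ∪ B, m (A ∪ B) i = a * l i) ∧
    (∃ a > (0:ℝ), ∀ i ∈ B ∪ D, m (B ∪ D) i = a * l i) ∧
    ∃ a > (0:ℝ), ∀ i ∈ A ∪ D, m (A ∪ D) i = a * l i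

/-- a face-to-face tiling by translates of the convex body `P`, vectors in the discrete additive group `M` -/
structure Til (P M : Set (Fin d → ℝ)) : Prop where
  zero : (0 : Fin d → ℝ) ∈ M
  add : ∀ v ∈ M, ∀ w ∈ M, v + w ∈ M
  neg : ∀ v ∈ M, -v ∈ M
  fin : ∀ R : ℝ, {v | v ∈ M ∧ ‖v‖ ≤ R}.Finite
  conv : Convex ℝ P
  comp : IsCompact P
  cover : ∀ x, ∃ v ∈ M, x - v ∈ P
  disj : ∀ v ∈ M, v ≠ 0 → ∀ x ∈ interior P, x - v ∉ interior P
  ext : ∀ v ∈ M, ∀ x ∈ P, ∀ y ∈ P, ∀ z ∈ openSegment ℝ x y, z - v ∈ P → x - v ∈ P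

end VorUnc
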