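import Pool.Agent.Lib.MP_467880_co.R01b

/-!
# R03: the tiles near `hf S` are the `P + ind c`, `c ∈ C`, `c ⊆ S`

Let `F = {v ∈ lat C | ‖v‖ ≤ 3}`, finite (`lat_fin`). For `v ∈ F` with `hf S - v ∉ P` the set `{x | x - v ∉ P}` is an open
neighbourhood of `hf S` (`P` is closed). So there is `r` with `0 < r ≤ 1` such that `dist x (hf S) < r` implies `x - v ∉ P`
for all these `v` (`Filter.eventually_all_finite` or `Finite.isOpen_biInter`). Let `dist x (hf S) < r`. `cover`: `x - v ∈ P`,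
`v ∈ lat C`; `‖x - v‖ ≤ 1` (`box`, `pi_norm_le_iff_of_nonneg`), `‖x‖ ≤ 2`, so `‖v‖ ≤ 3`, `v ∈ F`, hence `hf S - v ∈ P`,
and `Sit.tile_at` gives `v = ind c`.
-/

set_option autoImplicit false

open Set

namespace VorUnc

variable {d : ℕ} {P : Set (Fin d → ℝ)} {C : Set (Finset (Fin d))}

theorem Sit.ball (h : Sit P C) (S : Finset (Fin d)) :
    ∃ r > (0:ℝ), ∀ x, dist x (hf S) < r → ∃ c ∈ C, c ⊆ S ∧ x - ind c ∈ P := by
  have hfin := lat_fin C (3:ℝ)
  have hev : ∀ᶠ y in nhds (hf S), ∀ v ∈ {v | v ∈ lat C ∧ ‖v‖ ≤ 3}, hf S - v ∉ P → y - v ∉ P := by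
    rw [Filter.eventually_all_finite hfin]
    intro v _
    by_cases hxv : hf S - v ∈ P
    · exact Filter.Eventually.of_forall fun y hy => absurd hxv hy
    · have h1 : IsOpen ((fun y => y - v) ⁻¹' Pᶜ) :=
        h.comp.isClosed.isOpen_compl.preimage (continuous_id.sub continuous_const)
      have h2 : (fun y => y - v) ⁻¹' Pᶜ ∈ nhds (hf S) := h1.mem_nhds hxv
      filter_upwards [h2] with y hy _
      exact hy
  obtain ⟨ε, hε, hball⟩ := Metric.eventually_nhds_iff.1 hev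
  refine ⟨min ε 1, lt_min hε one_pos, fun x hx => ?_⟩
  have hx1 : dist x (hf S) < ε := hx.trans_le (min_le_left _ _)
  have hx2 : dist x (hf S) < 1 := hx.trans_le (min_le_right _ _)
  obtain ⟨v, hv, hP⟩ := h.cover x
  have h1 : ‖x - v‖ ≤ 1 := by
    rw [pi_norm_le_iff_of_nonneg zero_le_one]
    intro i
    rw [Real.norm_eq_abs]
    exact h.box _ hP i
  have h2 : ‖hf S‖ ≤ 1 := by
    rw [pi_norm_le_iff_of_nonneg zero_le_one]
    intro i
    rw [Real.norm_eq_abs]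
    exact h.box _ (h.hf_mem S) i
  have h3 : ‖v‖ ≤ 3 := by
    have e1 : v = hf S + (x - hf S) - (x - v) := by abel
    have e2 : ‖v‖ ≤ ‖hf S + (x - hf S)‖ + ‖x - v‖ := by
      conv_lhs => rw [e1]
      exact norm_sub_le _ _
    have e3 := norm_add_le (hf S) (x - hf S)
    rw [dist_eq_norm] at hx2
    linarith
  have h4 : hf S - v ∈ P := by
    by_contra hcon
    exact hball hx1 v ⟨hv, h3⟩ hcon hP
  obtain ⟨c, hcC, hcS, hvc⟩ := h.tile_at hv h4
  refine ⟨c, hcC, hcS, ?_⟩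
  rw [← hvc]
  exact hP

end VorUnc
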