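import Pool.Agent.Lib.MP_467880_co.R02
import Pool.Agent.Lib.MP_467880_co.R03

/-!
# R04 (R04a = cov, R04b = circ_pos): the covering condition at `hf S`, and positivity on circuits

* `Sit.cov`: let `r` be as in `Sit.ball`, `ε > 0` small, `x = hf S + ε y`, `x - ind c ∈ P` with `c ∈ C`, `c ⊆ S`.
  By `unc`: `flp c (x - ind c) = hf S + ε flp c y` (coordinatewise, `c ⊆ S`), it is in `P`. For `c' ∈ C`, `c' ⊆ S`,
  `c' ≠ ∅`: `IsSep.le` gives `∑ m c' i * (hf S i + ε flp c y i) ≤ (∑ m c' i)/2`, and `∑ m c' i * hf S i = (∑ m c' i)/2`,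
  because `m c'` is supported on `c' ⊆ S`. So `ε ∑ m c' i * flp c y i ≤ 0`.
* `Sit.circ_pos`: `c` a circuit, `i ∈ c`, suppose `m c i = 0` (it is `≥ 0`). `r` as in `Sit.ball` for `S = c`; the words
  inside `c` are `∅` and `c`. `δ = r/2`. For small `ε > 0` let `x = hf c + δ e_i - ε ind c`, `dist x (hf c) < r`.
  `∑ m c j x j = (∑ m c j)/2 - ε ∑ m c j < (∑ m c j)/2`. If `x - ind c ∈ P` then `-(x - ind c) ∈ P` (`unc`, `c = univ`), and
  `IsSep.le` gives `∑ m c j x j ≥ (∑ m c j)/2` (`∑ m c j (ind c) j = ∑ m c j`): contradiction. So `x ∈ P`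
  (`x - ind ∅ = x`). Let `ε → 0`, `P` closed: `w = hf c + δ e_i ∈ P`. Let `w' = flp {i} w ∈ P`. `hf c` lies in the open segment
  from `w'` to `w` (coordinate `i`: `-1/2 - δ < 1/2 < 1/2 + δ`). `hf c - ind c ∈ P` (`hf_sub_mem`), `ind c ∈ lat C`. `ext` gives
  `w' - ind c ∈ P`, but its coordinate `i` is `-3/2 - δ`: contradiction to `box`.
-/

set_option autoImplicit false

open Set

namespace VorUnc

variable {d : ℕ} {P : Set (Fin d → ℝ)} {C : Set (Finset (Fin d))}
  {m : Finset (Fin d) → Fin d → ℝ}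

theorem Sit.circ_pos (h : Sit P C) (hm : IsSep P C m) {c : Finset (Fin d)} (hc : Circ C c)
    {i : Fin d} (hi : i ∈ c) : 0 < m c i := by
  classical
  by_contra hcon
  have hmi : m c i = 0 := le_antisymm (not_lt.1 hcon) (hm.nonneg c hc.1 hc.2.1 i)
  obtain ⟨r, hr, hball⟩ := h.ball c
  obtain ⟨δ, hδ⟩ : ∃ δ : ℝ, δ = r / 2 := ⟨_, rfl⟩
  have hδ0 : 0 < δ := by rw [hδ]; positivity
  obtain ⟨S, hS⟩ : ∃ S : ℝ, S = ∑ j, m c j := ⟨_, rfl⟩
  have hS0 : 0 < S := by rw [hS]; exact hm.pos c hc.1 hc.2.1
  have s1 : ∑ j, m c j * hf c j = S / 2 := by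
    rw [hS, Finset.sum_div]
    refine Finset.sum_congr rfl fun j _ => ?_
    by_cases hj : j ∈ c
    · simp [hf, hj]
      ring
    · rw [hm.supp c hc.1 hc.2.1 j hj]
      simp
  have s2 : ∑ j, m c j * ind c j = S := by
    rw [hS]
    refine Finset.sum_congr rfl fun j _ => ?_
    by_cases hj : j ∈ c
    · simp [ind, hj]
    · rw [hm.supp c hc.1 hc.2.1 j hj]
      simp
  have s3 : ∑ j, m c j * (if j = i then δ else 0) = 0 := by
    refine Finset.sum_eq_zero fun j _ => ?_
    by_cases hj : j = i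
    · rw [hj, hmi, zero_mul]
    · simp [hj]
  obtain ⟨X, hX⟩ : ∃ X : ℝ → Fin d → ℝ,
    X = fun ε j => hf c j + (if j = i then δ else 0) - ε * ind c j := ⟨_, rfl⟩
  have hXs : ∀ ε, ∑ j, m c j * X ε j = S / 2 - ε * S := by
    intro ε
    rw [hX]
    simp only [mul_sub, mul_add, Finset.sum_sub_distrib, Finset.sum_add_distrib]
    rw [s1, s3]
    have : ∑ j, m c j * (ε * ind c j) = ε * S := by
      rw [← s2, Finset.mul_sum]
      exact Finset.sum_congr rfl fun j _ => by ring
    rw [this]
    ring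
  have hXP : ∀ ε, 0 < ε → ε < r / 2 → X ε ∈ P := by
    intro ε hε0 hε
    have hd : dist (X ε) (hf c) < r := by
      have h1 : dist (X ε) (hf c) ≤ δ + ε := by
        rw [dist_pi_le_iff (by positivity)]
        intro j
        rw [Real.dist_eq, hX]
        have h2 : hf c j + (if j = i then δ else 0) - ε * ind c j - hf c j =
            (if j = i then δ else 0) - ε * ind c j := by ring
        simp only [h2]
        have h3 : |(if j = i then δ else 0)| ≤ δ := by
          by_cases hj : j = i
          · simp [hj, abs_of_pos hδ0]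
          · simp [hj, hδ0.le]
        have h4 : |ε * ind c j| ≤ ε := by
          by_cases hj : j ∈ c
          · simp [ind, hj, abs_of_pos hε0]
          · simp [ind, hj, hε0.le]
        calc |(if j = i then δ else 0) - ε * ind c j| ≤
            |(if j = i then δ else 0)| + |ε * ind c j| := abs_sub _ _
          _ ≤ δ + ε := add_le_add h3 h4
      rw [hδ] at h1
      linarith
    obtain ⟨c', hc'C, hc'c, hP⟩ := hball _ hd
    by_cases hce : c' = ∅
    · have h1 : X ε - ind c' = X ε := by
        rw [hce]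
        funext j
        simp [ind]
      rwa [h1] at hP
    · exfalso
      have h1 : c' = c := hc.2.2 c' hc'C hc'c hce
      rw [h1] at hP
      have h2 : -(X ε - ind c) ∈ P := by
        have h3 := h.unc _ hP Finset.univ
        have h4 : flp Finset.univ (X ε - ind c) = -(X ε - ind c) := by
          funext j
          simp [flp]
        rwa [h4] at h3
      have h5 := hm.le c hc.1 hc.2.1 _ h2
      have h6 : ∑ j, m c j * (-(X ε - ind c)) j = S - (S / 2 - ε * S) := by
        rw [← hXs, ← s2, ← Finset.sum_sub_distrib]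
        refine Finset.sum_congr rfl fun j _ => ?_
        simp only [Pi.neg_apply, Pi.sub_apply]
        ring
      rw [h6, ← hS] at h5
      have := mul_pos hε0 hS0
      linarith
  have hw : X 0 ∈ P := by
    have ht : Filter.Tendsto X (nhdsWithin 0 (Ioi 0)) (nhds (X 0)) := by
      have h1 : Continuous X := by
        rw [hX]
        refine continuous_pi fun j => ?_
        fun_prop
      exact (h1.tendsto 0).mono_left nhdsWithin_le_nhds
    refine h.comp.isClosed.mem_of_tendsto ht ?_
    have h2 : Ioo (0:ℝ) (r / 2) ∈ nhdsWithin (0:ℝ) (Ioi 0) := Ioo_mem_nhdsGT (by positivity)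
    filter_upwards [h2] with ε hε
    exact hXP ε hε.1 hε.2
  have hX0 : ∀ j, X 0 j = hf c j + (if j = i then δ else 0) := by
    intro j
    rw [hX]
    simp
  have hw' := h.unc _ hw {i}
  have hz : hf c ∈ openSegment ℝ (flp {i} (X 0)) (X 0) := by
    have hpos : 0 < 1 + 2 * δ := by positivity
    refine ⟨(1 - 1 / (1 + 2 * δ)) / 2, (1 + 1 / (1 + 2 * δ)) / 2, ?_, by positivity, by ring, ?_⟩
    · have : 1 / (1 + 2 * δ) < 1 := by
        rw [div_lt_one hpos]
        linarith
      linarith
    · funext j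
      simp only [Pi.add_apply, Pi.smul_apply, smul_eq_mul]
      by_cases hj : j = i
      · subst hj
        have h1 : flp {j} (X 0) j = -(1 / 2 + δ) := by
          simp [flp, hX0, hf, hi]
        have h2 : X 0 j = 1 / 2 + δ := by simp [hX0, hf, hi]
        have h3 : hf c j = 1 / 2 := by simp [hf, hi]
        rw [h1, h2, h3]
        field_simp
        ring
      · have h1 : flp {i} (X 0) j = hf c j := by simp [flp, hX0, hj]
        have h2 : X 0 j = hf c j := by simp [hX0, hj]
        rw [h1, h2]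
        ring
  have h1 := h.ext (ind c) (ind_mem_lat hc.1) _ hw' _ hw _ hz (h.hf_sub_mem (Finset.Subset.refl c))
  have h2 := h.box _ h1 i
  have h3 : (flp {i} (X 0) - ind c) i = -(3 / 2 + δ) := by
    have h4 : flp {i} (X 0) i = -(1 / 2 + δ) := by
      simp [flp, hX0, hf, hi]
    have h5 : ind c i = 1 := by simp [ind, hi]
    rw [Pi.sub_apply, h4, h5]
    ring
  rw [h3, abs_neg, abs_of_pos (by positivity)] at h2
  linarith

end VorUnc
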