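import Pool.Agent.Lib.MP_467880_co.R05a

/-!
# R05b: the theta lemma

Notation: `p` is positive on `A ∪ B` and `0` elsewhere, `q` on `B ∪ D`, `s` on `A ∪ D`. For `y` write `y = (u, w, z)` (parts on
`A`, `B`, `D`), `flp (A ∪ B) y = (-u, -w, z)` etc.
1. `s = κA p` on `A` (`prop_of_no_sep` for `p, s` on `A`): let `u` be supported on `A` with `∑ p u < 0 < ∑ s u`. Apply `cov` to
   `y = u`: `c = ∅`: `∑ s u ≤ 0` false; `c = A ∪ B`: `- ∑ p u ≤ 0` false; `c = B ∪ D`: `y` is not changed, `∑ s u ≤ 0` false;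
   `c = A ∪ D`: `- ∑ p u ≤ 0` false.
2. `q = κB p` on `B`: `w` on `B` with `∑ p w < 0 < ∑ q w`: `∅`: `∑ q w`; `A ∪ B`: `-∑ p w`; `B ∪ D`: `-∑ p w`;
   `A ∪ D`: `∑ q w`.
3. `s = κD q` on `D`: `z` on `D` with `∑ q z < 0 < ∑ s z`: `∅`: `∑ s z`; `A ∪ B`: not changed, `∑ s z`;
   `B ∪ D`: `-∑ q z`; `A ∪ D`: `-∑ q z`.
4. Triangle: `κD * κB = κA`. Choose `i0 ∈ A`, `j0 ∈ B`, `k0 ∈ D` and, for real `a, b, e`,
   `y = (a / p i0) e_{i0} + (b / p j0) e_{j0} + (κB e / q k0) e_{k0}`, so `∑ p y = a + b`, `∑ q y = κB b + κB e = κB (b + e)`,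
   `∑ s y = κA a + κD κB e = κA (a + μ e)` with `μ = κD κB / κA`; with the signs of `flp c` the four alternatives of
   `cov` are exactly those of `tri_num` (divide by `κB`, `κA > 0`). So `μ = 1`.
5. `l i = p i` on `A ∪ B`, `l i = q i / κB` on `D`, `l i = 1` elsewhere. `p = 1 * l` on `A ∪ B`; `q = κB l` on `B ∪ D`; `s = κA l` on
   `A ∪ D` (on `D`: `s = κD q = κD κB l = κA l`).
`theta_good`: apply `theta_aux` to `p = m (A ∪ B)`, `q = m (B ∪ D)`, `s = m (A ∪ D)`; the covering condition comes from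
`cov` (hypothesis `hcov`) for `S = A ∪ B ∪ D` and `Theta.all`.
-/

set_option autoImplicit false

open Set

namespace VorUnc

variable {d : ℕ}

theorem R05b_sum_two {X Y : Finset (Fin d)} (h : Disjoint X Y) {p : Fin d → ℝ}
    (hp : ∀ i, i ∉ X ∪ Y → p i = 0) (f : Fin d → ℝ) :
    ∑ i, p i * f i = ∑ i ∈ X, p i * f i + ∑ i ∈ Y, p i * f i := by
  rw [← Finset.sum_union h]
  symm
  apply Finset.sum_subset (Finset.subset_univ _)
  intro i _ hi
  rw [hp i hi, zero_mul]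

theorem R05b_in {X c : Finset (Fin d)} (h : X ⊆ c) (p y : Fin d → ℝ) :
    ∑ i ∈ X, p i * flp c y i = -∑ i ∈ X, p i * y i := by
  rw [← Finset.sum_neg_distrib]
  refine Finset.sum_congr rfl (fun i hi => ?_)
  unfold flp
  rw [if_pos (h hi), mul_neg]

theorem R05b_out {X c : Finset (Fin d)} (h : Disjoint X c) (p y : Fin d → ℝ) :
    ∑ i ∈ X, p i * flp c y i = ∑ i ∈ X, p i * y i := by
  refine Finset.sum_congr rfl (fun i hi => ?_)
  unfold flp
  rw [if_neg (Finset.disjoint_left.1 h hi)]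

theorem R05b_cov {A B D : Finset (Fin d)}
    (dAB : Disjoint A B) (dAD : Disjoint A D) (dBD : Disjoint B D) {p q s : Fin d → ℝ}
    (hp0 : ∀ i, i ∉ A ∪ B → p i = 0)
    (hq0 : ∀ i, i ∉ B ∪ D → q i = 0)
    (hs0 : ∀ i, i ∉ A ∪ D → s i = 0)
    (cov : ∀ y : Fin d → ℝ, ∃ c : Finset (Fin d),
      (c = ∅ ∨ c = A ∪ B ∨ c = B ∪ D ∨ c = A ∪ D) ∧ ∑ i, p i * flp c y i ≤ 0 ∧
        ∑ i, q i * flp c y i ≤ 0 ∧ ∑ i, s i * flp c y i ≤ 0) (y : Fin d → ℝ) :
    (∑ i ∈ A, p i * y i + ∑ i ∈ B, p i * y i ≤ 0 ∧ ∑ i ∈ B, q i * y i + ∑ i ∈ D, q i * y i ≤ 0 ∧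
      ∑ i ∈ A, s i * y i + ∑ i ∈ D, s i * y i ≤ 0) ∨
    (-∑ i ∈ A, p i * y i - ∑ i ∈ B, p i * y i ≤ 0 ∧ -∑ i ∈ B, q i * y i + ∑ i ∈ D, q i * y i ≤ 0 ∧
      -∑ i ∈ A, s i * y i + ∑ i ∈ D, s i * y i ≤ 0) ∨
    (∑ i ∈ A, p i * y i - ∑ i ∈ B, p i * y i ≤ 0 ∧ -∑ i ∈ B, q i * y i - ∑ i ∈ D, q i * y i ≤ 0 ∧
      ∑ i ∈ A, s i * y i - ∑ i ∈ D, s i * y i ≤ 0) ∨
    (-∑ i ∈ A, p i * y i + ∑ i ∈ B, p i * y i ≤ 0 ∧ ∑ i ∈ B, q i * y i - ∑ i ∈ D, q i * y i ≤ 0 ∧
      -∑ i ∈ A, s i * y i - ∑ i ∈ D, s i * y i ≤ 0) := by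
  obtain ⟨c, hc, h1, h2, h3⟩ := cov y
  rw [R05b_sum_two dAB hp0] at h1
  rw [R05b_sum_two dBD hq0] at h2
  rw [R05b_sum_two dAD hs0] at h3
  rcases hc with rfl | rfl | rfl | rfl
  · left
    rw [R05b_out (Finset.disjoint_empty_right _), R05b_out (Finset.disjoint_empty_right _)] at h1
    rw [R05b_out (Finset.disjoint_empty_right _), R05b_out (Finset.disjoint_empty_right _)] at h2
    rw [R05b_out (Finset.disjoint_empty_right _), R05b_out (Finset.disjoint_empty_right _)] at h3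
    exact ⟨h1, h2, h3⟩
  · right; left
    have hA : A ⊆ A ∪ B := Finset.subset_union_left
    have hB : B ⊆ A ∪ B := Finset.subset_union_right
    have hD : Disjoint D (A ∪ B) := by
      rw [Finset.disjoint_union_right]
      exact ⟨dAD.symm, dBD.symm⟩
    rw [R05b_in hA, R05b_in hB] at h1
    rw [R05b_in hB, R05b_out hD] at h2
    rw [R05b_in hA, R05b_out hD] at h3
    exact ⟨by linarith, h2, h3⟩
  · right; right; left
    have hA : Disjoint A (B ∪ D) := by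
      rw [Finset.disjoint_union_right]
      exact ⟨dAB, dAD⟩
    have hB : B ⊆ B ∪ D := Finset.subset_union_left
    have hD : D ⊆ B ∪ D := Finset.subset_union_right
    rw [R05b_out hA, R05b_in hB] at h1
    rw [R05b_in hB, R05b_in hD] at h2
    rw [R05b_out hA, R05b_in hD] at h3
    exact ⟨by linarith, by linarith, by linarith⟩
  · right; right; right
    have hB : Disjoint B (A ∪ D) := by
      rw [Finset.disjoint_union_right]
      exact ⟨dAB.symm, dBD⟩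
    have hA : A ⊆ A ∪ D := Finset.subset_union_left
    have hD : D ⊆ A ∪ D := Finset.subset_union_right
    rw [R05b_in hA, R05b_out hB] at h1
    rw [R05b_out hB, R05b_in hD] at h2
    rw [R05b_in hA, R05b_in hD] at h3
    exact ⟨by linarith, by linarith, by linarith⟩

theorem R05b_zero {X Y : Finset (Fin d)} (h : Disjoint X Y) {u : Fin d → ℝ}
    (hu : ∀ i, i ∉ X → u i = 0) (p : Fin d → ℝ) : ∑ i ∈ Y, p i * u i = 0 := by
  apply Finset.sum_eq_zero
  intro i hi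
  rw [hu i (Finset.disjoint_right.1 h hi), mul_zero]

theorem theta_aux {A B D : Finset (Fin d)} (nA : A.Nonempty) (nB : B.Nonempty) (nD : D.Nonempty)
    (dAB : Disjoint A B) (dAD : Disjoint A D) (dBD : Disjoint B D) {p q s : Fin d → ℝ}
    (hp : ∀ i ∈ A ∪ B, 0 < p i) (hp0 : ∀ i, i ∉ A ∪ B → p i = 0)
    (hq : ∀ i ∈ B ∪ D, 0 < q i) (hq0 : ∀ i, i ∉ B ∪ D → q i = 0)
    (hs : ∀ i ∈ A ∪ D, 0 < s i) (hs0 : ∀ i, i ∉ A ∪ D → s i = 0)
    (cov : ∀ y : Fin d → ℝ, ∃ c : Finset (Fin d),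
      (c = ∅ ∨ c = A ∪ B ∨ c = B ∪ D ∨ c = A ∪ D) ∧ ∑ i, p i * flp c y i ≤ 0 ∧
        ∑ i, q i * flp c y i ≤ 0 ∧ ∑ i, s i * flp c y i ≤ 0) :
    ∃ l : Fin d → ℝ, (∀ i, 0 < l i) ∧ (∃ a > (0:ℝ), ∀ i ∈ A ∪ B, p i = a * l i) ∧
      (∃ a > (0:ℝ), ∀ i ∈ B ∪ D, q i = a * l i) ∧ ∃ a > (0:ℝ), ∀ i ∈ A ∪ D, s i = a * l i := by
  have cov' := R05b_cov dAB dAD dBD hp0 hq0 hs0 cov
  have hpA : ∀ i ∈ A, 0 < p i := fun i hi => hp i (Finset.mem_union_left _ hi)
  have hpB : ∀ i ∈ B, 0 < p i := fun i hi => hp i (Finset.mem_union_right _ hi)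
  have hqB : ∀ i ∈ B, 0 < q i := fun i hi => hq i (Finset.mem_union_left _ hi)
  have hqD : ∀ i ∈ D, 0 < q i := fun i hi => hq i (Finset.mem_union_right _ hi)
  have hsA : ∀ i ∈ A, 0 < s i := fun i hi => hs i (Finset.mem_union_left _ hi)
  have hsD : ∀ i ∈ D, 0 < s i := fun i hi => hs i (Finset.mem_union_right _ hi)
  obtain ⟨κA, hκA, hA⟩ := prop_of_no_sep hpA hsA (by
    rintro u hu ⟨h1, h2⟩
    have hc := cov' u
    rw [R05b_zero dAB hu, R05b_zero dAB hu, R05b_zero dAD hu, R05b_zero dAD hu] at hc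
    rcases hc with ⟨c1, c2, c3⟩ | ⟨c1, c2, c3⟩ | ⟨c1, c2, c3⟩ | ⟨c1, c2, c3⟩ <;> linarith)
  obtain ⟨κB, hκB, hB⟩ := prop_of_no_sep hpB hqB (by
    rintro u hu ⟨h1, h2⟩
    have hc := cov' u
    rw [R05b_zero dAB.symm hu, R05b_zero dAB.symm hu, R05b_zero dBD hu, R05b_zero dBD hu] at hc
    rcases hc with ⟨c1, c2, c3⟩ | ⟨c1, c2, c3⟩ | ⟨c1, c2, c3⟩ | ⟨c1, c2, c3⟩ <;> linarith)
  obtain ⟨κD, hκD, hD⟩ := prop_of_no_sep hqD hsD (by
    rintro u hu ⟨h1, h2⟩
    have hc := cov' u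
    rw [R05b_zero dAD.symm hu, R05b_zero dAD.symm hu, R05b_zero dBD.symm hu,
      R05b_zero dBD.symm hu] at hc
    rcases hc with ⟨c1, c2, c3⟩ | ⟨c1, c2, c3⟩ | ⟨c1, c2, c3⟩ | ⟨c1, c2, c3⟩ <;> linarith)
  obtain ⟨i0, hi0⟩ := nA
  obtain ⟨j0, hj0⟩ := nB
  obtain ⟨k0, hk0⟩ := nD
  have hij : j0 ≠ i0 := fun h => Finset.disjoint_left.1 dAB hi0 (h ▸ hj0)
  have hki : k0 ≠ i0 := fun h => Finset.disjoint_left.1 dAD hi0 (h ▸ hk0)
  have hkj : k0 ≠ j0 := fun h => Finset.disjoint_left.1 dBD hj0 (h ▸ hk0)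
  have hμ : κD * κB / κA = 1 := by
    apply tri_num (by positivity)
    intro a b e
    let y : Fin d → ℝ := fun i => if i = i0 then a / p i0 else if i = j0 then b / p j0 else
      if i = k0 then κB * e / q k0 else 0
    have yA : ∀ r : Fin d → ℝ, ∑ i ∈ A, r i * y i = r i0 * (a / p i0) := by
      intro r
      rw [Finset.sum_eq_single i0]
      · simp only [y, if_true]
      · intro i hi hne
        have h1 : i ≠ j0 := fun h => Finset.disjoint_left.1 dAB hi (h ▸ hj0)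
        have h2 : i ≠ k0 := fun h => Finset.disjoint_left.1 dAD hi (h ▸ hk0)
        simp only [y, if_neg hne, if_neg h1, if_neg h2, mul_zero]
      · intro h
        exact absurd hi0 h
    have yB : ∀ r : Fin d → ℝ, ∑ i ∈ B, r i * y i = r j0 * (b / p j0) := by
      intro r
      rw [Finset.sum_eq_single j0]
      · simp only [y, if_neg hij, if_true]
      · intro i hi hne
        have h1 : i ≠ i0 := fun h => Finset.disjoint_left.1 dAB hi0 (h ▸ hi)
        have h2 : i ≠ k0 := fun h => Finset.disjoint_left.1 dBD hi (h ▸ hk0)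
        simp only [y, if_neg hne, if_neg h1, if_neg h2, mul_zero]
      · intro h
        exact absurd hj0 h
    have yD : ∀ r : Fin d → ℝ, ∑ i ∈ D, r i * y i = r k0 * (κB * e / q k0) := by
      intro r
      rw [Finset.sum_eq_single k0]
      · simp only [y, if_neg hki, if_neg hkj, if_true]
      · intro i hi hne
        have h1 : i ≠ i0 := fun h => Finset.disjoint_left.1 dAD hi0 (h ▸ hi)
        have h2 : i ≠ j0 := fun h => Finset.disjoint_left.1 dBD hj0 (h ▸ hi)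
        simp only [y, if_neg hne, if_neg h1, if_neg h2, mul_zero]
      · intro h
        exact absurd hk0 h
    have pA : p i0 * (a / p i0) = a := mul_div_cancel₀ _ (hpA i0 hi0).ne'
    have pB : p j0 * (b / p j0) = b := mul_div_cancel₀ _ (hpB j0 hj0).ne'
    have qB : q j0 * (b / p j0) = κB * b := by
      rw [hB j0 hj0, mul_assoc, pB]
    have qD : q k0 * (κB * e / q k0) = κB * e := mul_div_cancel₀ _ (hqD k0 hk0).ne'
    have sA : s i0 * (a / p i0) = κA * a := by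
      rw [hA i0 hi0, mul_assoc, pA]
    have sD : s k0 * (κB * e / q k0) = κD * (κB * e) := by
      rw [hD k0 hk0, mul_assoc, qD]
    have hc := cov' y
    rw [yA, yB, yB, yD, yA, yD, pA, pB, qB, qD, sA, sD] at hc
    have m1 : ∀ t : ℝ, κB * t ≤ 0 → t ≤ 0 := fun t ht => by
      by_contra h
      push Not at h
      have := mul_pos hκB h
      linarith
    have m2 : ∀ t : ℝ, κA * t ≤ 0 → t ≤ 0 := fun t ht => by
      by_contra h
      push Not at h
      have := mul_pos hκA h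
      linarith
    have m3 : κA * (κD * κB / κA * e) = κD * (κB * e) := by
      field_simp
    rcases hc with ⟨c1, c2, c3⟩ | ⟨c1, c2, c3⟩ | ⟨c1, c2, c3⟩ | ⟨c1, c2, c3⟩
    · left
      exact ⟨c1, m1 _ (by linarith), m2 _ (by rw [mul_add, m3]; exact c3)⟩
    · right; left
      exact ⟨c1, m1 _ (by linarith), m2 _ (by rw [mul_add, m3]; linarith)⟩
    · right; right; left
      exact ⟨c1, m1 _ (by linarith), m2 _ (by rw [mul_sub, m3]; linarith)⟩
    · right; right; right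
      exact ⟨c1, m1 _ (by linarith), m2 _ (by rw [mul_sub, m3]; linarith)⟩
  have hμ' : κD * κB = κA := by
    rw [div_eq_one_iff_eq hκA.ne'] at hμ
    exact hμ
  classical
  refine ⟨fun i => if i ∈ A ∪ B then p i else if i ∈ D then q i / κB else 1, ?_, ?_, ?_, ?_⟩
  · intro i
    show 0 < (if i ∈ A ∪ B then p i else if i ∈ D then q i / κB else 1)
    split_ifs with h1 h2
    · exact hp i h1
    · exact div_pos (hqD i h2) hκB
    · exact one_pos
  · refine ⟨1, one_pos, fun i hi => ?_⟩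
    show p i = 1 * (if i ∈ A ∪ B then p i else if i ∈ D then q i / κB else 1)
    rw [if_pos hi, one_mul]
  · refine ⟨κB, hκB, fun i hi => ?_⟩
    show q i = κB * (if i ∈ A ∪ B then p i else if i ∈ D then q i / κB else 1)
    rcases Finset.mem_union.1 hi with hiB | hiD
    · rw [if_pos (Finset.mem_union_right _ hiB)]
      exact hB i hiB
    · have h1 : i ∉ A ∪ B := by
        rw [Finset.mem_union]
        rintro (h | h)
        · exact Finset.disjoint_left.1 dAD h hiD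
        · exact Finset.disjoint_left.1 dBD h hiD
      rw [if_neg h1, if_pos hiD, mul_div_cancel₀ _ hκB.ne']
  · refine ⟨κA, hκA, fun i hi => ?_⟩
    show s i = κA * (if i ∈ A ∪ B then p i else if i ∈ D then q i / κB else 1)
    rcases Finset.mem_union.1 hi with hiA | hiD
    · rw [if_pos (Finset.mem_union_left _ hiA)]
      exact hA i hiA
    · have h1 : i ∉ A ∪ B := by
        rw [Finset.mem_union]
        rintro (h | h)
        · exact Finset.disjoint_left.1 dAD h hiD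
        · exact Finset.disjoint_left.1 dBD h hiD
      rw [if_neg h1, if_pos hiD, hD i hiD, ← hμ', mul_assoc, mul_div_cancel₀ _ hκB.ne']

theorem theta_good {C : Set (Finset (Fin d))} {m : Finset (Fin d) → Fin d → ℝ}
    (hsupp : ∀ c ∈ C, c ≠ ∅ → ∀ i, i ∉ c → m c i = 0)
    (hpos : ∀ c, Circ C c → ∀ i ∈ c, 0 < m c i)
    (hcov : ∀ (S : Finset (Fin d)) (y : Fin d → ℝ),
      ∃ c ∈ C, c ⊆ S ∧ ∀ c' ∈ C, c' ⊆ S → c' ≠ ∅ → ∑ i, m c' i * flp c y i ≤ 0)
    {A B D : Finset (Fin d)} (h : Theta C A B D) : Good m A B D := by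
  refine theta_aux h.nA h.nB h.nD h.dAB h.dAD h.dBD (hpos _ h.c1) (hsupp _ h.c1.1 h.c1.2.1)
    (hpos _ h.c2) (hsupp _ h.c2.1 h.c2.2.1) (hpos _ h.c3) (hsupp _ h.c3.1 h.c3.2.1) ?_
  intro y
  obtain ⟨c, hcC, hcS, hc⟩ := hcov (A ∪ B ∪ D) y
  refine ⟨c, h.all c hcC hcS, ?_, ?_, ?_⟩
  · exact hc _ h.c1.1 Finset.subset_union_left h.c1.2.1
  · refine hc _ h.c2.1 ?_ h.c2.2.1
    exact Finset.union_subset_union Finset.subset_union_right (Finset.Subset.refl _)
  · refine hc _ h.c3.1 ?_ h.c3.2.1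
    exact Finset.union_subset_union Finset.subset_union_left (Finset.Subset.refl _)

end VorUnc
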