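import Pool.Agent.Lib.MP_467880_co.R07

/-!
# R08: global weights

Relation `R i j`: `i = j` or there is a circuit containing `i` and `j`. For `R j e` let `ρ j e = m f j / m f e` if there is a circuit
`f` containing `j` and `e` (chosen; by `ratio` the value does not depend on `f`), and `ρ j e = 1` otherwise.
KEY: let `c` be a circuit, `i ∈ c`, `R i e`. Then for all `j ∈ c` there is a circuit containing `j` and `e`, and there is `a > 0`
with `m c j = a * ρ j e` for all `j ∈ c`.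
  If `e ∈ c`: the circuit `c`, `a = m c e`. Let `e ∉ c`. There is a circuit `f` with `e ∈ f`, `(c ∩ f).Nonempty` (it contains `i`).
  Choose such an `f` with `(f \ c).card` minimal. `theta_of` with `e := f`: `c \ f ≠ ∅` (otherwise `c ⊆ f`, `c = f`, `e ∈ c`),
  `f \ c ∋ e`. `hmin`: let `g ∈ C`, `g \ c ⊆ f \ c`, `g \ c ≠ ∅`, `g \ c ≠ f \ c`. WLOG `e ∈ g` (otherwise replace `g` by
  `symmDiff g f`, `(symmDiff g f) \ c = (f \ c) \ (g \ c)`, again nonempty and different from `f \ c`). By `exists_circ` there is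
  a circuit `g1`, `e ∈ g1 ⊆ g`; `g1 \ c ⊆ g \ c` is a proper subset of `f \ c`. If `g1` meets `c`: contradiction to the
  minimality of `f`. If not: `g1 = g1 \ c ⊆ f \ c ⊆ f`, so `g1 = f` (circuits), but `f` meets `c`.
  So `Theta C (c \ f) (c ∩ f) (f \ c)` and `Good`: vector `l`. For `j ∈ c`: if `j ∈ f` the circuit `f`, otherwise
  `(c \ f) ∪ (f \ c)`, contains `j` and `e` and `m` is a multiple of `l` on it: `ρ j e = l j / l e` (`ratio`). And `m c j = a l j`.
By KEY `R` is an equivalence relation (Setoid); let `b i` be the chosen representative of the class of `i` (`Quotient.out`),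
`l i = ρ i (b i) > 0`. For a circuit `c` all the elements `j ∈ c` have the same `b j = e`, and KEY gives `a`.
-/

set_option autoImplicit false

open Set

namespace VorUnc

variable {d : ℕ} {C : Set (Finset (Fin d))} {m : Finset (Fin d) → Fin d → ℝ}

/-- the minimal circuit through `e` meeting `c` is in theta position to `c` -/
theorem R08_min (h : Code C) {c f : Finset (Fin d)} {e : Fin d}
    (hf : Circ C f) (hef : e ∈ f) (hcf : (c ∩ f).Nonempty)
    (hmin : ∀ g, Circ C g → e ∈ g → (c ∩ g).Nonempty → (f \ c).card ≤ (g \ c).card) :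
    ∀ g ∈ C, g \ c ⊆ f \ c → g \ c = ∅ ∨ g \ c = f \ c := by
  classical
  intro g hg hgs
  by_cases h1 : g \ c = ∅
  · exact Or.inl h1
  right
  by_contra h2
  obtain ⟨g', hg', heg', hss⟩ : ∃ g' ∈ C, e ∈ g' ∧ g' \ c ⊂ f \ c := by
    by_cases he : e ∈ g
    · exact ⟨g, hg, he, lt_of_le_of_ne hgs h2⟩
    · refine ⟨symmDiff g f, h.symm g hg f hf.1, ?_, ?_⟩
      · rw [Finset.mem_symmDiff]
        exact Or.inr ⟨hef, he⟩
      · obtain ⟨y, hy⟩ := Finset.nonempty_iff_ne_empty.mpr h1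
        refine ⟨?_, fun h3 => ?_⟩
        · intro x hx
          rw [Finset.mem_sdiff, Finset.mem_symmDiff] at hx
          rcases hx.1 with h4 | h4
          · exact absurd (Finset.mem_sdiff.mp (hgs (Finset.mem_sdiff.mpr ⟨h4.1, hx.2⟩))).1 h4.2
          · exact Finset.mem_sdiff.mpr ⟨h4.1, hx.2⟩
        · have h4 := h3 (hgs hy)
          rw [Finset.mem_sdiff, Finset.mem_symmDiff] at h4
          rcases h4.1 with h5 | h5
          · exact h5.2 (Finset.mem_sdiff.mp (hgs hy)).1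
          · exact h5.2 (Finset.mem_sdiff.mp hy).1
  obtain ⟨g1, hg1, heg1, hsub⟩ := h.exists_circ hg' heg'
  have hlt : (g1 \ c).card < (f \ c).card :=
    lt_of_le_of_lt (Finset.card_le_card (Finset.sdiff_subset_sdiff hsub le_rfl))
      (Finset.card_lt_card hss)
  by_cases h3 : (c ∩ g1).Nonempty
  · exact absurd (hmin g1 hg1 heg1 h3) (not_le.mpr hlt)
  · have h4 : g1 ⊆ f := by
      intro x hx
      have h5 : x ∉ c := fun h6 => h3 ⟨x, Finset.mem_inter.mpr ⟨h6, hx⟩⟩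
      exact (Finset.mem_sdiff.mp (hss.1 (Finset.mem_sdiff.mpr ⟨hsub hx, h5⟩))).1
    have h5 := hf.2.2 g1 hg1.1 h4 hg1.2.1
    rw [h5] at h3
    exact h3 hcf

theorem R08_key (h : Code C) (pos : ∀ c, Circ C c → ∀ i ∈ c, 0 < m c i)
    (good : ∀ A B D, Theta C A B D → Good m A B D) {c : Finset (Fin d)} (hc : Circ C c)
    {i e : Fin d} (hi : i ∈ c) (hR : i = e ∨ ∃ f, Circ C f ∧ i ∈ f ∧ e ∈ f) :
    ∃ a > (0:ℝ), ∀ j ∈ c, (∃ f, Circ C f ∧ j ∈ f ∧ e ∈ f) ∧
      ∀ f, Circ C f → j ∈ f → e ∈ f → m c j * m f e = a * m f j := by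
  classical
  by_cases he : e ∈ c
  · refine ⟨m c e, pos c hc e he, fun j hj => ⟨⟨c, hc, hj, he⟩, fun f hf hjf hef => ?_⟩⟩
    exact ratio h pos good hc hf hj he hjf hef
  · have hex : ∃ f, Circ C f ∧ e ∈ f ∧ (c ∩ f).Nonempty := by
      rcases hR with h1 | ⟨f, hf, h1, h2⟩
      · exact absurd (h1 ▸ hi) he
      · exact ⟨f, hf, h2, i, Finset.mem_inter.mpr ⟨hi, h1⟩⟩
    obtain ⟨f, hfW, hmin⟩ := (Finset.univ.filter fun f : Finset (Fin d) =>
      Circ C f ∧ e ∈ f ∧ (c ∩ f).Nonempty).exists_min_image (fun f => (f \ c).card) (by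
        obtain ⟨f, hf⟩ := hex
        exact ⟨f, by simp only [Finset.mem_filter, Finset.mem_univ, true_and]; exact hf⟩)
    simp only [Finset.mem_filter, Finset.mem_univ, true_and] at hfW hmin
    obtain ⟨hf, hef, hcf⟩ := hfW
    have hmin' := R08_min h hf hef hcf fun g hg h1 h2 => hmin g ⟨hg, h1, h2⟩
    have hA : (c \ f).Nonempty := by
      rw [Finset.nonempty_iff_ne_empty]
      intro h1
      rw [Finset.sdiff_eq_empty_iff_subset] at h1
      have h2 := hf.2.2 c hc.1 h1 hc.2.1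
      exact he (h2 ▸ hef)
    have hD : (f \ c).Nonempty := ⟨e, Finset.mem_sdiff.mpr ⟨hef, he⟩⟩
    have hth := h.theta_of hc hf.1 hA hcf hD hmin'
    obtain ⟨l, hl, ⟨a1, ha1, h1⟩, ⟨a2, ha2, h2⟩, ⟨a3, ha3, h3⟩⟩ := good _ _ _ hth
    have hABc : (c \ f) ∪ (c ∩ f) = c := Finset.sdiff_union_inter c f
    have hBDf : (c ∩ f) ∪ (f \ c) = f := by
      ext x
      simp only [Finset.mem_union, Finset.mem_inter, Finset.mem_sdiff]
      tauto
    rw [hABc] at h1
    rw [hBDf] at h2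
    refine ⟨a1 * l e, mul_pos ha1 (hl e), fun j hj => ?_⟩
    obtain ⟨f', hf', hjf', hef', a', ha', hl'⟩ : ∃ f', Circ C f' ∧ j ∈ f' ∧ e ∈ f' ∧
        ∃ a' > (0:ℝ), ∀ x ∈ f', m f' x = a' * l x := by
      by_cases hjf : j ∈ f
      · exact ⟨f, hf, hjf, hef, a2, ha2, h2⟩
      · exact ⟨(c \ f) ∪ (f \ c), hth.c3,
          Finset.mem_union_left _ (Finset.mem_sdiff.mpr ⟨hj, hjf⟩),
          Finset.mem_union_right _ (Finset.mem_sdiff.mpr ⟨hef, he⟩), a3, ha3, h3⟩
    refine ⟨⟨f', hf', hjf', hef'⟩, fun g hg hjg heg => ?_⟩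
    have h4 := ratio h pos good hg hf' hjg heg hjf' hef'
    rw [hl' e hef', hl' j hjf'] at h4
    have h5 : m g j * l e = m g e * l j := by
      apply mul_left_cancel₀ ha'.ne'
      linear_combination h4
    rw [h1 j hj]
    linear_combination -a1 * h5

theorem exists_weights (h : Code C) (pos : ∀ c, Circ C c → ∀ i ∈ c, 0 < m c i)
    (good : ∀ A B D, Theta C A B D → Good m A B D) :
    ∃ l : Fin d → ℝ, (∀ i, 0 < l i) ∧ ∀ c, Circ C c → ∃ a > (0:ℝ), ∀ i ∈ c, m c i = a * l i := by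
  classical
  let R : Fin d → Fin d → Prop := fun i j => i = j ∨ ∃ f, Circ C f ∧ i ∈ f ∧ j ∈ f
  have hRsymm : ∀ i j, R i j → R j i := by
    rintro i j (h1 | ⟨f, hf, h1, h2⟩)
    · exact Or.inl h1.symm
    · exact Or.inr ⟨f, hf, h2, h1⟩
  have hRtrans : ∀ i j k, R i j → R j k → R i k := by
    rintro i j k (h1 | ⟨f, hf, h1, h2⟩) h3
    · rw [h1]; exact h3
    · obtain ⟨a, _, ha⟩ := R08_key h pos good hf h2 h3
      exact Or.inr (ha i h1).1
  let s : Setoid (Fin d) := ⟨R, ⟨fun i => Or.inl rfl, fun {i j} => hRsymm i j,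
    fun {i j k} => hRtrans i j k⟩⟩
  obtain ⟨b, hb1, hb2⟩ : ∃ b : Fin d → Fin d, (∀ i, R i (b i)) ∧ ∀ i j, R i j → b i = b j := by
    refine ⟨fun i => (Quotient.mk s i).out, fun i => ?_, fun i j hij => ?_⟩
    · exact hRsymm _ _ (Quotient.exact (Quotient.out_eq (Quotient.mk s i)))
    · show (Quotient.mk s i).out = (Quotient.mk s j).out
      rw [Quotient.sound (s := s) hij]
  obtain ⟨l, hl1, hl2⟩ : ∃ l : Fin d → ℝ, (∀ i, 0 < l i) ∧
      ∀ i, (∃ f, Circ C f ∧ i ∈ f ∧ b i ∈ f) →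
        ∃ f, Circ C f ∧ i ∈ f ∧ b i ∈ f ∧ l i = m f i / m f (b i) := by
    refine ⟨fun i => if hh : ∃ f, Circ C f ∧ i ∈ f ∧ b i ∈ f then
      m hh.choose i / m hh.choose (b i) else 1, fun i => ?_, fun i hh => ?_⟩
    · show 0 < (if hh : ∃ f, Circ C f ∧ i ∈ f ∧ b i ∈ f then
        m hh.choose i / m hh.choose (b i) else 1)
      split_ifs with hh
      · obtain ⟨h1, h2, h3⟩ := hh.choose_spec
        exact div_pos (pos _ h1 _ h2) (pos _ h1 _ h3)
      · exact one_pos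
    · obtain ⟨h1, h2, h3⟩ := hh.choose_spec
      exact ⟨hh.choose, h1, h2, h3, dif_pos hh⟩
  refine ⟨l, hl1, fun c hc => ?_⟩
  obtain ⟨i0, hi0⟩ := Finset.nonempty_iff_ne_empty.mpr hc.2.1
  obtain ⟨a, ha, hkey⟩ := R08_key h pos good hc hi0 (hb1 i0)
  refine ⟨a, ha, fun j hj => ?_⟩
  have hbj : b j = b i0 := hb2 j i0 (Or.inr ⟨c, hc, hj, hi0⟩)
  obtain ⟨h1, h2⟩ := hkey j hj
  obtain ⟨f, hf, hjf, hbf, hlj⟩ := hl2 j (by rw [hbj]; exact h1)
  rw [hbj] at hbf hlj
  have h3 := h2 f hf hjf hbf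
  have h4 := (pos f hf _ hbf).ne'
  rw [hlj]
  field_simp
  linarith

end VorUnc
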