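import Pool.Agent.Lib.MP_467880_co.R09a

/-!
# R09 (R09a = neg_mem_lat, code_le, vor_le; R09b = eq_vor): `P` is the Voronoi cell of `lat C` for the quadratic form `∑ l i x i ^ 2`

* `code_le`: for every word `c ∈ C` and `x ∈ P`: `∑ i ∈ c, l i * x i ≤ (∑ i ∈ c, l i) / 2`. Strong induction on `c.card`: `c = ∅`
  trivial; otherwise a circuit `f ⊆ c` (`exists_circ`), `c \ f = symmDiff c f ∈ C`, split the sums (`Finset.sum_sdiff`).
* `vor_le`: for `x ∈ P` and `v ∈ lat C`: `∑ l i * x i ≤ ...`, i.e. `2 ∑ l i x i v i ≤ ∑ l i (v i)^2`. Let `v i = n i`, `c` the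
  odd support. `y i = |x i|` is in `P` (`Sit.mono`), `0 ≤ y i ≤ 1`, `x i v i ≤ y i |v i|`. For `i ∉ c`, `|v i|` is even, so
  `2 y i |v i| ≤ 2 |v i| ≤ |v i|^2`. For `i ∈ c`: `|v i| ≥ 1`, `2 y i |v i| ≤ 2 y i + 2 (|v i| - 1)` (`y i ≤ 1`), and
  `2 |v i| - 1 ≤ |v i|^2`. Sum over `i ∈ c`: `∑ 2 l y |v| ≤ ∑ l (2 y + 2 |v| - 2) ≤ ∑ l (1 + 2 |v| - 2) ≤ ∑ l |v|^2`
  by `code_le` for `y`.
* `eq_vor`, `⊆`: `vor_le`, expand the square. `⊇`: let `x` be in the cell. For `0 ≤ t < 1` the point `t x` satisfies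
  `∑ l (t x)^2 < ∑ l (t x - v)^2` for all `v ∈ lat C`, `v ≠ 0` (`2 t ∑ l x v ≤ t ∑ l v^2 < ∑ l v^2`; if `t = 0` clear). `cover`:
  `t x - v ∈ P` with `v ∈ lat C`. If `v ≠ 0`: by the inclusion already proved, for the point `t x - v ∈ P` and `-v ∈ lat C`:
  `∑ l (t x - v)^2 ≤ ∑ l (t x)^2`, contradiction. So `v = 0`, `t x ∈ P`. Let `t → 1`, `P` is closed.
  (`-v ∈ lat C`: integers `-n i`, the same odd support.)
-/

set_option autoImplicit false

open Set

namespace VorUnc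

variable {d : ℕ} {P : Set (Fin d → ℝ)} {C : Set (Finset (Fin d))}

theorem r09b_expand (l x v : Fin d → ℝ) : ∑ i, l i * (x i - v i) ^ 2 =
    ∑ i, l i * x i ^ 2 - 2 * ∑ i, l i * (x i * v i) + ∑ i, l i * v i ^ 2 := by
  rw [Finset.mul_sum, ← Finset.sum_sub_distrib, ← Finset.sum_add_distrib]
  exact Finset.sum_congr rfl fun i _ => by ring

theorem Sit.eq_vor (h : Sit P C) {l : Fin d → ℝ} (hl : ∀ i, 0 < l i)
    (hc : ∀ c, Circ C c → ∀ x ∈ P, ∑ i ∈ c, l i * x i ≤ (∑ i ∈ c, l i) / 2) :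
    P = {x | ∀ v ∈ lat C, ∑ i, l i * x i ^ 2 ≤ ∑ i, l i * (x i - v i) ^ 2} := by
  apply Subset.antisymm
  · intro x hx v hv
    have h1 := h.vor_le hl hc hx hv
    rw [r09b_expand]
    linarith
  · intro x hx
    have key : ∀ t : ℝ, 0 < t → t < 1 → t • x ∈ P := by
      intro t ht0 ht1
      obtain ⟨v, hv, hP⟩ := h.cover (t • x)
      by_cases hv0 : v = 0
      · rw [hv0, sub_zero] at hP
        exact hP
      · exfalso
        have h1 := h.vor_le hl hc hP (neg_mem_lat hv)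
        have h2 := hx v hv
        rw [r09b_expand] at h2
        have h3 : ∑ i, l i * ((t • x - v) i * (-v) i) =
            -(t * ∑ i, l i * (x i * v i)) + ∑ i, l i * v i ^ 2 := by
          rw [Finset.mul_sum, ← Finset.sum_neg_distrib, ← Finset.sum_add_distrib]
          refine Finset.sum_congr rfl fun i _ => ?_
          simp only [Pi.sub_apply, Pi.smul_apply, Pi.neg_apply, smul_eq_mul]
          ring
        have h4 : ∑ i, l i * (-v) i ^ 2 = ∑ i, l i * v i ^ 2 :=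
          Finset.sum_congr rfl fun i _ => by rw [Pi.neg_apply, neg_sq]
        rw [h3, h4] at h1
        have h5 : 0 < ∑ i, l i * v i ^ 2 := by
          obtain ⟨j, hj⟩ : ∃ j, v j ≠ 0 := by
            by_contra hcon
            push Not at hcon
            exact hv0 (funext hcon)
          have h6 : l j * v j ^ 2 ≤ ∑ i, l i * v i ^ 2 :=
            Finset.single_le_sum (f := fun i => l i * v i ^ 2)
              (fun i _ => mul_nonneg (hl i).le (sq_nonneg _)) (Finset.mem_univ j)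
          have h7 : 0 < l j * v j ^ 2 := mul_pos (hl j) (by positivity)
          linarith
        have h8 : 2 * ∑ i, l i * (x i * v i) ≤ ∑ i, l i * v i ^ 2 := by linarith
        have h9 : t * (2 * ∑ i, l i * (x i * v i)) ≤ t * ∑ i, l i * v i ^ 2 :=
          mul_le_mul_of_nonneg_left h8 ht0.le
        have h10 : 0 < (1 - t) * ∑ i, l i * v i ^ 2 := mul_pos (by linarith) h5
        linarith
    have ht : Filter.Tendsto (fun t : ℝ => t • x) (nhdsWithin 1 (Iio 1)) (nhds ((1:ℝ) • x)) := by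
      have h1 : Continuous fun t : ℝ => t • x := by fun_prop
      exact (h1.tendsto 1).mono_left nhdsWithin_le_nhds
    rw [one_smul] at ht
    refine h.comp.isClosed.mem_of_tendsto ht ?_
    have h2 : Ioo (0:ℝ) 1 ∈ nhdsWithin (1:ℝ) (Iio 1) := Ioo_mem_nhdsLT (by norm_num)
    filter_upwards [h2] with t ht'
    exact key t ht'.1 ht'.2

end VorUnc
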