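import Pool.Agent.Lib.MP_467880_co.R12a

/-!
# R12 (R12a = flip, axis; R12b = exists_scale; R12c = sit): sign changes preserve the lattice; normalisation

* `Til.flip`: let `M' = {v | flp c v ∈ M}`. `Til P M'`: `flp c` is a linear involution, an isometry for the sup norm, and maps
  `P` onto `P`, so it preserves `interior P`, `openSegment`, etc. `Til.unique`: `M ⊆ M'`.
* `Til.axis`: `G = {t : ℝ | Pi.single i t ∈ M}` is an additive subgroup of `ℝ`. It is not trivial: `cover` for
  `x = Pi.single i R` with large `R` gives `v ∈ M` with `v i ≠ 0` (`P` is bounded), and `v - flp {i} v = Pi.single i (2 * v i) ∈ M`. It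
  is not dense: `fin` for `R = 1` (finitely many `t` with `|t| ≤ 1`). So it is cyclic (`AddSubgroup.dense_or_cyclic`),
  generated by some `a ≠ 0`; take `g = |a| / 2`.
* `Til.exists_scale`: `g i` from `axis`, `C = {c | (fun i => ind c i * g i) ∈ M}`. For `v ∈ M`: `Pi.single i (2 * v i) ∈ M`, so
  `2 v i = 2 n i g i` with an integer `n i`: `v i / g i = n i`. Let `c` be the odd support of `n`: `v - g ind c` is the sum
  of the vectors `Pi.single i (2 k i g i) ∈ M`, so `g ind c ∈ M`, `c ∈ C`. The converse in the same way. `Code C`: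
  `ind (symmDiff c c')` and `ind c + ind c'` differ by a vector with coordinates `0, 2`.
* `Til.sit`: `P' = {x / g | x ∈ P}`. All conditions except `box` are transported by the linear homeomorphism
  `x ↦ x / g` (`int`: `Til.int`). `box`: suppose `x ∈ P'`, `|x i| > 1`; WLOG (`unc`) `x i > 1`; moving `x` a little towards a point of
  `interior P'` we may assume `x ∈ interior P'` and `x i > 1` (`Convex.openSegment_interior_self_subset_interior`-like
  lemmas). `flp {i} x ∈ interior P'`. The vector `w = 2 e_i ∈ lat C`, `w ≠ 0`, and `x - w` is on the open segment between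
  `flp {i} x` and `x` (coordinate `i`: `-x i < x i - 2 < x i`), so `x - w ∈ interior P'` (convex): contradiction to `disj`.
-/

set_option autoImplicit false

open Set

namespace VorUnc

variable {d : ℕ} {P M : Set (Fin d → ℝ)}

theorem r12b_sum (h : Til P M) (s : Finset (Fin d)) (w : Fin d → Fin d → ℝ)
    (hw : ∀ i, w i ∈ M) : ∑ i ∈ s, w i ∈ M := by
  classical
  induction s using Finset.induction_on with
  | empty =>
    rw [Finset.sum_empty]
    exact h.zero
  | insert i s hi ih =>
    rw [Finset.sum_insert hi]
    exact h.add _ (hw i) _ ih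

theorem Til.exists_scale (h : Til P M) (unc : ∀ x ∈ P, ∀ c, flp c x ∈ P) :
    ∃ (g : Fin d → ℝ) (C : Set (Finset (Fin d))), (∀ i, 0 < g i) ∧ Code C ∧
      ∀ v : Fin d → ℝ, v ∈ M ↔ (fun i => v i / g i) ∈ lat C := by
  classical
  choose g hg hax using fun i => h.axis unc i
  have even : ∀ k : Fin d → ℤ, (fun i => 2 * (k i : ℝ) * g i) ∈ M := by
    intro k
    have h1 := r12b_sum h Finset.univ (fun i => Pi.single i (2 * (k i : ℝ) * g i))
      (fun i => (hax i _).2 ⟨k i, rfl⟩)
    have h2 : ∑ i, (Pi.single i (2 * (k i : ℝ) * g i) : Fin d → ℝ) =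
        fun i => 2 * (k i : ℝ) * g i := Finset.univ_sum_single _
    rwa [h2] at h1
  have hint : ∀ v ∈ M, ∀ i, ∃ n : ℤ, v i = n * g i := by
    intro v hv i
    have h4 := h.flip unc hv {i}
    have h5 := h.add _ hv _ (h.neg _ h4)
    have h6 : v + -flp {i} v = Pi.single i (2 * v i) := by
      funext j
      by_cases hj : j = i
      · subst hj
        simp [flp]
        ring
      · simp [flp, hj]
    rw [h6] at h5
    obtain ⟨n, hn⟩ := (hax i _).1 h5
    exact ⟨n, by linarith⟩
  -- integer vectors
  have hdec : ∀ (n : Fin d → ℤ) (c : Finset (Fin d)),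
      c = (Finset.univ.filter fun i => Odd (n i)) →
      (fun i => (n i : ℝ) * g i) =
        (fun i => 2 * ((n i / 2 : ℤ) : ℝ) * g i) + fun i => ind c i * g i := by
    intro n c hc
    funext i
    show (n i : ℝ) * g i = 2 * ((n i / 2 : ℤ) : ℝ) * g i + ind c i * g i
    rw [← add_mul]
    congr 1
    have h1 : (n i : ℝ) = 2 * ((n i / 2 : ℤ) : ℝ) + ((n i % 2 : ℤ) : ℝ) := by
      have := Int.mul_ediv_add_emod (n i) 2
      exact_mod_cast this.symm
    have h2 : ind c i = ((n i % 2 : ℤ) : ℝ) := by
      rw [hc]
      by_cases ho : Odd (n i)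
      · have : n i % 2 = 1 := Int.odd_iff.1 ho
        simp [ind, ho, this]
      · have : n i % 2 = 0 := Int.even_iff.1 (Int.not_odd_iff_even.1 ho)
        simp [ind, ho, this]
    rw [h2]
    exact h1
  obtain ⟨C, hC⟩ : ∃ C : Set (Finset (Fin d)), C = {c | (fun i => ind c i * g i) ∈ M} := ⟨_, rfl⟩
  have hCm : ∀ c, c ∈ C ↔ (fun i => ind c i * g i) ∈ M := by
    intro c
    rw [hC]
    exact Iff.rfl
  refine ⟨g, C, hg, ⟨?_, ?_⟩, ?_⟩
  · rw [hCm]
    have : (fun i => ind (∅ : Finset (Fin d)) i * g i) = 0 := by
      funext i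
      simp [ind]
    rw [this]
    exact h.zero
  · intro c hc c' hc'
    rw [hCm] at hc hc' ⊢
    have h1 := h.add _ (h.add _ hc _ hc') _ (even fun i => if i ∈ c ∧ i ∈ c' then -1 else 0)
    have h2 : ((fun i => ind c i * g i) + fun i => ind c' i * g i) +
        (fun i => 2 * ((if i ∈ c ∧ i ∈ c' then -1 else 0 : ℤ) : ℝ) * g i) =
        fun i => ind (symmDiff c c') i * g i := by
      funext i
      simp only [Pi.add_apply, ind, Finset.mem_symmDiff]
      by_cases h3 : i ∈ c
      · by_cases h4 : i ∈ c'
        · simp [h3, h4]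
          ring
        · simp [h3, h4]
      · by_cases h4 : i ∈ c'
        · simp [h3, h4]
        · simp [h3, h4]
    rwa [h2] at h1
  · intro v
    constructor
    · intro hv
      choose n hn using hint v hv
      refine ⟨n, fun i => ?_, ?_⟩
      · show v i / g i = n i
        rw [hn i, mul_div_cancel_right₀ _ (hg i).ne']
      · rw [hCm]
        have hv' : v = fun i => (n i : ℝ) * g i := funext hn
        have h1 := hdec n _ rfl
        rw [← hv'] at h1
        have h2 := h.add _ hv _ (h.neg _ (even fun i => n i / 2))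
        have h3 : v + -(fun i => 2 * ((n i / 2 : ℤ) : ℝ) * g i) =
            fun i => ind (Finset.univ.filter fun i => Odd (n i)) i * g i := by
          rw [h1]
          abel
        rwa [h3] at h2
    · rintro ⟨n, hn, hc⟩
      rw [hCm] at hc
      have hv' : v = fun i => (n i : ℝ) * g i := by
        funext i
        have h1 : v i / g i = n i := hn i
        rw [← h1, div_mul_cancel₀ _ (hg i).ne']
      rw [hv', hdec n _ rfl]
      exact h.add _ (even fun i => n i / 2) _ hc

end VorUnc
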