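import Pool.Agent.Lib.MP_467880_co.R10a

/-!
# R12 (R12a = flip, axis; R12b = exists_scale; R12c = sit): sign changes preserve the lattice; normalisation

* `Til.flip`: let `M' = {v | flp c v ∈ M}`. `Til P M'`: `flp c` is a linear involution, an isometry for the sup norm, and maps
  `P` onto `P`, so it preserves `interior P`, `openSegment`, etc. `Til.unique`: `M ⊆ M'`.
* `Til.axis`: `G = {t : ℝ | Pi.single i t ∈ M}` is an additive subgroup of `ℝ`. It is not trivial: `cover` for
  `x = Pi.single i R` with large `R` gives `v ∈ M` with `v i ≠ 0` (`P` is bounded), and `v - flp {i} v = Pi.single i (2 * v i) ∈ M`. It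
  is not dense: `fin` for `R = 1` (finitely many `t` with `|t| ≤ 1`). So it is cyclic (`AddSubgroup.dense_or_cyclic`),
  generated by some `a ≠ 0`; take `g = |a| / 2`.
* `Til.exists_scale`: `g i` from `axis`, `C = {c | (fun i => ind c i * g i) ∈ M}`. For `v ∈ M`: `Pi.single i (2 * v i) ∈ M`, so
  `2 v i = 2 n i g i` with an integer `n i`: `v i / g i = n i`. Let `c` be the odd support of `n`: `v - g ind c` is the sum
  of the vectors `Pi.single i (2 k i g i) ∈ M`, so `g ind c ∈ M`, `c ∈ C`. The converse in the same way. `Code C`:
  `ind (symmDiff c c')` and `ind c + ind c'` differ by a vector with coordinates `0, 2`.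
* `Til.sit`: `P' = {x / g | x ∈ P}`. All conditions except `box` are transported by the linear homeomorphism
  `x ↦ x / g` (`int`: `Til.int`). `box`: suppose `x ∈ P'`, `|x i| > 1`; WLOG (`unc`) `x i > 1`; moving `x` a little towards a point of
  `interior P'` we may assume `x ∈ interior P'` and `x i > 1` (`Convex.openSegment_interior_self_subset_interior`-like
  lemmas). `flp {i} x ∈ interior P'`. The vector `w = 2 e_i ∈ lat C`, `w ≠ 0`, and `x - w` is on the open segment between
  `flp {i} x` and `x` (coordinate `i`: `-x i < x i - 2 < x i`), so `x - w ∈ interior P'` (convex): contradiction to `disj`.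
-/

set_option autoImplicit false

open Set

namespace VorUnc

variable {d : ℕ} {P M : Set (Fin d → ℝ)}

theorem R12c_flp_flp (c : Finset (Fin d)) (x : Fin d → ℝ) : flp c (flp c x) = x := by
  funext i
  unfold flp
  by_cases h : i ∈ c <;> simp [h]

theorem R12c_flp_cont (c : Finset (Fin d)) : Continuous (flp c) := by
  refine continuous_pi fun i => ?_
  unfold flp
  by_cases h : i ∈ c
  · simp only [if_pos h]
    fun_prop
  · simp only [if_neg h]
    fun_prop

theorem R12c_flp_int {Q : Set (Fin d → ℝ)} (unc : ∀ x ∈ Q, ∀ c, flp c x ∈ Q)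
    (c : Finset (Fin d)) {y : Fin d → ℝ} (hy : y ∈ interior Q) : flp c y ∈ interior Q := by
  refine mem_interior.mpr ⟨flp c ⁻¹' interior Q, ?_, isOpen_interior.preimage (R12c_flp_cont c),
    ?_⟩
  · intro z hz
    have h1 := unc _ (interior_subset hz) c
    rwa [R12c_flp_flp] at h1
  · show flp c (flp c y) ∈ interior Q
    rwa [R12c_flp_flp]

/-- the box condition -/
theorem R12c_box {Q : Set (Fin d → ℝ)} {C : Set (Finset (Fin d))} (hC : Code C)
    (hconv : Convex ℝ Q) (hint : (interior Q).Nonempty) (unc : ∀ x ∈ Q, ∀ c, flp c x ∈ Q)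
    (disj : ∀ v ∈ lat C, v ≠ 0 → ∀ x ∈ interior Q, x - v ∉ interior Q) :
    ∀ x ∈ Q, ∀ i, |x i| ≤ 1 := by
  have key : ∀ x ∈ Q, ∀ i, x i ≤ 1 := by
    intro x hx i
    by_contra hlt
    push Not at hlt
    obtain ⟨p, hp⟩ := hint
    obtain ⟨y, hy, hyi⟩ : ∃ y ∈ interior Q, 1 < y i := by
      have h1 : Continuous (fun t : ℝ => (x + t • (p - x)) i) := by
        show Continuous (fun t : ℝ => x i + t * (p i - x i))
        fun_prop
      have h2 : ∀ᶠ t in nhdsWithin (0 : ℝ) (Ioi 0), 1 < (x + t • (p - x)) i := by
        have h3 : Filter.Tendsto (fun t : ℝ => (x + t • (p - x)) i) (nhds 0) (nhds (x i)) := by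
          have h4 := h1.tendsto 0
          simpa using h4
        exact (h3.mono_left nhdsWithin_le_nhds).eventually_const_lt hlt
      have h3 : ∀ᶠ t in nhdsWithin (0 : ℝ) (Ioi 0), t ∈ Ioc (0 : ℝ) 1 :=
        Ioc_mem_nhdsGT one_pos
      obtain ⟨t, ht1, ht2⟩ := (h2.and h3).exists
      exact ⟨_, hconv.add_smul_sub_mem_interior hx hp ht2, ht1⟩
    have hy' := R12c_flp_int unc {i} hy
    have hy0 : 0 < y i := by linarith
    -- the lattice vector
    have hw : (fun j => if j = i then (2 : ℝ) else 0) ∈ lat C := by
      refine ⟨fun j => if j = i then 2 else 0, fun j => ?_, ?_⟩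
      · by_cases h : j = i <;> simp [h]
      · have h1 : (Finset.univ.filter fun j : Fin d => Odd ((if j = i then 2 else 0 : ℤ))) = ∅ := by
          rw [Finset.filter_eq_empty_iff]
          intro j _
          by_cases h : j = i
          · rw [if_pos h]
            decide
          · rw [if_neg h]
            decide
        rw [h1]
        exact hC.empty
    have hw0 : (fun j => if j = i then (2 : ℝ) else 0) ≠ 0 := by
      intro h
      have := congrFun h i
      simp at this
    refine disj _ hw hw0 y hy ?_
    have h1 : y - (fun j => if j = i then (2 : ℝ) else 0) =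
        (1 - 1 / y i) • y + (1 / y i) • flp {i} y := by
      funext j
      simp only [Pi.sub_apply, Pi.add_apply, Pi.smul_apply, smul_eq_mul, flp,
        Finset.mem_singleton]
      by_cases h : j = i
      · subst h
        rw [if_pos rfl, if_pos rfl]
        field_simp
        ring
      · rw [if_neg h, if_neg h]
        ring
    rw [h1]
    refine hconv.interior hy hy' ?_ (by positivity) (by ring)
    rw [sub_nonneg, div_le_one hy0]
    exact hyi.le
  intro x hx i
  rw [abs_le]
  refine ⟨?_, key x hx i⟩
  have h1 := key _ (unc x hx {i}) i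
  have h2 : flp {i} x i = -x i := by simp [flp]
  rw [h2] at h1
  linarith

theorem Til.sit (h : Til P M) (unc : ∀ x ∈ P, ∀ c, flp c x ∈ P) {g : Fin d → ℝ}
    {C : Set (Finset (Fin d))} (hg : ∀ i, 0 < g i) (hC : Code C)
    (hM : ∀ v : Fin d → ℝ, v ∈ M ↔ (fun i => v i / g i) ∈ lat C) :
    Sit ((fun x i => x i / g i) '' P) C := by
  classical
  obtain ⟨L, hL⟩ : ∃ L : (Fin d → ℝ) ≃L[ℝ] (Fin d → ℝ), ∀ x i, L x i = x i / g i := by
    refine ⟨{ toFun := fun x i => x i / g i
              invFun := fun x i => x i * g i
              map_add' := fun x y => by funext i; simp [add_div]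
              map_smul' := fun t x => by funext i; simp [mul_div_assoc]
              left_inv := fun x => by
                funext i
                have := (hg i).ne'
                field_simp
              right_inv := fun x => by
                funext i
                have := (hg i).ne'
                field_simp
              continuous_toFun := by
                show Continuous (fun (x : Fin d → ℝ) i => x i / g i)
                fun_prop
              continuous_invFun := by
                show Continuous (fun (x : Fin d → ℝ) i => x i * g i)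
                fun_prop }, fun x i => rfl⟩
  have hLf : (fun (x : Fin d → ℝ) i => x i / g i) = L := by
    funext x i
    exact (hL x i).symm
  rw [hLf]
  have hM' : ∀ v, v ∈ lat C ↔ L.symm v ∈ M := by
    intro v
    rw [hM]
    have h1 : (fun i => L.symm v i / g i) = v := by
      funext i
      rw [← hL, L.apply_symm_apply]
    rw [h1]
  have hflp : ∀ c x, L (flp c x) = flp c (L x) := by
    intro c x
    funext i
    rw [hL]
    unfold flp
    by_cases h1 : i ∈ c
    · rw [if_pos h1, if_pos h1, hL, neg_div]
    · rw [if_neg h1, if_neg h1, hL]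
  have hconv : Convex ℝ (L '' P) := h.conv.linear_image (L : (Fin d → ℝ) →ₗ[ℝ] (Fin d → ℝ))
  have himg : interior (L '' P) = L '' interior P := (L.toHomeomorph.image_interior P).symm
  have hint : (interior (L '' P)).Nonempty := by
    rw [himg]
    exact h.int.image L
  have hunc : ∀ x ∈ L '' P, ∀ c, flp c x ∈ L '' P := by
    rintro _ ⟨x, hx, rfl⟩ c
    exact ⟨flp c x, unc x hx c, hflp c x⟩
  have hmem : ∀ y, y ∈ L '' P ↔ L.symm y ∈ P := by
    intro y
    constructor
    · rintro ⟨x, hx, rfl⟩
      rwa [L.symm_apply_apply]
    · intro hy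
      exact ⟨L.symm y, hy, L.apply_symm_apply y⟩
  have hmemi : ∀ y, y ∈ interior (L '' P) ↔ L.symm y ∈ interior P := by
    intro y
    rw [himg]
    constructor
    · rintro ⟨x, hx, rfl⟩
      rwa [L.symm_apply_apply]
    · intro hy
      exact ⟨L.symm y, hy, L.apply_symm_apply y⟩
  have hdisj : ∀ v ∈ lat C, v ≠ 0 → ∀ x ∈ interior (L '' P), x - v ∉ interior (L '' P) := by
    intro v hv hv0 x hx hxv
    rw [hmemi] at hx hxv
    rw [map_sub] at hxv
    refine h.disj (L.symm v) ((hM' v).mp hv) ?_ _ hx hxv
    intro h1
    exact hv0 ((map_eq_zero_iff L.symm L.symm.injective).mp h1)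
  exact
    { code := hC
      conv := hconv
      comp := h.comp.image L.continuous
      int := hint
      unc := hunc
      box := R12c_box hC hconv hint hunc hdisj
      cover := by
        intro x
        obtain ⟨v, hv, hxv⟩ := h.cover (L.symm x)
        refine ⟨L v, (hM' _).mpr (by rwa [L.symm_apply_apply]), ?_⟩
        rw [hmem, map_sub, L.symm_apply_apply]
        exact hxv
      disj := hdisj
      ext := by
        intro v hv x hx y hy z hz hzv
        rw [hmem] at hx hy hzv ⊢
        rw [map_sub] at hzv ⊢
        refine h.ext (L.symm v) ((hM' v).mp hv) _ hx _ hy (L.symm z) ?_ hzv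
        obtain ⟨a, b, ha, hb, hab, rfl⟩ := hz
        exact ⟨a, b, ha, hb, hab, by rw [map_add, map_smul, map_smul]⟩ }

end VorUnc
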