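import Pool.Agent.Lib.MP_467880_co.R04a
import Pool.Agent.Lib.MP_467880_co.R04b
import Pool.Agent.Lib.MP_467880_co.R05b
import Pool.Agent.Lib.MP_467880_co.R08
import Pool.Agent.Lib.MP_467880_co.R09b
import Pool.Agent.Lib.MP_467880_co.R12b
import Pool.Agent.Lib.MP_467880_co.R12c

/-!
# The main theorem in coordinates
-/

set_option autoImplicit false

open Set

namespace VorUnc

variable {d : ℕ} {P M : Set (Fin d → ℝ)}

theorem Til.main (h : Til P M) (unc : ∀ x ∈ P, ∀ c, flp c x ∈ P) :
    ∃ w : Fin d → ℝ, (∀ i, 0 < w i) ∧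
      P = {x | ∀ v ∈ M, ∑ i, w i * x i ^ 2 ≤ ∑ i, w i * (x i - v i) ^ 2} := by
  obtain ⟨g, C, hg, hC, hM⟩ := h.exists_scale unc
  have S := h.sit unc hg hC hM
  obtain ⟨m, hm⟩ := S.exists_sep
  have pos : ∀ c, Circ C c → ∀ i ∈ c, 0 < m c i := fun c hc i hi => S.circ_pos hm hc hi
  have good : ∀ A B D, Theta C A B D → Good m A B D := fun A B D hT =>
    theta_good hm.supp pos (fun s y => S.cov hm s y) hT
  obtain ⟨l, hl, hlc⟩ := exists_weights hC pos good
  have hle : ∀ c, Circ C c → ∀ x ∈ (fun x i => x i / g i) '' P,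
      ∑ i ∈ c, l i * x i ≤ (∑ i ∈ c, l i) / 2 := by
    intro c hc x hx
    obtain ⟨a, ha, hac⟩ := hlc c hc
    have h1 := hm.le c hc.1 hc.2.1 x hx
    have h2 : ∑ i, m c i * x i = a * ∑ i ∈ c, l i * x i := by
      rw [Finset.mul_sum, ← Finset.sum_subset (Finset.subset_univ c)]
      · exact Finset.sum_congr rfl fun i hi => by rw [hac i hi]; ring
      · intro i _ hi
        rw [hm.supp c hc.1 hc.2.1 i hi, zero_mul]
    have h3 : ∑ i, m c i = a * ∑ i ∈ c, l i := by
      rw [Finset.mul_sum, ← Finset.sum_subset (Finset.subset_univ c)]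
      · exact Finset.sum_congr rfl fun i hi => by rw [hac i hi]
      · intro i _ hi
        rw [hm.supp c hc.1 hc.2.1 i hi]
    rw [h2, h3] at h1
    have h4 : a * (∑ i ∈ c, l i * x i) ≤ a * ((∑ i ∈ c, l i) / 2) := by linarith
    exact le_of_mul_le_mul_left h4 ha
  have hV := S.eq_vor hl hle
  refine ⟨fun i => l i / g i ^ 2, fun i => div_pos (hl i) (pow_pos (hg i) 2), ?_⟩
  have hinj : ∀ x : Fin d → ℝ, x ∈ P ↔ (fun i => x i / g i) ∈ (fun x i => x i / g i) '' P := by
    intro x
    constructor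
    · exact fun hx => ⟨x, hx, rfl⟩
    · rintro ⟨y, hy, hyx⟩
      have : y = x := by
        funext i
        have h1 := congrFun hyx i
        simp only at h1
        exact (div_left_inj' (hg i).ne').1 h1
      rwa [← this]
  ext x
  rw [hinj x, hV]
  simp only [Set.mem_ofPred_eq]
  have e1 : ∑ i, l i * (x i / g i) ^ 2 = ∑ i, l i / g i ^ 2 * x i ^ 2 :=
    Finset.sum_congr rfl fun i _ => by rw [div_pow]; ring
  have e2 : ∀ v : Fin d → ℝ, ∑ i, l i * (x i / g i - v i / g i) ^ 2 =
      ∑ i, l i / g i ^ 2 * (x i - v i) ^ 2 := fun v =>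
    Finset.sum_congr rfl fun i _ => by rw [← sub_div, div_pow]; ring
  constructor
  · intro hx v hv
    have := hx _ ((hM v).1 hv)
    rwa [e1, e2] at this
  · intro hx v hv
    have h5 : (fun i => v i * g i) ∈ M := by
      rw [hM]
      have : (fun i => v i * g i / g i) = v := by
        funext i
        exact mul_div_cancel_right₀ _ (hg i).ne'
      rw [this]
      exact hv
    have h6 := hx _ h5
    rw [← e1, ← e2] at h6
    have h7 : ∀ i, v i * g i / g i = v i := fun i => mul_div_cancel_right₀ _ (hg i).ne'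
    simpa only [h7] using h6

end VorUnc
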