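import Pool.Agent.Lib.MP_467880_co.Defs

/-!
# R01 (R01a = ind_mem_lat, lat_fin, mono; R01b = hf_mem, hf_sub_mem, tile_at): first consequences

* `ind_mem_lat`: take `n i = if i ∈ c then 1 else 0`; its odd support is `c`.
* `lat_fin`: the vectors of `lat C` with sup norm `≤ R` are integer vectors in a box, finitely many
  (image of the finite set `Fintype.piFinset fun _ => Finset.Icc (-⌈R⌉) ⌈R⌉` under the cast).
* `Sit.mono`: the set `P` is unconditional and convex. If `y` differs from `x ∈ P` only in the coordinate `i`
  and `|y i| ≤ |x i|` then `y` lies on the segment from `x` to `flp {i} x`, so `y ∈ P`. Change the coordinates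
  one after the other: induction over a Finset `s`, statement: the vector equal to `y` on `s` and to `x` off `s`
  (`s.piecewise y x`) is in `P`; at the end `s = univ`.
* `Sit.hf_mem`: the point `h = hf univ` lies in some tile: `h - v ∈ P` with `v ∈ lat C`, an integer vector. So
  `|1/2 - v i| ≥ 1/2` for all `i`, and `hf S` has coordinates at most `1/2` in absolute value: `Sit.mono`.
* `Sit.hf_sub_mem`: `hf S - ind c` has coordinates `± 1/2` on `S` and `0` off `S`: `Sit.mono` from `hf S`.
* `Sit.tile_at`: `hf S - v ∈ P`, `v i = n i` integer. For `i ∈ S`: `|1/2 - v i| ≤ 1` (`box`), so `v i ∈ {0, 1}`.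
  For `i ∉ S`: the points `hf S ± (1/2) e_i` are in `P` (`Sit.mono` from `hf (insert i S)`), their midpoint is
  `hf S`, `hf S - v ∈ P`, so by `ext` (for both end points, the open segment is symmetric:
  `openSegment_symm`) `hf S ± (1/2) e_i - v ∈ P`, hence `|± 1/2 - v i| ≤ 1` (`box`), so `|v i| ≤ 1/2`, `v i = 0`.
  So `v = ind c` for `c = {i | v i = 1}`, `c ⊆ S`, and `c` is the odd support of `n`, so `c ∈ C`.
-/

set_option autoImplicit false

open Set

namespace VorUnc

variable {d : ℕ} {P : Set (Fin d → ℝ)} {C : Set (Finset (Fin d))}

theorem ind_mem_lat {c : Finset (Fin d)} (hc : c ∈ C) : ind c ∈ lat C := by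
  refine ⟨fun i => if i ∈ c then 1 else 0, fun i => ?_, ?_⟩
  · unfold ind
    by_cases h : i ∈ c
    · simp [h]
    · simp [h]
  · have h : (Finset.univ.filter fun i : Fin d => Odd (if i ∈ c then (1 : ℤ) else 0)) = c := by
      ext i
      simp only [Finset.mem_filter, Finset.mem_univ, true_and]
      by_cases h : i ∈ c
      · simp [h]
      · simp [h]
    rw [h]
    exact hc

theorem lat_fin (C : Set (Finset (Fin d))) (R : ℝ) : {v | v ∈ lat C ∧ ‖v‖ ≤ R}.Finite := by
  refine ((Finset.finite_toSet (Fintype.piFinset fun _ : Fin d => Finset.Icc (-⌈R⌉) ⌈R⌉)).image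
    (fun n : Fin d → ℤ => fun i => (n i : ℝ))).subset ?_
  rintro v ⟨⟨n, hn, _⟩, hv⟩
  refine ⟨n, ?_, ?_⟩
  · rw [Finset.mem_coe, Fintype.mem_piFinset]
    intro i
    have h1 : |(n i : ℝ)| ≤ (⌈R⌉ : ℝ) := by
      rw [← hn i]
      exact ((norm_le_pi_norm v i).trans hv).trans (Int.le_ceil R)
    have h2 : |n i| ≤ ⌈R⌉ := by exact_mod_cast h1
    rw [Finset.mem_Icc]
    exact abs_le.1 h2
  · funext i
    exact (hn i).symm

theorem Sit.mono (h : Sit P C) {x y : Fin d → ℝ} (hx : x ∈ P) (hy : ∀ i, |y i| ≤ |x i|) :
    y ∈ P := by
  have key : ∀ s : Finset (Fin d), (fun i => if i ∈ s then y i else x i) ∈ P := by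
    intro s
    induction s using Finset.induction_on with
    | empty =>
      have : (fun i => if i ∈ (∅ : Finset (Fin d)) then y i else x i) = x := by
        funext i
        simp
      rw [this]
      exact hx
    | insert a s ha ih =>
      set z : Fin d → ℝ := fun i => if i ∈ s then y i else x i with hz
      have hza : z a = x a := by
        simp only [hz, if_neg ha]
      by_cases hxa : x a = 0
      · have hya : y a = 0 := by
          have := hy a
          rw [hxa, abs_zero] at this
          exact abs_eq_zero.1 (le_antisymm this (abs_nonneg _))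
        have : (fun i => if i ∈ insert a s then y i else x i) = z := by
          funext i
          by_cases hi : i = a
          · subst hi
            simp only [Finset.mem_insert_self, if_true, hza, hxa, hya]
          · simp only [hz, Finset.mem_insert, hi, false_or]
        rw [this]
        exact ih
      · set t : ℝ := y a / x a with ht
        have ht1 : |t| ≤ 1 := by
          rw [ht, abs_div, div_le_one (abs_pos.2 hxa)]
          exact hy a
        have ht2 := abs_le.1 ht1
        have hta : t * x a = y a := by
          rw [ht, div_mul_cancel₀ _ hxa]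
        have hf := h.unc z ih {a}
        have hc := h.conv ih hf (a := (1 + t) / 2) (b := (1 - t) / 2) (by linarith) (by linarith) (by ring)
        have : (fun i => if i ∈ insert a s then y i else x i) = ((1 + t) / 2) • z + ((1 - t) / 2) • flp {a} z := by
          funext i
          simp only [Pi.add_apply, Pi.smul_apply, smul_eq_mul, flp, Finset.mem_singleton, Finset.mem_insert]
          by_cases hi : i = a
          · subst hi
            simp only [true_or, if_true, hza]
            linear_combination -hta
          · simp only [hi, false_or, if_false, hz]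
            ring
        rw [this]
        exact hc
  have h1 := key Finset.univ
  have h2 : (fun i => if i ∈ (Finset.univ : Finset (Fin d)) then y i else x i) = y := by
    funext i
    simp
  rw [h2] at h1
  exact h1

end VorUnc
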