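import Pool.Agent.Lib.MP_467880_co.R01a

/-!
# R01 (R01a = ind_mem_lat, lat_fin, mono; R01b = hf_mem, hf_sub_mem, tile_at): first consequences

* `ind_mem_lat`: take `n i = if i ∈ c then 1 else 0`; its odd support is `c`.
* `lat_fin`: the vectors of `lat C` with sup norm `≤ R` are integer vectors in a box, finitely many
  (image of the finite set `Fintype.piFinset fun _ => Finset.Icc (-⌈R⌉) ⌈R⌉` under the cast).
* `Sit.mono`: the set `P` is unconditional and convex. If `y` differs from `x ∈ P` only in the coordinate `i`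
  and `|y i| ≤ |x i|` then `y` lies on the segment from `x` to `flp {i} x`, so `y ∈ P`. Change the coordinates
  one after the other: induction over a Finset `s`, statement: the vector equal to `y` on `s` and to `x` off `s`
  (`s.piecewise y x`) is in `P`; at the end `s = univ`.
* `Sit.hf_mem`: the point `h = hf univ` lies in some tile: `h - v ∈ P` with `v ∈ lat C`, an integer vector. So
  `|1/2 - v i| ≥ 1/2` for all `i`, and `hf S` has coordinates at most `1/2` in absolute value: `Sit.mono`.
* `Sit.hf_sub_mem`: `hf S - ind c` has coordinates `± 1/2` on `S` and `0` off `S`: `Sit.mono` from `hf S`.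
* `Sit.tile_at`: `hf S - v ∈ P`, `v i = n i` integer. For `i ∈ S`: `|1/2 - v i| ≤ 1` (`box`), so `v i ∈ {0, 1}`.
  For `i ∉ S`: the points `hf S ± (1/2) e_i` are in `P` (`Sit.mono` from `hf (insert i S)`), their midpoint is
  `hf S`, `hf S - v ∈ P`, so by `ext` (for both end points, the open segment is symmetric:
  `openSegment_symm`) `hf S ± (1/2) e_i - v ∈ P`, hence `|± 1/2 - v i| ≤ 1` (`box`), so `|v i| ≤ 1/2`, `v i = 0`.
  So `v = ind c` for `c = {i | v i = 1}`, `c ⊆ S`, and `c` is the odd support of `n`, so `c ∈ C`.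
-/

set_option autoImplicit false

open Set

namespace VorUnc

variable {d : ℕ} {P : Set (Fin d → ℝ)} {C : Set (Finset (Fin d))}

private theorem R01b_half (n : ℤ) : (1:ℝ)/2 ≤ |1/2 - (n:ℝ)| := by
  rcases le_or_gt n 0 with h | h
  · have : (n:ℝ) ≤ 0 := by exact_mod_cast h
    rw [abs_of_nonneg (by linarith)]
    linarith
  · have : (1:ℝ) ≤ n := by exact_mod_cast h
    rw [abs_of_nonpos (by linarith)]
    linarith

theorem Sit.hf_mem (h : Sit P C) (S : Finset (Fin d)) : hf S ∈ P := by
  obtain ⟨v, ⟨n, hn, _⟩, hv⟩ := h.cover (hf Finset.univ)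
  refine h.mono hv fun i => ?_
  have e : ((hf Finset.univ - v : Fin d → ℝ)) i = 1/2 - (n i : ℝ) := by
    rw [Pi.sub_apply, hn i]
    simp [hf]
  rw [e]
  refine le_trans ?_ (R01b_half (n i))
  unfold hf
  split_ifs
  · rw [abs_of_nonneg (by norm_num)]
  · rw [abs_zero]; norm_num

theorem Sit.hf_sub_mem (h : Sit P C) {c S : Finset (Fin d)} (hc : c ⊆ S) : hf S - ind c ∈ P := by
  refine h.mono (h.hf_mem S) fun i => ?_
  rw [Pi.sub_apply]
  unfold hf ind
  by_cases hS : i ∈ S
  · by_cases hi : i ∈ c
    · rw [if_pos hS, if_pos hi]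
      norm_num
    · rw [if_pos hS, if_neg hi]
      norm_num
  · have hi : i ∉ c := fun hh => hS (hc hh)
    rw [if_neg hS, if_neg hi]
    norm_num

private theorem R01b_pm (h : Sit P C) (S : Finset (Fin d)) (i : Fin d) (hi : i ∉ S) (a : ℝ)
    (ha : |a| ≤ 1/2) : hf S + Pi.single i a ∈ P := by
  refine h.mono (h.hf_mem (insert i S)) fun j => ?_
  rw [Pi.add_apply]
  by_cases hj : j = i
  · subst hj
    have e1 : hf S j = 0 := by simp [hf, hi]
    have e2 : hf (insert j S) j = 1/2 := by simp [hf]
    rw [e1, e2, Pi.single_eq_same, zero_add]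
    refine le_trans ha (le_abs_self _)
  · have e1 : hf (insert i S) j = hf S j := by
      unfold hf
      simp only [Finset.mem_insert, hj, false_or]
    rw [e1, Pi.single_eq_of_ne hj, add_zero]

private theorem R01b_mid (z e : Fin d → ℝ) : z ∈ openSegment ℝ (z + e) (z - e) := by
  refine ⟨1/2, 1/2, by norm_num, by norm_num, by norm_num, ?_⟩
  funext j
  simp only [Pi.add_apply, Pi.smul_apply, Pi.sub_apply, smul_eq_mul]
  ring

theorem Sit.tile_at (h : Sit P C) {S : Finset (Fin d)} {v : Fin d → ℝ} (hv : v ∈ lat C)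
    (hm : hf S - v ∈ P) : ∃ c ∈ C, c ⊆ S ∧ v = ind c := by
  classical
  have hvl := hv
  obtain ⟨n, hn, hodd⟩ := hv
  have hS : ∀ i ∈ S, n i = 0 ∨ n i = 1 := by
    intro i hi
    have hb := h.box _ hm i
    have e : (hf S - v) i = 1/2 - (n i : ℝ) := by simp [hf, hi, hn]
    rw [e, abs_le] at hb
    have h1 : (n i : ℝ) < 2 := by linarith
    have h2 : (-1 : ℝ) < n i := by linarith
    have h1' : n i < 2 := by exact_mod_cast h1
    have h2' : -1 < n i := by exact_mod_cast h2
    omega
  have hN : ∀ i, i ∉ S → n i = 0 := by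
    intro i hi
    have hx : hf S + Pi.single i (1/2 : ℝ) ∈ P :=
      R01b_pm h S i hi (1/2) (by rw [abs_of_nonneg (by norm_num)])
    have hy : hf S - Pi.single i (1/2 : ℝ) ∈ P := by
      have := R01b_pm h S i hi (-(1/2)) (by rw [abs_neg, abs_of_nonneg (by norm_num)])
      rwa [Pi.single_neg, ← sub_eq_add_neg] at this
    have hz := R01b_mid (hf S) (Pi.single i (1/2 : ℝ))
    have p1 := h.ext v hvl _ hx _ hy _ hz hm
    have p2 := h.ext v hvl _ hy _ hx _ (by rw [openSegment_symm]; exact hz) hm
    have b1 := h.box _ p1 i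
    have b2 := h.box _ p2 i
    have e1 : (hf S + Pi.single i (1/2 : ℝ) - v : Fin d → ℝ) i = 1/2 - (n i : ℝ) := by
      simp [hf, hi, hn]
    have e2 : (hf S - Pi.single i (1/2 : ℝ) - v : Fin d → ℝ) i = -(1/2) - (n i : ℝ) := by
      simp [hf, hi, hn]
    rw [e1, abs_le] at b1
    rw [e2, abs_le] at b2
    have h1 : (n i : ℝ) < 1 := by linarith
    have h2 : (-1 : ℝ) < n i := by linarith
    have h1' : n i < 1 := by exact_mod_cast h1
    have h2' : -1 < n i := by exact_mod_cast h2
    omega
  have hall : ∀ i, n i = 0 ∨ n i = 1 := by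
    intro i
    by_cases hi : i ∈ S
    · exact hS i hi
    · exact Or.inl (hN i hi)
  refine ⟨Finset.univ.filter fun i => Odd (n i), hodd, ?_, ?_⟩
  · intro i hi
    rw [Finset.mem_filter] at hi
    by_contra hh
    rw [hN i hh] at hi
    exact absurd hi.2 (by decide)
  · funext i
    rw [hn i]
    unfold ind
    rcases hall i with h0 | h0
    · rw [if_neg, h0, Int.cast_zero]
      rw [Finset.mem_filter, h0]
      exact fun hh => absurd hh.2 (by decide)
    · rw [if_pos, h0, Int.cast_one]
      rw [Finset.mem_filter, h0]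
      exact ⟨Finset.mem_univ _, by decide⟩

end VorUnc
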