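import Pool.Agent.Lib.MP_467880_co.R01b

/-!
# R02: separating functionals

Let `c ∈ C`, `c ≠ ∅`, `v = ind c ∈ lat C`, `v ≠ 0`. The open convex sets `interior P` and `{x | x - v ∈ interior P}`
are disjoint (`disj`) and nonempty. `geometric_hahn_banach_open_open`: a continuous linear `f` and `u` with `f a < u` on the
first and `u < f b` on the second set. `P ⊆ closure (interior P)`
(`Convex.closure_interior_eq_closure_of_nonempty_interior`), so `f x ≤ u` for `x ∈ P` and `u ≤ f (x + v)` for `x ∈ P`. With
`-x ∈ P` (`unc` for `c = univ`): `u ≤ f v - f x`. So `2 f x ≤ f v` for all `x ∈ P`.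
Let `m i = f (Pi.single i 1)`, so `f x = ∑ m i * x i` (`LinearMap.pi_apply_eq_sum_univ` or
`pi_eq_sum_univ`), `f v = ∑ i ∈ c, m i`.
* `i ∈ c`: the point `flp {i} (hf c) ∈ P` has `2 f = f v - 2 m i`, so `m i ≥ 0`.
* `i ∉ c`: `hf (insert i c)` and `flp {i} (hf (insert i c))` are in `P`, `2 f = f v ± m i`, so `m i = 0`.
* so `f v = ∑ i, m i`, and `m` is not zero since `f a < u < f b` for some `a, b`; a nonnegative nonzero vector has positive
  sum.
`exists_sep`: choose `m c` for every such `c` (and `0` for the other `c`).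
-/

set_option autoImplicit false

open Set

namespace VorUnc

variable {d : ℕ} {P : Set (Fin d → ℝ)} {C : Set (Finset (Fin d))}

theorem r02_apply (f : (Fin d → ℝ) →L[ℝ] ℝ) (x : Fin d → ℝ) :
    f x = ∑ i, f (Pi.single i 1) * x i := by
  classical
  have h1 : x = ∑ i, x i • (Pi.single i (1:ℝ) : Fin d → ℝ) := by
    rw [← Finset.univ_sum_single x]
    refine Finset.sum_congr rfl fun i _ => ?_
    rw [Finset.univ_sum_single]
    funext j
    by_cases hj : j = i
    · subst hj
      simp
    · simp [hj]
  conv_lhs => rw [h1]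
  rw [map_sum]
  refine Finset.sum_congr rfl fun i _ => ?_
  rw [map_smul, smul_eq_mul, mul_comm]

theorem Sit.sep (h : Sit P C) {c : Finset (Fin d)} (hc : c ∈ C) (hc' : c ≠ ∅) :
    ∃ m : Fin d → ℝ, (∀ i, 0 ≤ m i) ∧ (∀ i, i ∉ c → m i = 0) ∧ 0 < ∑ i, m i ∧
      ∀ x ∈ P, ∑ i, m i * x i ≤ (∑ i, m i) / 2 := by
  classical
  obtain ⟨v, hvdef⟩ : ∃ v : Fin d → ℝ, v = ind c := ⟨_, rfl⟩
  have hv : v ∈ lat C := by rw [hvdef]; exact ind_mem_lat hc
  have hv0 : v ≠ 0 := by
    obtain ⟨i, hi⟩ := Finset.nonempty_iff_ne_empty.2 hc'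
    intro h0
    have h1 : v i = 1 := by rw [hvdef]; simp [ind, hi]
    rw [h0] at h1
    simp at h1
  have ht1 : Convex ℝ ((fun x => x + -v) ⁻¹' interior P) :=
    h.conv.interior.translate_preimage_left (-v)
  have ht2 : IsOpen ((fun x => x + -v) ⁻¹' interior P) :=
    isOpen_interior.preimage (continuous_id.add continuous_const)
  have hdis : Disjoint (interior P) ((fun x => x + -v) ⁻¹' interior P) := by
    rw [disjoint_left]
    intro x hx hx'
    refine h.disj v hv hv0 x hx ?_
    rw [sub_eq_add_neg]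
    exact hx'
  obtain ⟨f, u, hf1, hf2⟩ :=
    geometric_hahn_banach_open_open h.conv.interior isOpen_interior ht1 ht2 hdis
  have hsub : P ⊆ closure (interior P) := by
    rw [h.conv.closure_interior_eq_closure_of_nonempty_interior h.int]
    exact subset_closure
  have hle : ∀ x ∈ P, f x ≤ u := by
    intro x hx
    have h1 : closure (interior P) ⊆ {x | f x ≤ u} :=
      closure_minimal (fun y hy => (hf1 y hy).le) (isClosed_le f.continuous continuous_const)
    exact h1 (hsub hx)
  have hge : ∀ x ∈ P, u ≤ f x + f v := by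
    intro x hx
    have h1 : closure (interior P) ⊆ {x | u ≤ f x + f v} := by
      refine closure_minimal (fun y hy => ?_)
        (isClosed_le continuous_const (f.continuous.add continuous_const))
      have h2 : y + v ∈ (fun x => x + -v) ⁻¹' interior P := by
        show y + v + -v ∈ interior P
        rwa [add_neg_cancel_right]
      have h3 := (hf2 _ h2).le
      rw [map_add] at h3
      exact h3
    exact h1 (hsub hx)
  have key : ∀ x ∈ P, 2 * f x ≤ f v := by
    intro x hx
    have h1 : -x ∈ P := by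
      have h2 := h.unc x hx Finset.univ
      have h3 : flp Finset.univ x = -x := by
        funext i
        simp [flp]
      rwa [h3] at h2
    have h4 := hge _ h1
    rw [map_neg] at h4
    have h5 := hle x hx
    linarith
  obtain ⟨m, hm⟩ : ∃ m : Fin d → ℝ, m = fun i => f (Pi.single i 1) := ⟨_, rfl⟩
  have hfx : ∀ x, f x = ∑ i, m i * x i := by
    intro x
    rw [hm]
    exact r02_apply f x
  have hdiff : ∀ x, 2 * f x - f v = ∑ i, m i * (2 * x i - v i) := by
    intro x
    rw [hfx, hfx, Finset.mul_sum, ← Finset.sum_sub_distrib]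
    exact Finset.sum_congr rfl fun i _ => by ring
  have hneg : ∀ i, i ∈ c → 0 ≤ m i := by
    intro i hi
    have h1 := key _ (h.unc _ (h.hf_mem c) {i})
    have h2 := hdiff (flp {i} (hf c))
    rw [Finset.sum_eq_single i] at h2
    · have h3 : flp {i} (hf c) i = -(1 / 2) := by simp [flp, hf, hi]
      have h4 : v i = 1 := by rw [hvdef]; simp [ind, hi]
      rw [h3, h4] at h2
      linarith
    · intro j _ hj
      have h3 : 2 * flp {i} (hf c) j - v j = 0 := by
        rw [hvdef]
        by_cases hjc : j ∈ c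
        · simp [flp, hf, ind, hj, hjc]
        · simp [flp, hf, ind, hj, hjc]
      rw [h3, mul_zero]
    · intro hi'
      exact absurd (Finset.mem_univ i) hi'
  have hzero : ∀ i, i ∉ c → m i = 0 := by
    intro i hi
    have hw := h.hf_mem (insert i c)
    have h1 := key _ hw
    have h1' := key _ (h.unc _ hw {i})
    have h2 := hdiff (hf (insert i c))
    have h2' := hdiff (flp {i} (hf (insert i c)))
    have h4 : v i = 0 := by rw [hvdef]; simp [ind, hi]
    rw [Finset.sum_eq_single i] at h2
    · rw [Finset.sum_eq_single i] at h2'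
      · have h3 : hf (insert i c) i = 1 / 2 := by simp [hf]
        have h3' : flp {i} (hf (insert i c)) i = -(1 / 2) := by simp [flp, hf]
        rw [h3, h4] at h2
        rw [h3', h4] at h2'
        linarith
      · intro j _ hj
        have h3 : 2 * flp {i} (hf (insert i c)) j - v j = 0 := by
          rw [hvdef]
          by_cases hjc : j ∈ c
          · simp [flp, hf, ind, hj, hjc]
          · simp [flp, hf, ind, hj, hjc]
        rw [h3, mul_zero]
      · intro hi'
        exact absurd (Finset.mem_univ i) hi'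
    · intro j _ hj
      have h3 : 2 * hf (insert i c) j - v j = 0 := by
        rw [hvdef]
        by_cases hjc : j ∈ c
        · simp [hf, ind, hjc]
        · simp [hf, ind, hj, hjc]
      rw [h3, mul_zero]
    · intro hi'
      exact absurd (Finset.mem_univ i) hi'
  have hfv : f v = ∑ i, m i := by
    rw [hfx]
    refine Finset.sum_congr rfl fun i _ => ?_
    by_cases hi : i ∈ c
    · rw [hvdef]
      simp [ind, hi]
    · rw [hzero i hi, zero_mul]
  refine ⟨m, fun i => ?_, hzero, ?_, fun x hx => ?_⟩
  · by_cases hi : i ∈ c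
    · exact hneg i hi
    · exact (hzero i hi).ge
  · obtain ⟨a, ha⟩ := h.int
    rw [← hfv]
    have h1 := hf1 a ha
    have h2 : a + v ∈ (fun x => x + -v) ⁻¹' interior P := by
      show a + v + -v ∈ interior P
      rwa [add_neg_cancel_right]
    have h3 := hf2 _ h2
    rw [map_add] at h3
    linarith
  · rw [← hfx, ← hfv]
    have := key x hx
    linarith

theorem Sit.exists_sep (h : Sit P C) : ∃ m : Finset (Fin d) → Fin d → ℝ, IsSep P C m := by
  classical
  have h1 : ∀ c : Finset (Fin d), ∃ m : Fin d → ℝ, c ∈ C → c ≠ ∅ →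
      (∀ i, 0 ≤ m i) ∧ (∀ i, i ∉ c → m i = 0) ∧ 0 < ∑ i, m i ∧
      ∀ x ∈ P, ∑ i, m i * x i ≤ (∑ i, m i) / 2 := by
    intro c
    by_cases hc : c ∈ C ∧ c ≠ ∅
    · obtain ⟨m, hm⟩ := h.sep hc.1 hc.2
      exact ⟨m, fun _ _ => hm⟩
    · exact ⟨0, fun h1 h2 => absurd ⟨h1, h2⟩ hc⟩
  choose m hm using h1
  exact ⟨m, ⟨fun c hc hc' => (hm c hc hc').1, fun c hc hc' => (hm c hc hc').2.1,
    fun c hc hc' => (hm c hc hc').2.2.1, fun c hc hc' => (hm c hc hc').2.2.2⟩⟩

end VorUnc
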