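import Pool.Agent.Lib.MP_467880_co.R02
import Pool.Agent.Lib.MP_467880_co.R03

/-!
# R04 (R04a = cov, R04b = circ_pos): the covering condition at `hf S`, and positivity on circuits

* `Sit.cov`: let `r` be as in `Sit.ball`, `ε > 0` small, `x = hf S + ε y`, `x - ind c ∈ P` with `c ∈ C`, `c ⊆ S`.
  By `unc`: `flp c (x - ind c) = hf S + ε flp c y` (coordinatewise, `c ⊆ S`), it is in `P`. For `c' ∈ C`, `c' ⊆ S`,
  `c' ≠ ∅`: `IsSep.le` gives `∑ m c' i * (hf S i + ε flp c y i) ≤ (∑ m c' i)/2`, and `∑ m c' i * hf S i = (∑ m c' i)/2`,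
  because `m c'` is supported on `c' ⊆ S`. So `ε ∑ m c' i * flp c y i ≤ 0`.
* `Sit.circ_pos`: `c` a circuit, `i ∈ c`, suppose `m c i = 0` (it is `≥ 0`). `r` as in `Sit.ball` for `S = c`; the words
  inside `c` are `∅` and `c`. `δ = r/2`. For small `ε > 0` let `x = hf c + δ e_i - ε ind c`, `dist x (hf c) < r`.
  `∑ m c j x j = (∑ m c j)/2 - ε ∑ m c j < (∑ m c j)/2`. If `x - ind c ∈ P` then `-(x - ind c) ∈ P` (`unc`, `c = univ`), and
  `IsSep.le` gives `∑ m c j x j ≥ (∑ m c j)/2` (`∑ m c j (ind c) j = ∑ m c j`): contradiction. So `x ∈ P`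
  (`x - ind ∅ = x`). Let `ε → 0`, `P` closed: `w = hf c + δ e_i ∈ P`. Let `w' = flp {i} w ∈ P`. `hf c` lies in the open segment
  from `w'` to `w` (coordinate `i`: `-1/2 - δ < 1/2 < 1/2 + δ`). `hf c - ind c ∈ P` (`hf_sub_mem`), `ind c ∈ lat C`. `ext` gives
  `w' - ind c ∈ P`, but its coordinate `i` is `-3/2 - δ`: contradiction to `box`.
-/

set_option autoImplicit false

open Set

namespace VorUnc

variable {d : ℕ} {P : Set (Fin d → ℝ)} {C : Set (Finset (Fin d))}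
  {m : Finset (Fin d) → Fin d → ℝ}

theorem Sit.cov (h : Sit P C) (hm : IsSep P C m) (S : Finset (Fin d)) (y : Fin d → ℝ) :
    ∃ c ∈ C, c ⊆ S ∧ ∀ c' ∈ C, c' ⊆ S → c' ≠ ∅ → ∑ i, m c' i * flp c y i ≤ 0 := by
  classical
  obtain ⟨r, hr, hball⟩ := h.ball S
  obtain ⟨ε, hε⟩ : ∃ ε : ℝ, ε = r / (2 * (‖y‖ + 1)) := ⟨_, rfl⟩
  have hy : 0 < ‖y‖ + 1 := by positivity
  have hε0 : 0 < ε := by rw [hε]; positivity
  have hd : dist (hf S + ε • y) (hf S) < r := by
    rw [dist_eq_norm, add_sub_cancel_left, norm_smul, Real.norm_eq_abs, abs_of_pos hε0]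
    have h1 : ε * (2 * (‖y‖ + 1)) = r := by
      rw [hε]
      exact div_mul_cancel₀ _ (by positivity)
    have h2 := mul_nonneg hε0.le (norm_nonneg y)
    nlinarith
  obtain ⟨c, hcC, hcS, hP⟩ := hball _ hd
  refine ⟨c, hcC, hcS, fun c' hc'C hc'S hc'0 => ?_⟩
  have h1 := hm.le c' hc'C hc'0 _ (h.unc _ hP c)
  have h2 : ∀ j, flp c (hf S + ε • y - ind c) j = hf S j + ε * flp c y j := by
    intro j
    by_cases hj : j ∈ c
    · have hjS := hcS hj
      simp [flp, hf, ind, hj, hjS]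
      ring
    · simp [flp, ind, hj]
  have h3 : ∑ j, m c' j * flp c (hf S + ε • y - ind c) j =
      (∑ j, m c' j) / 2 + ε * ∑ j, m c' j * flp c y j := by
    rw [Finset.sum_div, Finset.mul_sum, ← Finset.sum_add_distrib]
    refine Finset.sum_congr rfl fun j _ => ?_
    rw [h2]
    by_cases hj : j ∈ c'
    · have hjS := hc'S hj
      have h4 : hf S j = 1 / 2 := by simp [hf, hjS]
      rw [h4]
      ring
    · rw [hm.supp c' hc'C hc'0 j hj]
      ring
  rw [h3] at h1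
  have h5 : ε * ∑ j, m c' j * flp c y j ≤ 0 := by linarith
  by_contra hcon
  have := mul_pos hε0 (not_le.1 hcon)
  linarith

end VorUnc
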