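import Pool.Agent.Lib.MP_467880_co.Defs

/-!
# R05a: two elementary lemmas for the theta configuration

* `prop_of_no_sep`: if `A` is empty take `κ = 1`. Otherwise let `i0 ∈ A`, `κ = s i0 / p i0`. Suppose `s i ≠ κ p i` for some
  `i ∈ A`; `i ≠ i0`. Let `σ = 1` or `-1` be the sign of `s i / p i - s i0 / p i0` and
  `u = σ (e_i / p i - e_{i0} / p i0) - ε e_{i0}`: `∑ p u = - ε p i0 < 0` and
  `∑ s u = σ (s i / p i - s i0 / p i0) - ε s i0 > 0` for small `ε > 0`. Contradiction.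
* `tri_num`: if `μ > 1` take `e = 1`, `b = 1 + (μ-1)/3`, `a = 1 + 2 (μ-1)/3` (so `e < b < a < μ e`): the four
  alternatives fail because of `a + b > 0`; `-a + μ e > 0`; `a - b > 0`; `b - e > 0`.
  If `μ < 1` take `e = 1`, `a = μ + (1-μ)/3`, `b = μ + 2(1-μ)/3` (so `μ e < a < b < e`): `a + b > 0`; `-b + e > 0`;
  `a - μ e > 0`; `-a + b > 0`.
-/

set_option autoImplicit false

open Set

namespace VorUnc

variable {d : ℕ}

theorem prop_of_no_sep {A : Finset (Fin d)} {p s : Fin d → ℝ} (hp : ∀ i ∈ A, 0 < p i)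
    (hs : ∀ i ∈ A, 0 < s i)
    (h : ∀ u : Fin d → ℝ, (∀ i, i ∉ A → u i = 0) →
      ¬ (∑ i ∈ A, p i * u i < 0 ∧ 0 < ∑ i ∈ A, s i * u i)) :
    ∃ κ > (0:ℝ), ∀ i ∈ A, s i = κ * p i := by
  classical
  rcases A.eq_empty_or_nonempty with rfl | ⟨i0, hi0⟩
  · exact ⟨1, one_pos, fun i hi => absurd hi (Finset.notMem_empty i)⟩
  have hp0 := hp i0 hi0
  have hs0 := hs i0 hi0
  refine ⟨s i0 / p i0, div_pos hs0 hp0, fun i hi => ?_⟩
  by_contra hne
  have hpi := hp i hi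
  have hD : s i / p i - s i0 / p i0 ≠ 0 := by
    intro h0
    apply hne
    have h1 : s i / p i = s i0 / p i0 := sub_eq_zero.mp h0
    rw [← h1]
    field_simp
  obtain ⟨σ, hσ⟩ : ∃ σ : ℝ, 0 < σ * (s i / p i - s i0 / p i0) := by
    rcases lt_or_gt_of_ne hD with h1 | h1
    · exact ⟨-1, by linarith⟩
    · exact ⟨1, by linarith⟩
  set D := s i / p i - s i0 / p i0 with hDdef
  set ε := σ * D / (2 * s i0) with hε
  have hεp : 0 < ε := by positivity
  set u : Fin d → ℝ := fun j => (if j = i then σ / p i else 0) +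
    (if j = i0 then -σ / p i0 - ε else 0) with hu
  have hsum : ∀ f : Fin d → ℝ, ∑ j ∈ A, f j * u j =
      f i * (σ / p i) + f i0 * (-σ / p i0 - ε) := by
    intro f
    have h1 : ∀ j ∈ A, f j * u j = (if j = i then f i * (σ / p i) else 0) +
        (if j = i0 then f i0 * (-σ / p i0 - ε) else 0) := by
      intro j _
      rw [hu]
      simp only
      rw [mul_add]
      congr 1
      · by_cases hj : j = i
        · rw [if_pos hj, if_pos hj, hj]
        · rw [if_neg hj, if_neg hj, mul_zero]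
      · by_cases hj : j = i0
        · rw [if_pos hj, if_pos hj, hj]
        · rw [if_neg hj, if_neg hj, mul_zero]
    rw [Finset.sum_congr rfl h1, Finset.sum_add_distrib, Finset.sum_ite_eq', Finset.sum_ite_eq',
      if_pos hi, if_pos hi0]
  refine h u ?_ ⟨?_, ?_⟩
  · intro j hj
    have h1 : j ≠ i := fun h2 => hj (h2 ▸ hi)
    have h2 : j ≠ i0 := fun h2 => hj (h2 ▸ hi0)
    rw [hu]
    simp only
    rw [if_neg h1, if_neg h2, add_zero]
  · rw [hsum p]
    have h1 : p i * (σ / p i) + p i0 * (-σ / p i0 - ε) = -(ε * p i0) := by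
      field_simp
      ring
    rw [h1]
    have := mul_pos hεp hp0
    linarith
  · rw [hsum s]
    have h1 : s i * (σ / p i) + s i0 * (-σ / p i0 - ε) = σ * D - ε * s i0 := by
      rw [hDdef]
      ring
    have h2 : ε * s i0 = σ * D / 2 := by
      rw [hε]
      field_simp
    rw [h1, h2]
    linarith

theorem tri_num {μ : ℝ} (hμ : 0 < μ) (h : ∀ a b e : ℝ,
    (a + b ≤ 0 ∧ b + e ≤ 0 ∧ a + μ * e ≤ 0) ∨ (-a - b ≤ 0 ∧ -b + e ≤ 0 ∧ -a + μ * e ≤ 0) ∨
    (a - b ≤ 0 ∧ -b - e ≤ 0 ∧ a - μ * e ≤ 0) ∨ (-a + b ≤ 0 ∧ b - e ≤ 0 ∧ -a - μ * e ≤ 0)) :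
    μ = 1 := by
  rcases lt_trichotomy μ 1 with h1 | h1 | h1
  · exfalso
    rcases h (μ + (1 - μ) / 3) (μ + 2 * (1 - μ) / 3) 1 with h2 | h2 | h2 | h2
    · obtain ⟨a1, a2, a3⟩ := h2
      linarith
    · obtain ⟨a1, a2, a3⟩ := h2
      linarith
    · obtain ⟨a1, a2, a3⟩ := h2
      linarith
    · obtain ⟨a1, a2, a3⟩ := h2
      linarith
  · exact h1
  · exfalso
    rcases h (1 + 2 * (μ - 1) / 3) (1 + (μ - 1) / 3) 1 with h2 | h2 | h2 | h2
    · obtain ⟨a1, a2, a3⟩ := h2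
      linarith
    · obtain ⟨a1, a2, a3⟩ := h2
      linarith
    · obtain ⟨a1, a2, a3⟩ := h2
      linarith
    · obtain ⟨a1, a2, a3⟩ := h2
      linarith

end VorUnc
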