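import Pool.Agent.Lib.MP_467880_co.Defs

/-!
# R06: binary codes: circuits and theta configurations

* `Code.exists_circ`: among the words `g ∈ C` with `i ∈ g ⊆ c` take one, `f`, of minimal cardinality
  (`Finset.exists_min_image` or strong induction on `card`). It is a circuit: if `g ∈ C`, `g ⊆ f`, `g ≠ ∅`, `g ≠ f`: if `i ∈ g`
  contradiction to minimality; if `i ∉ g` then `symmDiff f g = f \ g ∈ C` contains `i` and is smaller.
* `theta_of`: `A = c \ e`, `B = c ∩ e`, `D = e \ c`. `A ∪ B = c`, `B ∪ D = e`, `A ∪ D = symmDiff c e ∈ C`.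
  `all`: `g ∈ C`, `g ⊆ c ∪ e`, so `g \ c ⊆ e \ c`. If `g \ c = ∅` then `g ⊆ c`, so `g = ∅` or `g = c` (circuit). If
  `g \ c = e \ c` then `symmDiff g e ⊆ c` is a word, so it is `∅` or `c`: `g = e` or `g = symmDiff e c`.
  `c2`, `c3`: a nonempty word inside `e` is one of `c, e, A ∪ D` by `all`; `c ⊄ e`, `A ∪ D ⊄ e` as `A` is nonempty and disjoint
  from `e`. A nonempty word inside `A ∪ D`: `c` and `e` contain elements of the nonempty set `B`, which is disjoint from
  `A ∪ D`.
-/

set_option autoImplicit false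

open Set

namespace VorUnc

variable {d : ℕ} {C : Set (Finset (Fin d))}

theorem Code.exists_circ (h : Code C) {c : Finset (Fin d)} (hc : c ∈ C) {i : Fin d} (hi : i ∈ c) :
    ∃ f, Circ C f ∧ i ∈ f ∧ f ⊆ c := by
  classical
  induction hn : c.card using Nat.strong_induction_on generalizing c with
  | _ n ih =>
    by_cases hcirc : Circ C c
    · exact ⟨c, hcirc, hi, Finset.Subset.refl c⟩
    · have hne : c ≠ ∅ := Finset.nonempty_iff_ne_empty.1 ⟨i, hi⟩
      have h1 : ∃ g ∈ C, g ⊆ c ∧ g ≠ ∅ ∧ g ≠ c := by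
        by_contra hcon
        push Not at hcon
        exact hcirc ⟨hc, hne, fun g hg hgc hg0 => hcon g hg hgc (Finset.nonempty_iff_ne_empty.2 hg0)⟩
      obtain ⟨g, hg, hgc, hg0, hgne⟩ := h1
      by_cases hig : i ∈ g
      · have h2 : g.card < n := by
          rw [← hn]
          exact Finset.card_lt_card (hgc.ssubset_of_ne hgne)
        obtain ⟨f, hf, hif, hfg⟩ := ih g.card h2 hg hig rfl
        exact ⟨f, hf, hif, hfg.trans hgc⟩
      · have h2 : symmDiff c g = c \ g := by
          ext j
          simp only [Finset.mem_symmDiff, Finset.mem_sdiff]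
          constructor
          · rintro (h3 | h3)
            · exact h3
            · exact absurd (hgc h3.1) h3.2
          · exact fun h3 => Or.inl h3
        have h3 : c \ g ∈ C := by
          rw [← h2]
          exact h.symm c hc g hg
        have h4 : (c \ g).card < n := by
          rw [← hn]
          apply Finset.card_lt_card
          refine Finset.sdiff_subset.ssubset_of_ne ?_
          intro h5
          obtain ⟨j, hj⟩ := Finset.nonempty_iff_ne_empty.2 hg0
          have h6 : j ∈ c \ g := by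
            rw [h5]
            exact hgc hj
          exact (Finset.mem_sdiff.1 h6).2 hj
        obtain ⟨f, hf, hif, hfg⟩ := ih _ h4 h3 (Finset.mem_sdiff.2 ⟨hi, hig⟩) rfl
        exact ⟨f, hf, hif, hfg.trans Finset.sdiff_subset⟩

theorem Code.theta_of (h : Code C) {c e : Finset (Fin d)} (hc : Circ C c) (he : e ∈ C)
    (h1 : (c \ e).Nonempty) (h2 : (c ∩ e).Nonempty) (h3 : (e \ c).Nonempty)
    (hmin : ∀ g ∈ C, g \ c ⊆ e \ c → g \ c = ∅ ∨ g \ c = e \ c) :
    Theta C (c \ e) (c ∩ e) (e \ c) := by
  classical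
  have u1 : (c \ e) ∪ (c ∩ e) = c := Finset.sdiff_union_inter c e
  have u2 : (c ∩ e) ∪ (e \ c) = e := by
    rw [Finset.inter_comm, Finset.union_comm]
    exact Finset.sdiff_union_inter e c
  have u3 : (c \ e) ∪ (e \ c) ∈ C := h.symm c hc.1 e he
  have u3' : (c \ e) ∪ (e \ c) = symmDiff c e := rfl
  have hall : ∀ g ∈ C, g ⊆ c ∪ e → g = ∅ ∨ g = c ∨ g = e ∨ g = (c \ e) ∪ (e \ c) := by
    intro g hg hgce
    have hsub : g \ c ⊆ e \ c := by
      intro j hj
      rw [Finset.mem_sdiff] at hj ⊢
      rcases Finset.mem_union.1 (hgce hj.1) with h4 | h4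
      · exact absurd h4 hj.2
      · exact ⟨h4, hj.2⟩
    rcases hmin g hg hsub with h4 | h4
    · have h5 : g ⊆ c := Finset.sdiff_eq_empty_iff_subset.1 h4
      by_cases h6 : g = ∅
      · exact Or.inl h6
      · exact Or.inr (Or.inl (hc.2.2 g hg h5 h6))
    · have h5 : symmDiff g e ⊆ c := by
        intro j hj
        rw [Finset.mem_symmDiff] at hj
        by_contra hjc
        rcases hj with ⟨hj1, hj2⟩ | ⟨hj1, hj2⟩
        · have h6 : j ∈ e \ c := by
            rw [← h4]
            exact Finset.mem_sdiff.2 ⟨hj1, hjc⟩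
          exact hj2 (Finset.mem_sdiff.1 h6).1
        · have h6 : j ∈ g \ c := by
            rw [h4]
            exact Finset.mem_sdiff.2 ⟨hj1, hjc⟩
          exact hj2 (Finset.mem_sdiff.1 h6).1
      have h6 := h.symm g hg e he
      by_cases h7 : symmDiff g e = ∅
      · have h8 : g = e := by
          have h9 : symmDiff g e = ⊥ := h7
          rwa [symmDiff_eq_bot] at h9
        exact Or.inr (Or.inr (Or.inl h8))
      · have h8 : symmDiff g e = c := hc.2.2 _ h6 h5 h7
        have h9 : g = symmDiff c e := by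
          rw [← h8, symmDiff_symmDiff_cancel_right]
        exact Or.inr (Or.inr (Or.inr (by rw [u3', h9])))
  obtain ⟨a, ha⟩ := h1
  obtain ⟨b, hb⟩ := h2
  obtain ⟨k, hk⟩ := h3
  rw [Finset.mem_sdiff] at ha hk
  rw [Finset.mem_inter] at hb
  refine
    { nA := ⟨a, Finset.mem_sdiff.2 ha⟩
      nB := ⟨b, Finset.mem_inter.2 hb⟩
      nD := ⟨k, Finset.mem_sdiff.2 hk⟩
      dAB := ?_
      dAD := ?_
      dBD := ?_
      c1 := ?_
      c2 := ?_
      c3 := ?_
      all := ?_ }
  · rw [Finset.disjoint_left]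
    intro j hj hj'
    exact (Finset.mem_sdiff.1 hj).2 (Finset.mem_inter.1 hj').2
  · rw [Finset.disjoint_left]
    intro j hj hj'
    exact (Finset.mem_sdiff.1 hj).2 (Finset.mem_sdiff.1 hj').1
  · rw [Finset.disjoint_left]
    intro j hj hj'
    exact (Finset.mem_sdiff.1 hj').2 (Finset.mem_inter.1 hj).1
  · rw [u1]
    exact hc
  · rw [u2]
    refine ⟨he, Finset.nonempty_iff_ne_empty.1 ⟨b, hb.2⟩, ?_⟩
    intro g hg hge hg0
    rcases hall g hg (hge.trans Finset.subset_union_right) with h4 | h4 | h4 | h4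
    · exact absurd h4 hg0
    · exfalso
      rw [h4] at hge
      exact ha.2 (hge ha.1)
    · exact h4
    · exfalso
      have h5 : a ∈ g := by
        rw [h4]
        exact Finset.mem_union_left _ (Finset.mem_sdiff.2 ha)
      exact ha.2 (hge h5)
  · refine ⟨u3, Finset.nonempty_iff_ne_empty.1 ⟨a, Finset.mem_union_left _ (Finset.mem_sdiff.2 ha)⟩, ?_⟩
    intro g hg hge hg0
    have h6 : g ⊆ c ∪ e := by
      intro j hj
      rcases Finset.mem_union.1 (hge hj) with h7 | h7
      · exact Finset.mem_union_left _ (Finset.mem_sdiff.1 h7).1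
      · exact Finset.mem_union_right _ (Finset.mem_sdiff.1 h7).1
    have hbn : b ∉ (c \ e) ∪ (e \ c) := by
      intro hb'
      rcases Finset.mem_union.1 hb' with h7 | h7
      · exact (Finset.mem_sdiff.1 h7).2 hb.2
      · exact (Finset.mem_sdiff.1 h7).2 hb.1
    rcases hall g hg h6 with h4 | h4 | h4 | h4
    · exact absurd h4 hg0
    · exfalso
      apply hbn
      apply hge
      rw [h4]
      exact hb.1
    · exfalso
      apply hbn
      apply hge
      rw [h4]
      exact hb.2
    · exact h4
  · intro g hg hg'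
    rw [u1, u2]
    refine hall g hg (hg'.trans ?_)
    rw [u1]
    intro j hj
    rcases Finset.mem_union.1 hj with h7 | h7
    · exact Finset.mem_union_left _ h7
    · exact Finset.mem_union_right _ (Finset.mem_sdiff.1 h7).1

end VorUnc
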