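import Pool.Agent.Lib.MP_467880_co.R06

/-!
# R07: the ratio `m c i / m c j` does not depend on the circuit `c` containing `i`, `j`

Strong induction on `(c ∪ c').card`. If `c = c'` or `i = j` trivial. Let `c ≠ c'`, `i ≠ j`.
`c' \ c ≠ ∅` (circuits). Among the words `e ∈ C` with `e \ c ⊆ c' \ c`, `e \ c ≠ ∅` (`c'` is one) choose one with
`(e \ c).card` minimal. Then `hmin` of `theta_of` holds. Put `A = c \ e`, `B = c ∩ e`, `D = e \ c ⊆ c' \ c`.
* `B ≠ ∅`: otherwise `e = D` is a nonempty word inside `c'`, so `D = c'`, but `i ∈ c' ∩ c`.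
* `A ≠ ∅`: otherwise `c ⊆ e`, `symmDiff e c = D` is a word inside `c'`, the same contradiction.
So `Theta C A B D` (`theta_of`), `Good m A B D`: vector `l`. Circuits `c = A ∪ B`, `e = B ∪ D`, `e' = A ∪ D`.
(F1) if `B ∩ c' ≠ ∅` then `¬ A ⊆ c'`: otherwise `e' ⊆ c'`, so `e' = c'` (both circuits), but `e'` is disjoint from `B`. Then
     `(e ∪ c').card < (c ∪ c').card`: `e ∪ c' ⊆ c ∪ c'`, and an element of `A \ c'` is not in `e ∪ c'`.
(F2) if `A ∩ c' ≠ ∅` then `¬ B ⊆ c'` and `(e' ∪ c').card < (c ∪ c').card`, in the same way.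
Case `i, j ∈ B`: induction for `e, c'`; `m c i / m c j = l i / l j = m e i / m e j = m c' i / m c' j`.
Case `i, j ∈ A`: the same with `e'`.
Case `i ∈ A`, `j ∈ B` (or the other way round): choose `k ∈ D ⊆ c'`. Induction for `(e, c')`, elements `j, k`, and for
`(e', c')`, elements `i, k`: `m c' j / m c' k = m e j / m e k = l j / l k`, `m c' i / m c' k = l i / l k`. So
`m c' i / m c' j = l i / l j = m c i / m c j`.
(Positivity `pos` is used for the divisions; it may be convenient to work with products.)
-/

set_option autoImplicit false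

open Set

namespace VorUnc

variable {d : ℕ} {C : Set (Finset (Fin d))} {m : Finset (Fin d) → Fin d → ℝ}

theorem R07_aux (h : Code C) (good : ∀ A B D, Theta C A B D → Good m A B D) (n : ℕ) :
    ∀ c c' : Finset (Fin d), Circ C c → Circ C c' → (c ∪ c').card = n → ∀ i j, i ∈ c → j ∈ c →
      i ∈ c' → j ∈ c' → m c i * m c' j = m c j * m c' i := by
  classical
  induction n using Nat.strong_induction_on with
  | _ n ih =>
    intro c c' hc hc' hn i j hi hj hi' hj'
    by_cases hcc : c = c'
    · subst hcc
      ring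
    have hne : (c' \ c).Nonempty := by
      rw [Finset.nonempty_iff_ne_empty]
      intro h1
      rw [Finset.sdiff_eq_empty_iff_subset] at h1
      exact hcc (hc.2.2 c' hc'.1 h1 hc'.2.1).symm
    -- the minimal word
    obtain ⟨e, heW, hmin⟩ := (Finset.univ.filter fun e : Finset (Fin d) =>
      e ∈ C ∧ e \ c ⊆ c' \ c ∧ (e \ c).Nonempty).exists_min_image (fun e => (e \ c).card)
      ⟨c', by simp only [Finset.mem_filter, Finset.mem_univ, true_and]
              exact ⟨hc'.1, le_rfl, hne⟩⟩
    simp only [Finset.mem_filter, Finset.mem_univ, true_and] at heW hmin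
    obtain ⟨heC, hsub, hDne⟩ := heW
    have hmin' : ∀ g ∈ C, g \ c ⊆ e \ c → g \ c = ∅ ∨ g \ c = e \ c := by
      intro g hg hgs
      by_cases h1 : g \ c = ∅
      · exact Or.inl h1
      · exact Or.inr (Finset.eq_of_subset_of_card_le hgs
          (hmin g ⟨hg, hgs.trans hsub, Finset.nonempty_iff_ne_empty.mpr h1⟩))
    have hBne : (c ∩ e).Nonempty := by
      rw [Finset.nonempty_iff_ne_empty]
      intro h1
      have h2 : e ⊆ c' := by
        intro x hx
        have h3 : x ∉ c := fun h4 => by
          have : x ∈ c ∩ e := Finset.mem_inter.mpr ⟨h4, hx⟩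
          rw [h1] at this
          exact absurd this (Finset.notMem_empty x)
        exact (Finset.mem_sdiff.mp (hsub (Finset.mem_sdiff.mpr ⟨hx, h3⟩))).1
      have h3 : e ≠ ∅ := by
        rintro rfl
        simp at hDne
      have h4 := hc'.2.2 e heC h2 h3
      have h5 : i ∈ c ∩ e := Finset.mem_inter.mpr ⟨hi, h4 ▸ hi'⟩
      rw [h1] at h5
      exact absurd h5 (Finset.notMem_empty i)
    have hAne : (c \ e).Nonempty := by
      rw [Finset.nonempty_iff_ne_empty]
      intro h1
      rw [Finset.sdiff_eq_empty_iff_subset] at h1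
      have h2 : symmDiff c e = e \ c := by
        rw [symmDiff_def, Finset.sup_eq_union, Finset.sdiff_eq_empty_iff_subset.mpr h1,
          Finset.empty_union]
      have h3 := h.symm c hc.1 e heC
      rw [h2] at h3
      have h4 : e \ c ⊆ c' := hsub.trans Finset.sdiff_subset
      have h5 := hc'.2.2 _ h3 h4 (Finset.nonempty_iff_ne_empty.mp hDne)
      have h6 : i ∈ e \ c := h5 ▸ hi'
      exact (Finset.mem_sdiff.mp h6).2 hi
    have hth := h.theta_of hc heC hAne hBne hDne hmin'
    obtain ⟨A, hA⟩ : ∃ A, A = c \ e := ⟨_, rfl⟩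
    obtain ⟨B, hB⟩ : ∃ B, B = c ∩ e := ⟨_, rfl⟩
    obtain ⟨D, hD⟩ : ∃ D, D = e \ c := ⟨_, rfl⟩
    rw [← hA, ← hB, ← hD] at hth
    rw [← hD] at hsub
    have hAB : A ∪ B = c := by rw [hA, hB, Finset.sdiff_union_inter]
    have hDc' : D ⊆ c' := hsub.trans Finset.sdiff_subset
    obtain ⟨l, hl, ⟨a1, ha1, h1⟩, ⟨a2, ha2, h2⟩, ⟨a3, ha3, h3⟩⟩ := good A B D hth
    have dAB := Finset.disjoint_left.mp hth.dAB
    have dAD := Finset.disjoint_left.mp hth.dAD
    have dBD := Finset.disjoint_left.mp hth.dBD
    have hAc : A ⊆ c := hAB ▸ Finset.subset_union_left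
    have hBc : B ⊆ c := hAB ▸ Finset.subset_union_right
    -- the two descents
    have E1 : ∀ x ∈ B, x ∈ c' → ∀ y ∈ B ∪ D, y ∈ c' → l x * m c' y = l y * m c' x := by
      intro x hx hx' y hy hy'
      have hAn : ¬ A ⊆ c' := by
        intro h4
        have h5 := hc'.2.2 (A ∪ D) hth.c3.1 (Finset.union_subset h4 hDc') hth.c3.2.1
        rw [← h5, Finset.mem_union] at hx'
        rcases hx' with h6 | h6
        · exact dAB h6 hx
        · exact dBD hx h6
      obtain ⟨w, hw, hw'⟩ := Finset.not_subset.mp hAn
      have hcard : ((B ∪ D) ∪ c').card < n := by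
        rw [← hn]
        refine Finset.card_lt_card ⟨?_, fun h4 => ?_⟩
        · refine Finset.union_subset (Finset.union_subset ?_ ?_) Finset.subset_union_right
          · exact hBc.trans Finset.subset_union_left
          · exact hDc'.trans Finset.subset_union_right
        · have h5 := h4 (Finset.mem_union_left c' (hAc hw))
          rw [Finset.mem_union, Finset.mem_union] at h5
          rcases h5 with (h5 | h5) | h5
          · exact dAB hw h5
          · exact dAD hw h5
          · exact hw' h5
      have h4 := ih _ hcard (B ∪ D) c' hth.c2 hc' rfl x y (Finset.mem_union_left D hx) hy hx' hy'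
      rw [h2 x (Finset.mem_union_left D hx), h2 y hy, mul_assoc, mul_assoc] at h4
      exact mul_left_cancel₀ ha2.ne' h4
    have E2 : ∀ x ∈ A, x ∈ c' → ∀ y ∈ A ∪ D, y ∈ c' → l x * m c' y = l y * m c' x := by
      intro x hx hx' y hy hy'
      have hBn : ¬ B ⊆ c' := by
        intro h4
        have h5 := hc'.2.2 (B ∪ D) hth.c2.1 (Finset.union_subset h4 hDc') hth.c2.2.1
        rw [← h5, Finset.mem_union] at hx'
        rcases hx' with h6 | h6
        · exact dAB hx h6
        · exact dAD hx h6
      obtain ⟨w, hw, hw'⟩ := Finset.not_subset.mp hBn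
      have hcard : ((A ∪ D) ∪ c').card < n := by
        rw [← hn]
        refine Finset.card_lt_card ⟨?_, fun h4 => ?_⟩
        · refine Finset.union_subset (Finset.union_subset ?_ ?_) Finset.subset_union_right
          · exact hAc.trans Finset.subset_union_left
          · exact hDc'.trans Finset.subset_union_right
        · have h5 := h4 (Finset.mem_union_left c' (hBc hw))
          rw [Finset.mem_union, Finset.mem_union] at h5
          rcases h5 with (h5 | h5) | h5
          · exact dAB h5 hw
          · exact dBD hw h5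
          · exact hw' h5
      have h4 := ih _ hcard (A ∪ D) c' hth.c3 hc' rfl x y (Finset.mem_union_left D hx) hy hx' hy'
      rw [h3 x (Finset.mem_union_left D hx), h3 y hy, mul_assoc, mul_assoc] at h4
      exact mul_left_cancel₀ ha3.ne' h4
    have hmain : l i * m c' j = l j * m c' i := by
      obtain ⟨k, hk⟩ := hth.nD
      have hkl := (hl k).ne'
      rw [← hAB, Finset.mem_union] at hi hj
      rcases hi with hiA | hiB <;> rcases hj with hjA | hjB
      · exact E2 i hiA hi' j (Finset.mem_union_left D hjA) hj'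
      · have e1 := E2 i hiA hi' k (Finset.mem_union_right A hk) (hDc' hk)
        have e2 := E1 j hjB hj' k (Finset.mem_union_right B hk) (hDc' hk)
        apply mul_left_cancel₀ hkl
        linear_combination l j * e1 - l i * e2
      · have e1 := E2 j hjA hj' k (Finset.mem_union_right A hk) (hDc' hk)
        have e2 := E1 i hiB hi' k (Finset.mem_union_right B hk) (hDc' hk)
        apply mul_left_cancel₀ hkl
        linear_combination l j * e2 - l i * e1
      · exact E1 i hiB hi' j (Finset.mem_union_left D hjB) hj'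
    have h4 : ∀ x ∈ c, m c x = a1 * l x := by
      intro x hx
      have := h1 x (by rw [hAB]; exact hx)
      rwa [hAB] at this
    rw [h4 i hi, h4 j hj]
    linear_combination a1 * hmain

theorem ratio (h : Code C) (pos : ∀ c, Circ C c → ∀ i ∈ c, 0 < m c i)
    (good : ∀ A B D, Theta C A B D → Good m A B D) {c c' : Finset (Fin d)} (hc : Circ C c)
    (hc' : Circ C c') {i j : Fin d} (hi : i ∈ c) (hj : j ∈ c) (hi' : i ∈ c') (hj' : j ∈ c') :
    m c i * m c' j = m c j * m c' i :=
  R07_aux h good _ c c' hc hc' rfl i j hi hj hi' hj'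

end VorUnc
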