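import Pool.Agent.Lib.MP_467880_co.R01b
import Pool.Agent.Lib.MP_467880_co.R06

/-!
# R09 (R09a = neg_mem_lat, code_le, vor_le; R09b = eq_vor): `P` is the Voronoi cell of `lat C` for the quadratic form `∑ l i x i ^ 2`

* `code_le`: for every word `c ∈ C` and `x ∈ P`: `∑ i ∈ c, l i * x i ≤ (∑ i ∈ c, l i) / 2`. Strong induction on `c.card`: `c = ∅`
  trivial; otherwise a circuit `f ⊆ c` (`exists_circ`), `c \ f = symmDiff c f ∈ C`, split the sums (`Finset.sum_sdiff`).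
* `vor_le`: for `x ∈ P` and `v ∈ lat C`: `∑ l i * x i ≤ ...`, i.e. `2 ∑ l i x i v i ≤ ∑ l i (v i)^2`. Let `v i = n i`, `c` the
  odd support. `y i = |x i|` is in `P` (`Sit.mono`), `0 ≤ y i ≤ 1`, `x i v i ≤ y i |v i|`. For `i ∉ c`, `|v i|` is even, so
  `2 y i |v i| ≤ 2 |v i| ≤ |v i|^2`. For `i ∈ c`: `|v i| ≥ 1`, `2 y i |v i| ≤ 2 y i + 2 (|v i| - 1)` (`y i ≤ 1`), and
  `2 |v i| - 1 ≤ |v i|^2`. Sum over `i ∈ c`: `∑ 2 l y |v| ≤ ∑ l (2 y + 2 |v| - 2) ≤ ∑ l (1 + 2 |v| - 2) ≤ ∑ l |v|^2`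
  by `code_le` for `y`.
* `eq_vor`, `⊆`: `vor_le`, expand the square. `⊇`: let `x` be in the cell. For `0 ≤ t < 1` the point `t x` satisfies
  `∑ l (t x)^2 < ∑ l (t x - v)^2` for all `v ∈ lat C`, `v ≠ 0` (`2 t ∑ l x v ≤ t ∑ l v^2 < ∑ l v^2`; if `t = 0` clear). `cover`:
  `t x - v ∈ P` with `v ∈ lat C`. If `v ≠ 0`: by the inclusion already proved, for the point `t x - v ∈ P` and `-v ∈ lat C`:
  `∑ l (t x - v)^2 ≤ ∑ l (t x)^2`, contradiction. So `v = 0`, `t x ∈ P`. Let `t → 1`, `P` is closed.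
  (`-v ∈ lat C`: integers `-n i`, the same odd support.)
-/

set_option autoImplicit false

open Set

namespace VorUnc

variable {d : ℕ} {P : Set (Fin d → ℝ)} {C : Set (Finset (Fin d))}

theorem neg_mem_lat {v : Fin d → ℝ} (hv : v ∈ lat C) : -v ∈ lat C := by
  obtain ⟨n, hn, hC⟩ := hv
  refine ⟨fun i => -n i, fun i => ?_, ?_⟩
  · show -(v i) = _
    rw [hn i]
    push_cast
    rfl
  · have : (Finset.univ.filter fun i => Odd (-n i)) = Finset.univ.filter fun i => Odd (n i) := by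
      refine Finset.filter_congr (fun i _ => ?_)
      simp only [odd_neg]
    rw [this]
    exact hC

theorem Sit.code_le (h : Sit P C) {l : Fin d → ℝ}
    (hc : ∀ c, Circ C c → ∀ x ∈ P, ∑ i ∈ c, l i * x i ≤ (∑ i ∈ c, l i) / 2) {c : Finset (Fin d)}
    (hcC : c ∈ C) {x : Fin d → ℝ} (hx : x ∈ P) : ∑ i ∈ c, l i * x i ≤ (∑ i ∈ c, l i) / 2 := by
  induction c using Finset.strongInduction with
  | H c ih =>
    rcases c.eq_empty_or_nonempty with rfl | ⟨i, hi⟩
    · simp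
    · obtain ⟨f, hf, hif, hfc⟩ := h.code.exists_circ hcC hi
      have e1 : symmDiff c f = c \ f := symmDiff_of_ge hfc
      have h1 : c \ f ∈ C := e1 ▸ h.code.symm c hcC f hf.1
      have h2 : c \ f ⊂ c := Finset.sdiff_ssubset hfc ⟨i, hif⟩
      have h3 := ih _ h2 h1
      have h4 := hc f hf x hx
      rw [← Finset.sum_sdiff hfc, ← Finset.sum_sdiff (f := fun i => l i) hfc]
      linarith

theorem R09a_even {n : ℤ} (hn : ¬ Odd n) : 2 * |(n : ℝ)| ≤ (n : ℝ) ^ 2 := by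
  have h1 : 2 * |n| ≤ n ^ 2 := by
    rw [Int.not_odd_iff_even] at hn
    obtain ⟨k, rfl⟩ := hn
    have h2 : |k + k| = 2 * |k| := by
      rw [← two_mul, abs_mul]
      rfl
    rw [h2]
    have h3 : (k + k) ^ 2 = 4 * (|k| * |k|) := by
      rw [abs_mul_abs_self]; ring
    rw [h3]
    rcases (abs_nonneg k).eq_or_lt with h4 | h4
    · rw [← h4]; norm_num
    · nlinarith
  have h2 : ((2 * |n| : ℤ) : ℝ) ≤ ((n ^ 2 : ℤ) : ℝ) := by exact_mod_cast h1
  push_cast at h2
  exact h2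

theorem R09a_odd {n : ℤ} (hn : Odd n) : 1 ≤ |(n : ℝ)| := by
  have h0 : n ≠ 0 := by
    rintro rfl
    exact absurd hn (by decide)
  have := Int.one_le_abs h0
  exact_mod_cast this

theorem Sit.vor_le (h : Sit P C) {l : Fin d → ℝ} (hl : ∀ i, 0 < l i)
    (hc : ∀ c, Circ C c → ∀ x ∈ P, ∑ i ∈ c, l i * x i ≤ (∑ i ∈ c, l i) / 2) {x v : Fin d → ℝ}
    (hx : x ∈ P) (hv : v ∈ lat C) : 2 * ∑ i, l i * (x i * v i) ≤ ∑ i, l i * v i ^ 2 := by
  obtain ⟨n, hn, hC⟩ := hv
  have hy : (fun i => |x i|) ∈ P := h.mono hx (fun i => by rw [abs_abs])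
  have hcode := h.code_le hc hC hy
  have hterm : ∀ i, 2 * (l i * (x i * v i)) ≤ l i * v i ^ 2 +
      (if Odd (n i) then l i * (2 * |x i| - 1) else 0) := by
    intro i
    have hli := hl i
    have hx0 := abs_nonneg (x i)
    have hx1 := h.box x hx i
    have hxv : x i * v i ≤ |x i| * |v i| := by
      rw [← abs_mul]
      exact le_abs_self _
    have hv0 := abs_nonneg (v i)
    have hvs : |v i| ^ 2 = v i ^ 2 := sq_abs _
    by_cases ho : Odd (n i)
    · rw [if_pos ho]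
      have h1 : 1 ≤ |v i| := by
        rw [hn i]
        exact R09a_odd ho
      have h2 : 2 * (x i * v i) ≤ v i ^ 2 + (2 * |x i| - 1) := by
        have h3 : |x i| * (|v i| - 1) ≤ 1 * (|v i| - 1) :=
          mul_le_mul_of_nonneg_right hx1 (by linarith)
        nlinarith [sq_nonneg (|v i| - 1)]
      calc 2 * (l i * (x i * v i)) = l i * (2 * (x i * v i)) := by ring
        _ ≤ l i * (v i ^ 2 + (2 * |x i| - 1)) := mul_le_mul_of_nonneg_left h2 hli.le
        _ = l i * v i ^ 2 + l i * (2 * |x i| - 1) := by ring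
    · rw [if_neg ho, add_zero]
      have h1 : 2 * |v i| ≤ v i ^ 2 := by
        rw [hn i]
        exact R09a_even ho
      have h2 : 2 * (x i * v i) ≤ v i ^ 2 := by
        have h3 : |x i| * |v i| ≤ 1 * |v i| := mul_le_mul_of_nonneg_right hx1 hv0
        linarith
      calc 2 * (l i * (x i * v i)) = l i * (2 * (x i * v i)) := by ring
        _ ≤ l i * v i ^ 2 := mul_le_mul_of_nonneg_left h2 hli.le
  have hsum := Finset.sum_le_sum (fun i (_ : i ∈ Finset.univ) => hterm i)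
  rw [← Finset.mul_sum, Finset.sum_add_distrib, ← Finset.sum_filter] at hsum
  have e : ∑ i ∈ Finset.univ.filter (fun i => Odd (n i)), l i * (2 * |x i| - 1) =
      2 * ∑ i ∈ Finset.univ.filter (fun i => Odd (n i)), l i * |x i| -
        ∑ i ∈ Finset.univ.filter (fun i => Odd (n i)), l i := by
    rw [Finset.mul_sum, ← Finset.sum_sub_distrib]
    refine Finset.sum_congr rfl (fun i _ => ?_)
    ring
  rw [e] at hsum
  have hcode' : ∑ i ∈ Finset.univ.filter (fun i => Odd (n i)), l i * |x i| ≤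
      (∑ i ∈ Finset.univ.filter (fun i => Odd (n i)), l i) / 2 := hcode
  linarith

end VorUnc
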