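import Pool.Agent.Lib.MP_467880_co.Defs

/-!
# R10 (R10a = int, nbhd; R10b = facet): tilings: nonempty interior, facet vectors are determined by `P`

* `Til.int`: if `interior P = ∅` then `affineSpan ℝ P ≠ ⊤` (`Convex.interior_nonempty_iff_affineSpan_eq_top`), so
  `volume P = 0` (`MeasureTheory.Measure.addHaar_affineSubspace`); `M` is countable (`fin`: union over `n : ℕ` of finite
  sets), all translates have measure `0` (`measure_preimage_add`-like lemmas; the translate `{x | x - v ∈ P}` is contained in the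
  translated affine subspace, or use `MeasureTheory.measure_preimage_sub_right`), they cover `univ`, whose volume is not `0`.
* `Til.nbhd`: near `x` only the tiles containing `x` occur: `{v ∈ M | ‖v‖ ≤ R}` finite with `R = ‖x‖ + 1 + bound of P`; for
  those `v` with `x - v ∉ P` a neighbourhood of `x` misses the closed tile.
* `Til.facet`: PROOF. `P` has interior points (`Til.int`). By `disj` and Hahn-Banach (`geometric_hahn_banach_open_open`)
  there are a linear `f ≠ 0` and `u` with `f ≤ u` on `P` and `f ≥ u` on `P + v` (closures of interiors,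
  `Convex.closure_interior_eq_closure_of_nonempty_interior`); `f x = u`. By `nbhd` there is `r > 0` such that every `y` with
  `dist y x < r` lies in `P` or `P + v`. So `dist y x < r` and `f y < u` imply `y ∈ P`, and by closedness (`f ≠ 0`:
  `y` with `f y = u` is a limit of such points) (1): `dist y x < r`, `f y ≤ u` imply `y ∈ P`.
  In the same way `y - v ∈ P` if `dist y x < r`, `f y ≥ u`.
  There is `v' ∈ M'`, `v' ≠ 0`, `x - v' ∈ P`: the points `y_n = x + (1/n) a` with `f a > 0` are not in `P`, they are in tiles of `M'`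
  with vectors `≠ 0`; `nbhd` for `M'`: the tile contains `x`. Fix such a `v'`.
  (2) `f ≥ u` on `P + v'`: if `z - v' ∈ P` and `f z < u`, the points `x + ε (z - x)` (small `ε > 0`) lie in `P + v'` (convex) and in
  `{f < u} ∩ ball x r`, which is an open subset of `P`, so in `interior P`. A point of `interior P` which is in
  the closed convex set `P + v'` = closure of its interior has points of `interior (P + v')` near it: contradiction to `disj`
  for `M'`.
  Let `F = {z ∈ P | z - v ∈ P}`, `F' = {z ∈ P | z - v' ∈ P}`, `H = {z ∈ P | f z = u}`. `F ⊆ H`, `F' ⊆ H` by (2).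
  `H ⊆ F`: let `z ∈ H`, `z ≠ x`; the point `z' = x - ε (z - x)` has `f z' = u`, is in `P` by (1) for small `ε > 0`, and
  `x ∈ openSegment z z'`, `x - v ∈ P`, so `z - v ∈ P` by `ext`. In the same way `H ⊆ F'` with `ext` of `M'`. So `F = F'`.
  `F` is mapped to itself by `z ↦ v - z` (`sym`: `v - z = -(z - v) ∈ P`, `v - z - v = -z ∈ P`) and by `z ↦ v' - z`, so by
  `z ↦ z + (v' - v)`; `x ∈ F`, so `x + n (v' - v) ∈ F ⊆ P` for all `n : ℕ`, `P` bounded: `v' = v`.
-/

set_option autoImplicit false

open Set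

namespace VorUnc

variable {d : ℕ} {P M M' : Set (Fin d → ℝ)}

theorem r10a_countable (h : Til P M) : M.Countable := by
  have h1 : M = ⋃ n : ℕ, {v | v ∈ M ∧ ‖v‖ ≤ n} := by
    ext v
    simp only [mem_iUnion]
    constructor
    · intro hv
      obtain ⟨n, hn⟩ := exists_nat_ge ‖v‖
      exact ⟨n, hv, hn⟩
    · rintro ⟨n, hv, -⟩
      exact hv
  rw [h1]
  exact countable_iUnion fun n => (h.fin n).countable

theorem Til.int (h : Til P M) : (interior P).Nonempty := by
  by_contra hcon
  have h1 : affineSpan ℝ P ≠ ⊤ := fun h2 =>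
    hcon ((h.conv.interior_nonempty_iff_affineSpan_eq_top).2 h2)
  have h2 : MeasureTheory.volume P = 0 := by
    refine MeasureTheory.measure_mono_null (subset_affineSpan ℝ P) ?_
    exact MeasureTheory.Measure.addHaar_affineSubspace _ _ h1
  have h3 : ∀ v ∈ M, MeasureTheory.volume ((fun x => x + -v) ⁻¹' P) = 0 := by
    intro v _
    rw [MeasureTheory.measure_preimage_add_right]
    exact h2
  have h4 : MeasureTheory.volume (⋃ v ∈ M, (fun x => x + -v) ⁻¹' P) = 0 :=
    (MeasureTheory.measure_biUnion_null_iff (r10a_countable h)).2 h3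
  have h5 : (⋃ v ∈ M, (fun x => x + -v) ⁻¹' P) = univ := by
    apply eq_univ_of_forall
    intro x
    obtain ⟨v, hv, hx⟩ := h.cover x
    refine mem_biUnion hv ?_
    show x + -v ∈ P
    rw [← sub_eq_add_neg]
    exact hx
  rw [h5] at h4
  have h6 := isOpen_univ.measure_pos MeasureTheory.volume (⟨0, mem_univ _⟩ : (univ : Set (Fin d → ℝ)).Nonempty)
  rw [h4] at h6
  exact lt_irrefl _ h6

theorem Til.nbhd (h : Til P M) (x : Fin d → ℝ) :
    ∃ r > (0:ℝ), ∀ y, dist y x < r → ∀ v ∈ M, y - v ∈ P → x - v ∈ P := by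
  obtain ⟨R, hR⟩ := h.comp.isBounded.exists_norm_le
  have hfin := h.fin (‖x‖ + 1 + R)
  have hev : ∀ᶠ y in nhds x, ∀ v ∈ {v | v ∈ M ∧ ‖v‖ ≤ ‖x‖ + 1 + R}, x - v ∉ P → y - v ∉ P := by
    rw [Filter.eventually_all_finite hfin]
    intro v _
    by_cases hxv : x - v ∈ P
    · exact Filter.Eventually.of_forall fun y hy => absurd hxv hy
    · have h1 : IsOpen ((fun y => y - v) ⁻¹' Pᶜ) :=
        h.comp.isClosed.isOpen_compl.preimage (continuous_id.sub continuous_const)
      have h2 : (fun y => y - v) ⁻¹' Pᶜ ∈ nhds x := h1.mem_nhds hxv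
      filter_upwards [h2] with y hy _
      exact hy
  obtain ⟨ε, hε, hball⟩ := Metric.eventually_nhds_iff.1 hev
  refine ⟨min ε 1, lt_min hε one_pos, fun y hy v hv hyv => ?_⟩
  by_contra hxv
  have hy1 : dist y x < ε := hy.trans_le (min_le_left _ _)
  have hy2 : dist y x < 1 := hy.trans_le (min_le_right _ _)
  refine hball hy1 v ⟨hv, ?_⟩ hxv hyv
  have h1 : ‖y - v‖ ≤ R := hR _ hyv
  have h2 : ‖y‖ ≤ ‖x‖ + 1 := by
    have h3 : ‖y‖ ≤ ‖x‖ + ‖y - x‖ := by
      have := norm_add_le x (y - x)
      rwa [add_sub_cancel] at this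
    rw [dist_eq_norm] at hy2
    linarith
  have h4 : ‖v‖ ≤ ‖y‖ + ‖y - v‖ := by
    have := norm_sub_le y (y - v)
    rwa [sub_sub_cancel] at this
  linarith

end VorUnc
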