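import Pool.Agent.Lib.MP_467880_co.R10a

/-!
# R10 (R10a = int, nbhd; R10b = facet): tilings: nonempty interior, facet vectors are determined by `P`

* `Til.int`: if `interior P = ∅` then `affineSpan ℝ P ≠ ⊤` (`Convex.interior_nonempty_iff_affineSpan_eq_top`), so
  `volume P = 0` (`MeasureTheory.Measure.addHaar_affineSubspace`); `M` is countable (`fin`: union over `n : ℕ` of finite
  sets), all translates have measure `0` (`measure_preimage_add`-like lemmas; the translate `{x | x - v ∈ P}` is contained in the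
  translated affine subspace, or use `MeasureTheory.measure_preimage_sub_right`), they cover `univ`, whose volume is not `0`.
* `Til.nbhd`: near `x` only the tiles containing `x` occur: `{v ∈ M | ‖v‖ ≤ R}` finite with `R = ‖x‖ + 1 + bound of P`; for
  those `v` with `x - v ∉ P` a neighbourhood of `x` misses the closed tile.
* `Til.facet`: PROOF. `P` has interior points (`Til.int`). By `disj` and Hahn-Banach (`geometric_hahn_banach_open_open`)
  there are a linear `f ≠ 0` and `u` with `f ≤ u` on `P` and `f ≥ u` on `P + v` (closures of interiors,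
  `Convex.closure_interior_eq_closure_of_nonempty_interior`); `f x = u`. By `nbhd` there is `r > 0` such that every `y` with
  `dist y x < r` lies in `P` or `P + v`. So `dist y x < r` and `f y < u` imply `y ∈ P`, and by closedness (`f ≠ 0`:
  `y` with `f y = u` is a limit of such points) (1): `dist y x < r`, `f y ≤ u` imply `y ∈ P`.
  In the same way `y - v ∈ P` if `dist y x < r`, `f y ≥ u`.
  There is `v' ∈ M'`, `v' ≠ 0`, `x - v' ∈ P`: the points `y_n = x + (1/n) a` with `f a > 0` are not in `P`, they are in tiles of `M'`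
  with vectors `≠ 0`; `nbhd` for `M'`: the tile contains `x`. Fix such a `v'`.
  (2) `f ≥ u` on `P + v'`: if `z - v' ∈ P` and `f z < u`, the points `x + ε (z - x)` (small `ε > 0`) lie in `P + v'` (convex) and in
  `{f < u} ∩ ball x r`, which is an open subset of `P`, so in `interior P`. A point of `interior P` which is in
  the closed convex set `P + v'` = closure of its interior has points of `interior (P + v')` near it: contradiction to `disj`
  for `M'`.
  Let `F = {z ∈ P | z - v ∈ P}`, `F' = {z ∈ P | z - v' ∈ P}`, `H = {z ∈ P | f z = u}`. `F ⊆ H`, `F' ⊆ H` by (2).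
  `H ⊆ F`: let `z ∈ H`, `z ≠ x`; the point `z' = x - ε (z - x)` has `f z' = u`, is in `P` by (1) for small `ε > 0`, and
  `x ∈ openSegment z z'`, `x - v ∈ P`, so `z - v ∈ P` by `ext`. In the same way `H ⊆ F'` with `ext` of `M'`. So `F = F'`.
  `F` is mapped to itself by `z ↦ v - z` (`sym`: `v - z = -(z - v) ∈ P`, `v - z - v = -z ∈ P`) and by `z ↦ v' - z`, so by
  `z ↦ z + (v' - v)`; `x ∈ F`, so `x + n (v' - v) ∈ F ⊆ P` for all `n : ℕ`, `P` bounded: `v' = v`.
-/

set_option autoImplicit false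

open Set

namespace VorUnc

variable {d : ℕ} {P M M' : Set (Fin d → ℝ)}

theorem R10b_closure (h : Til P M) {y : Fin d → ℝ} (hy : y ∈ P) : y ∈ closure (interior P) := by
  rw [h.conv.closure_interior_eq_closure_of_nonempty_interior h.int]
  exact subset_closure hy

/-- separation of two tiles -/
theorem R10b_sep (h : Til P M) {v : Fin d → ℝ} (hv : v ∈ M) (hv0 : v ≠ 0) :
    ∃ (f : (Fin d → ℝ) →L[ℝ] ℝ) (u : ℝ), (∀ y ∈ P, f y ≤ u) ∧ (∀ y, y - v ∈ P → u ≤ f y) ∧
      ∃ a, f a < 0 := by
  have hc : Convex ℝ (interior P) := h.conv.interior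
  have ho : IsOpen {y : Fin d → ℝ | y - v ∈ interior P} :=
    isOpen_interior.preimage (continuous_id.sub continuous_const)
  have hc' : Convex ℝ {y : Fin d → ℝ | y - v ∈ interior P} := by
    intro y hy z hz a b ha hb hab
    have h1 := hc hy hz ha hb hab
    have h2 : a • (y - v) + b • (z - v) = a • y + b • z - v := by
      have h3 : v = a • v + b • v := by rw [← add_smul, hab, one_smul]
      rw [smul_sub, smul_sub]
      nth_rewrite 3 [h3]
      abel
    rw [h2] at h1
    exact h1
  have hd : Disjoint (interior P) {y : Fin d → ℝ | y - v ∈ interior P} := by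
    rw [Set.disjoint_left]
    intro y hy hy'
    exact h.disj v hv hv0 y hy hy'
  obtain ⟨f, u, h1, h2⟩ := geometric_hahn_banach_open_open hc isOpen_interior hc' ho hd
  refine ⟨f, u, fun y hy => ?_, fun y hy => ?_, ?_⟩
  · have h3 : closure (interior P) ⊆ {y | f y ≤ u} :=
      closure_minimal (fun y hy => (h1 y hy).le) (isClosed_le f.continuous continuous_const)
    exact h3 (R10b_closure h hy)
  · have h3 : closure (interior P) ⊆ {y | u ≤ f (y + v)} := by
      refine closure_minimal (fun y hy => (h2 (y + v) ?_).le)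
        (isClosed_le continuous_const (f.continuous.comp (continuous_id.add continuous_const)))
      show y + v - v ∈ interior P
      rwa [add_sub_cancel_right]
    have h4 := h3 (R10b_closure h hy)
    rwa [mem_ofPred_eq, sub_add_cancel] at h4
  · obtain ⟨p, hp⟩ := h.int
    have h3 := h1 p hp
    have h4 := h2 (p + v) (by show p + v - v ∈ interior P; rwa [add_sub_cancel_right])
    refine ⟨p - (p + v), ?_⟩
    rw [map_sub]
    linarith

/-- small points -/
theorem R10b_small {r : ℝ} (hr : 0 < r) (x z : Fin d → ℝ) :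
    ∃ ε : ℝ, 0 < ε ∧ ε < 1 ∧ ∀ t : ℝ, |t| ≤ ε → dist (x + t • z) x < r := by
  have h0 : 0 ≤ ‖z‖ := norm_nonneg z
  refine ⟨min (1 / 2) (r / (2 * (‖z‖ + 1))), lt_min (by norm_num) (by positivity),
    lt_of_le_of_lt (min_le_left _ _) (by norm_num), fun t ht => ?_⟩
  have h1 : |t| ≤ r / (2 * (‖z‖ + 1)) := ht.trans (min_le_right _ _)
  rw [dist_eq_norm, add_sub_cancel_left, norm_smul, Real.norm_eq_abs]
  have h2 : |t| * ‖z‖ ≤ r / (2 * (‖z‖ + 1)) * ‖z‖ := mul_le_mul_of_nonneg_right h1 h0
  have h3 : r / (2 * (‖z‖ + 1)) * ‖z‖ ≤ r / 2 := by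
    rw [div_mul_eq_mul_div, div_le_div_iff₀ (by positivity) (by norm_num)]
    nlinarith
  linarith

/-- near `x` the half balls are in the two tiles -/
theorem R10b_half (h : Til P M) {v x : Fin d → ℝ} {f : (Fin d → ℝ) →L[ℝ] ℝ} {u : ℝ}
    (two : ∀ w ∈ M, x - w ∈ P → w = 0 ∨ w = v) (hf1 : ∀ y ∈ P, f y ≤ u)
    (hf2 : ∀ y, y - v ∈ P → u ≤ f y) {a : Fin d → ℝ} (ha : f a < 0) :
    ∃ r > (0:ℝ), ∀ y, dist y x < r → (f y ≤ u → y ∈ P) ∧ (u ≤ f y → y - v ∈ P) := by
  have hcl : IsClosed P := h.comp.isClosed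
  obtain ⟨r, hr, hn⟩ := h.nbhd x
  have hcase : ∀ y, dist y x < r → y ∈ P ∨ y - v ∈ P := by
    intro y hy
    obtain ⟨w, hw, hyw⟩ := h.cover y
    rcases two w hw (hn y hy w hw hyw) with h1 | h1
    · left
      rwa [h1, sub_zero] at hyw
    · right
      rwa [h1] at hyw
  have hlt1 : ∀ y, dist y x < r → f y < u → y ∈ P := by
    intro y hy hfy
    rcases hcase y hy with h1 | h1
    · exact h1
    · exact absurd (hf2 y h1) (not_le.mpr hfy)
  have hlt2 : ∀ y, dist y x < r → u < f y → y - v ∈ P := by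
    intro y hy hfy
    rcases hcase y hy with h1 | h1
    · exact absurd (hf1 y h1) (not_le.mpr hfy)
    · exact h1
  -- moving a little
  have hmove : ∀ y, dist y x < r → ∀ b : Fin d → ℝ,
      Filter.Tendsto (fun t : ℝ => y + t • b) (nhdsWithin 0 (Ioi 0)) (nhds y) ∧
      ∀ᶠ t in nhdsWithin (0 : ℝ) (Ioi 0), 0 < t ∧ dist (y + t • b) x < r := by
    intro y hy b
    have h1 : Continuous (fun t : ℝ => y + t • b) :=
      continuous_const.add (continuous_id.smul continuous_const)
    have h2 : Filter.Tendsto (fun t : ℝ => y + t • b) (nhds 0) (nhds y) := by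
      have h3 := h1.tendsto 0
      rwa [zero_smul, add_zero] at h3
    have h3 : Filter.Tendsto (fun t : ℝ => y + t • b) (nhdsWithin 0 (Ioi 0)) (nhds y) :=
      h2.mono_left nhdsWithin_le_nhds
    refine ⟨h3, ?_⟩
    have h4 : ∀ᶠ z in nhds y, dist z x < r :=
      (isOpen_lt (continuous_id.dist continuous_const) continuous_const).mem_nhds hy
    filter_upwards [h3.eventually h4, self_mem_nhdsWithin] with t ht ht'
    exact ⟨ht', ht⟩
  refine ⟨r, hr, fun y hy => ⟨fun hfy => ?_, fun hfy => ?_⟩⟩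
  · obtain ⟨h1, h2⟩ := hmove y hy a
    refine hcl.mem_of_tendsto h1 (h2.mono fun t ht => hlt1 _ ht.2 ?_)
    rw [map_add, map_smul, smul_eq_mul]
    nlinarith [ht.1]
  · obtain ⟨h1, h2⟩ := hmove y hy (-a)
    have h3 : Filter.Tendsto (fun t : ℝ => y + t • (-a) - v) (nhdsWithin 0 (Ioi 0))
        (nhds (y - v)) := h1.sub_const v
    refine hcl.mem_of_tendsto h3 (h2.mono fun t ht => hlt2 _ ht.2 ?_)
    rw [map_add, map_smul, map_neg, smul_eq_mul]
    nlinarith [ht.1]

/-- points of the hyperplane lie in the facet -/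
theorem R10b_ext (h : Til P M) {v x : Fin d → ℝ} {f : (Fin d → ℝ) →L[ℝ] ℝ} {u r : ℝ}
    (hv : v ∈ M) (hxv : x - v ∈ P) (hfx : f x = u) (hr : 0 < r)
    (hb : ∀ y, dist y x < r → f y ≤ u → y ∈ P) {z : Fin d → ℝ} (hz : z ∈ P) (hfz : f z = u) :
    z - v ∈ P := by
  obtain ⟨ε, hε, hε1, hs⟩ := R10b_small hr x (z - x)
  have h1 : dist (x + (-ε) • (z - x)) x < r := hs (-ε) (by rw [abs_neg, abs_of_pos hε])
  have h2 : f (x + (-ε) • (z - x)) = u := by
    rw [map_add, map_smul, map_sub, hfx, hfz, sub_self, smul_zero, add_zero]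
  have h3 := hb _ h1 h2.le
  refine h.ext v hv z hz _ h3 x ?_ hxv
  refine ⟨ε / (1 + ε), 1 / (1 + ε), by positivity, by positivity,
    by field_simp; ring, ?_⟩
  ext i
  simp only [Pi.add_apply, Pi.smul_apply, Pi.sub_apply, smul_eq_mul]
  field_simp
  ring

theorem Til.facet (h : Til P M) (h' : Til P M') (sym : ∀ x ∈ P, -x ∈ P) {v : Fin d → ℝ}
    (hv : v ∈ M) (hv0 : v ≠ 0) {x : Fin d → ℝ} (hx : x ∈ P) (hxv : x - v ∈ P)
    (two : ∀ w ∈ M, x - w ∈ P → w = 0 ∨ w = v) : v ∈ M' := by
  obtain ⟨f, u, hf1, hf2, a, ha⟩ := R10b_sep h hv hv0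
  have hcl : IsClosed P := h.comp.isClosed
  have hfx : f x = u := le_antisymm (hf1 x hx) (hf2 x hxv)
  obtain ⟨r, hr, hhalf⟩ := R10b_half h two hf1 hf2 ha
  -- the vector of the second tiling
  obtain ⟨v', hv', hv'0, hxv'⟩ : ∃ v' ∈ M', v' ≠ 0 ∧ x - v' ∈ P := by
    obtain ⟨r', hr', hn'⟩ := h'.nbhd x
    obtain ⟨ε, hε, _, hs⟩ := R10b_small hr' x (-a)
    have h1 : dist (x + ε • (-a)) x < r' := hs ε (by rw [abs_of_pos hε])
    obtain ⟨w, hw, hyw⟩ := h'.cover (x + ε • (-a))
    refine ⟨w, hw, ?_, hn' _ h1 w hw hyw⟩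
    rintro rfl
    rw [sub_zero] at hyw
    have h2 := hf1 _ hyw
    rw [map_add, map_smul, map_neg, hfx, smul_eq_mul] at h2
    nlinarith
  -- the second tile is on the other side
  have hf3 : ∀ z, z - v' ∈ P → u ≤ f z := by
    intro z hz
    by_contra hlt
    push Not at hlt
    obtain ⟨ε, hε, hε1, hs⟩ := R10b_small hr x (z - x)
    have h1 : dist (x + ε • (z - x)) x < r := hs ε (by rw [abs_of_pos hε])
    have h2 : f (x + ε • (z - x)) < u := by
      rw [map_add, map_smul, map_sub, hfx, smul_eq_mul]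
      nlinarith
    have hO : IsOpen {y : Fin d → ℝ | f y < u ∧ dist y x < r} :=
      (isOpen_lt f.continuous continuous_const).inter
        (isOpen_lt (continuous_id.dist continuous_const) continuous_const)
    have h3 : x + ε • (z - x) ∈ interior P := by
      refine mem_interior.mpr ⟨_, fun y hy => (hhalf y hy.2).1 hy.1.le, hO, h2, h1⟩
    have h4 : x + ε • (z - x) - v' ∈ P := by
      have h5 := h.conv hxv' hz (show 0 ≤ 1 - ε by linarith) hε.le (by ring)
      convert h5 using 1
      ext i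
      simp only [Pi.add_apply, Pi.smul_apply, Pi.sub_apply, smul_eq_mul]
      ring
    have h5 := R10b_closure h h4
    have hO' : IsOpen {y : Fin d → ℝ | y + v' ∈ interior P} :=
      isOpen_interior.preimage (continuous_id.add continuous_const)
    obtain ⟨w, hw1, hw2⟩ := mem_closure_iff.mp h5 _ hO'
      (by show x + ε • (z - x) - v' + v' ∈ interior P; rwa [sub_add_cancel])
    refine h'.disj v' hv' hv'0 (w + v') hw1 ?_
    rwa [add_sub_cancel_right]
  have H1 : ∀ z ∈ P, f z = u → z - v ∈ P := fun z hz hfz =>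
    R10b_ext h hv hxv hfx hr (fun y hy => (hhalf y hy).1) hz hfz
  have H2 : ∀ z ∈ P, f z = u → z - v' ∈ P := fun z hz hfz =>
    R10b_ext h' hv' hxv' hfx hr (fun y hy => (hhalf y hy).1) hz hfz
  -- translation invariance
  have step : ∀ z ∈ P, f z = u → z + (v' - v) ∈ P ∧ f (z + (v' - v)) = u := by
    intro z hz hfz
    have h1 : v - z ∈ P := by
      have := sym _ (H1 z hz hfz)
      rwa [neg_sub] at this
    have h2 : f (v - z) = u := by
      refine le_antisymm (hf1 _ h1) (hf2 _ ?_)
      rw [sub_sub_cancel_left]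
      exact sym z hz
    have h3 : v' - (v - z) ∈ P := by
      have := sym _ (H2 _ h1 h2)
      rwa [neg_sub] at this
    have h4 : f (v' - (v - z)) = u := by
      refine le_antisymm (hf1 _ h3) (hf3 _ ?_)
      rw [sub_sub_cancel_left]
      exact sym _ h1
    have h5 : v' - (v - z) = z + (v' - v) := by abel
    rw [h5] at h3 h4
    exact ⟨h3, h4⟩
  have iter : ∀ n : ℕ, x + (n : ℝ) • (v' - v) ∈ P ∧ f (x + (n : ℝ) • (v' - v)) = u := by
    intro n
    induction n with
    | zero =>
      rw [Nat.cast_zero, zero_smul, add_zero]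
      exact ⟨hx, hfx⟩
    | succ n ih =>
      have h1 := step _ ih.1 ih.2
      have h2 : x + (n : ℝ) • (v' - v) + (v' - v) = x + ((n + 1 : ℕ) : ℝ) • (v' - v) := by
        push_cast
        rw [add_smul, one_smul, add_assoc]
      rwa [h2] at h1
  obtain ⟨R, hR⟩ := h.comp.isBounded.exists_norm_le
  have hzero : v' - v = 0 := by
    by_contra hne
    have hpos : 0 < ‖v' - v‖ := norm_pos_iff.mpr hne
    obtain ⟨n, hn⟩ := exists_nat_gt ((R + ‖x‖) / ‖v' - v‖)
    rw [div_lt_iff₀ hpos] at hn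
    have h1 := hR _ (iter n).1
    have h2 : ‖(n : ℝ) • (v' - v)‖ ≤ ‖x + (n : ℝ) • (v' - v)‖ + ‖x‖ := by
      have h3 : (n : ℝ) • (v' - v) = (x + (n : ℝ) • (v' - v)) - x := by abel
      calc ‖(n : ℝ) • (v' - v)‖ = ‖(x + (n : ℝ) • (v' - v)) - x‖ := by rw [← h3]
        _ ≤ _ := norm_sub_le _ _
    rw [norm_smul, Real.norm_natCast] at h2
    linarith
  rw [sub_eq_zero] at hzero
  rw [← hzero]
  exact hv'

end VorUnc
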