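import Pool.Agent.Lib.MP_467880_co.R10a

/-!
# R11 (R11a = sep; R11b = gen, unique): the facet vectors generate the lattice; uniqueness of the face-to-face tiling

* `Til.sep`: for `u ≠ w` in `M` there are a continuous linear `f ≠ 0` and `t` with `f ≤ t` on `P + u` and `t ≤ f` on
  `P + w` (Hahn-Banach for the interiors, which are disjoint by `disj` for the vector `w - u`; closures;
  `Til.int`).
* `Til.gen`: suppose `w0 ∈ M`, `w0 ∉ M0`. Choose (`choose`) `f u w`, `t u w` as in `sep` for all `u ≠ w` in `M`. Fix
  `a ∈ interior P`. For quadruples `(u, w, u', w')` in `M` such that `f = f u w`, `f' = f u' w'` are linearly independent choose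
  `(α, β) ≠ 0` with `α (t u w - f a) + β (t u' w' - f' a) = 0` and put `g = α f + β f' ≠ 0`. The hyperplane
  `G = {y | g y = g a}` has measure zero (`MeasureTheory.Measure.addHaar_affineSubspace`, or `addHaar_submodule` for `ker g` translated);
  there are countably many quadruples (`M` countable). So there is `b` with `b - w0 ∈ interior P` and `b` outside of all these
  `G` (a nonempty open set has positive measure).
  Let `γ s = a + s (b - a)`, `s ∈ [0,1]`. `U0` = union of the tiles with vectors in `M ∩ M0`, `U1` = union of the tiles with vectors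
  in `M \ M0`; both are closed (`Til.nbhd`: the complement is open, since near `x` only tiles containing `x` occur) and
  cover everything, `γ 0 ∈ U0` (`0 ∈ M0`), `γ 1 ∈ U1`. By connectedness of `[0,1]` (`isPreconnected_closed_iff`) there is `s` with
  `x = γ s` in both: `x - v ∈ P`, `v ∈ M ∩ M0`, `x - w ∈ P`, `w ∈ M \ M0`.
  CLAIM: no third tile contains `x`. Suppose `x - u ∈ P`, `u ∈ M`, `u ≠ v, w`. Then `x` lies on the three
  separating hyperplanes: `f v w x = t v w`, etc. If two of the functionals `f v w, f v u, f w u` are linearly independent, then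
  `g x = α t + β t' = g a` for the corresponding `g` and `G`, with `x = a + s (b - a)`: `s (g b - g a) = 0`, so `s = 0`,
  `x = a ∈ interior P`; but `a` is in no tile other than `P` (a point of `interior P` in the closed tile `P + w`, which is the closure of
  its interior, contradicts `disj`), and `v ≠ w`. If no two are linearly independent: `f v u = κ f v w`,
  `f w u = κ' f v w`, `κ, κ' ≠ 0`, all three hyperplanes equal `H = {f = t}`, `f = f v w`, `P + v ⊆ {f ≤ t}`,
  `P + w ⊆ {f ≥ t}`; `κ > 0` (otherwise `P + v ⊆ {f ≥ t}`, so `P + v ⊆ H`, no interior), so `P + u ⊆ {f ≥ t}`; `κ' > 0` gives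
  `P + w ⊆ {f ≤ t}`, contradiction; `κ' < 0` gives `P + u ⊆ {f ≤ t}`, contradiction.
  So the vector `w - v ∈ M` with the point `x - v ∈ P` satisfies the hypothesis of `facets`, `w - v ∈ M0`, `w = v + (w - v) ∈ M0`:
  contradiction.
* `Til.unique`: `gen` with `M0 = M'`, `facet`.
-/

set_option autoImplicit false

open Set

namespace VorUnc

variable {d : ℕ} {P M M' : Set (Fin d → ℝ)}

theorem Til.sep (h : Til P M) {u w : Fin d → ℝ} (hu : u ∈ M) (hw : w ∈ M) (huw : u ≠ w) :
    ∃ (f : (Fin d → ℝ) →L[ℝ] ℝ) (t : ℝ), f ≠ 0 ∧ (∀ x, x - u ∈ P → f x ≤ t) ∧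
      ∀ x, x - w ∈ P → t ≤ f x := by
  have hc := h.conv.interior
  obtain ⟨p, hp⟩ := h.int
  have hP : P ⊆ closure (interior P) := by
    rw [h.conv.closure_interior_eq_closure_of_nonempty_interior ⟨p, hp⟩]
    exact subset_closure
  have conv : ∀ v : Fin d → ℝ, Convex ℝ ((fun x => x - v) ⁻¹' interior P) := by
    intro v
    have := hc.translate_preimage_left (-v)
    simpa only [sub_eq_add_neg] using this
  have op : ∀ v : Fin d → ℝ, IsOpen ((fun x => x - v) ⁻¹' interior P) := fun v =>
    isOpen_interior.preimage (by fun_prop)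
  have hdis : Disjoint ((fun x => x - u) ⁻¹' interior P) ((fun x => x - w) ⁻¹' interior P) := by
    rw [Set.disjoint_left]
    intro x hx1 hx2
    have h1 : w - u ∈ M := by
      rw [sub_eq_add_neg]
      exact h.add _ hw _ (h.neg _ hu)
    refine h.disj (w - u) h1 (sub_ne_zero.2 huw.symm) (x - u) hx1 ?_
    have h2 : x - u - (w - u) = x - w := by abel
    rw [h2]
    exact hx2
  obtain ⟨f, t, h1, h2⟩ := geometric_hahn_banach_open_open (conv u) (op u) (conv w) (op w) hdis
  refine ⟨f, t, ?_, ?_, ?_⟩
  · rintro rfl
    have h3 := h1 (p + u) (by simpa using hp)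
    have h4 := h2 (p + w) (by simpa using hp)
    simp only [ContinuousLinearMap.zero_apply] at h3 h4
    linarith
  · intro x hx
    have h3 : closure (interior P) ⊆ {y | f (y + u) ≤ t} := by
      refine closure_minimal (fun y hy => ?_) (isClosed_le (by fun_prop) continuous_const)
      exact (h1 (y + u) (by simpa using hy)).le
    have h4 := h3 (hP hx)
    simpa using h4
  · intro x hx
    have h3 : closure (interior P) ⊆ {y | t ≤ f (y + w)} := by
      refine closure_minimal (fun y hy => ?_) (isClosed_le continuous_const (by fun_prop))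
      exact (h2 (y + w) (by simpa using hy)).le
    have h4 := h3 (hP hx)
    simpa using h4

end VorUnc
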