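import Pool.Agent.Lib.MP_467880_co.R10b
import Pool.Agent.Lib.MP_467880_co.R11a

/-!
# R11 (R11a = sep; R11b = gen, unique): the facet vectors generate the lattice; uniqueness of the face-to-face tiling

* `Til.sep`: for `u ≠ w` in `M` there are a continuous linear `f ≠ 0` and `t` with `f ≤ t` on `P + u` and `t ≤ f` on
  `P + w` (Hahn-Banach for the interiors, which are disjoint by `disj` for the vector `w - u`; closures;
  `Til.int`).
* `Til.gen`: suppose `w0 ∈ M`, `w0 ∉ M0`. Choose (`choose`) `f u w`, `t u w` as in `sep` for all `u ≠ w` in `M`. Fix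
  `a ∈ interior P`. For quadruples `(u, w, u', w')` in `M` such that `f = f u w`, `f' = f u' w'` are linearly independent choose
  `(α, β) ≠ 0` with `α (t u w - f a) + β (t u' w' - f' a) = 0` and put `g = α f + β f' ≠ 0`. The hyperplane
  `G = {y | g y = g a}` has measure zero (`MeasureTheory.Measure.addHaar_affineSubspace`, or `addHaar_submodule` for `ker g` translated);
  there are countably many quadruples (`M` countable). So there is `b` with `b - w0 ∈ interior P` and `b` outside of all these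
  `G` (a nonempty open set has positive measure).
  Let `γ s = a + s (b - a)`, `s ∈ [0,1]`. `U0` = union of the tiles with vectors in `M ∩ M0`, `U1` = union of the tiles with vectors
  in `M \ M0`; both are closed (`Til.nbhd`: the complement is open, since near `x` only tiles containing `x` occur) and
  cover everything, `γ 0 ∈ U0` (`0 ∈ M0`), `γ 1 ∈ U1`. By connectedness of `[0,1]` (`isPreconnected_closed_iff`) there is `s` with
  `x = γ s` in both: `x - v ∈ P`, `v ∈ M ∩ M0`, `x - w ∈ P`, `w ∈ M \ M0`.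
  CLAIM: no third tile contains `x`. Suppose `x - u ∈ P`, `u ∈ M`, `u ≠ v, w`. Then `x` lies on the three
  separating hyperplanes: `f v w x = t v w`, etc. If two of the functionals `f v w, f v u, f w u` are linearly independent, then
  `g x = α t + β t' = g a` for the corresponding `g` and `G`, with `x = a + s (b - a)`: `s (g b - g a) = 0`, so `s = 0`,
  `x = a ∈ interior P`; but `a` is in no tile other than `P` (a point of `interior P` in the closed tile `P + w`, which is the closure of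
  its interior, contradicts `disj`), and `v ≠ w`. If no two are linearly independent: `f v u = κ f v w`,
  `f w u = κ' f v w`, `κ, κ' ≠ 0`, all three hyperplanes equal `H = {f = t}`, `f = f v w`, `P + v ⊆ {f ≤ t}`,
  `P + w ⊆ {f ≥ t}`; `κ > 0` (otherwise `P + v ⊆ {f ≥ t}`, so `P + v ⊆ H`, no interior), so `P + u ⊆ {f ≥ t}`; `κ' > 0` gives
  `P + w ⊆ {f ≤ t}`, contradiction; `κ' < 0` gives `P + u ⊆ {f ≤ t}`, contradiction.
  So the vector `w - v ∈ M` with the point `x - v ∈ P` satisfies the hypothesis of `facets`, `w - v ∈ M0`, `w = v + (w - v) ∈ M0`: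
  contradiction.
* `Til.unique`: `gen` with `M0 = M'`, `facet`.
-/

set_option autoImplicit false

open Set

namespace VorUnc

variable {d : ℕ} {P M M' : Set (Fin d → ℝ)}

theorem R11b_countable (h : Til P M) : M.Countable := by
  have h1 : M ⊆ ⋃ n : ℕ, {v | v ∈ M ∧ ‖v‖ ≤ n} := by
    intro v hv
    obtain ⟨n, hn⟩ := exists_nat_ge ‖v‖
    exact mem_iUnion.mpr ⟨n, hv, hn⟩
  exact (countable_iUnion fun n : ℕ => (h.fin n).countable).mono h1

/-- a level set of a nonzero functional is null -/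
theorem R11b_null (g : (Fin d → ℝ) →L[ℝ] ℝ) (hg : g ≠ 0) (a : Fin d → ℝ) :
    MeasureTheory.volume {y : Fin d → ℝ | g y = g a} = 0 := by
  have h1 : {y : Fin d → ℝ | g y = g a} =
      (fun y => y + (-a)) ⁻¹' ((LinearMap.ker (g : (Fin d → ℝ) →ₗ[ℝ] ℝ) :
        Submodule ℝ (Fin d → ℝ)) : Set (Fin d → ℝ)) := by
    ext y
    show g y = g a ↔ g (y + -a) = 0
    rw [map_add, map_neg, ← sub_eq_add_neg, sub_eq_zero]
  rw [h1, MeasureTheory.measure_preimage_add_right]
  refine MeasureTheory.Measure.addHaar_submodule _ _ fun h2 => hg ?_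
  refine ContinuousLinearMap.ext fun y => ?_
  have h3 : y ∈ LinearMap.ker (g : (Fin d → ℝ) →ₗ[ℝ] ℝ) := by
    rw [h2]
    exact Submodule.mem_top
  exact h3

/-- a generic end point -/
theorem R11b_generic {ι : Type} [Countable ι] (f : ι → (Fin d → ℝ) →L[ℝ] ℝ) (t : ι → ℝ)
    (hf : ∀ i, f i ≠ 0) {O : Set (Fin d → ℝ)} (hO : IsOpen O) (hne : O.Nonempty)
    (a : Fin d → ℝ) :
    ∃ b ∈ O, ∀ i j, ∀ s : ℝ, s ≠ 0 → f i (a + s • (b - a)) = t i →
      f j (a + s • (b - a)) = t j → ∃ κ : ℝ, f j = κ • f i := by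
  classical
  have hbad : ∀ p : ι × ι, ∃ G : Set (Fin d → ℝ), MeasureTheory.volume G = 0 ∧
      ((¬ ∃ κ : ℝ, f p.2 = κ • f p.1) → ∀ b, ∀ s : ℝ, s ≠ 0 →
        f p.1 (a + s • (b - a)) = t p.1 → f p.2 (a + s • (b - a)) = t p.2 → b ∈ G) := by
    rintro ⟨i, j⟩
    by_cases hij : ∃ κ : ℝ, f j = κ • f i
    · exact ⟨∅, by simp, fun h1 => absurd hij h1⟩
    obtain ⟨α, β, hαβ, hrel⟩ : ∃ α β : ℝ, (α ≠ 0 ∨ β ≠ 0) ∧
        α * (t i - f i a) + β * (t j - f j a) = 0 := by
      by_cases h1 : t i - f i a = 0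
      · exact ⟨1, 0, Or.inl one_ne_zero, by rw [h1]; ring⟩
      · exact ⟨t j - f j a, -(t i - f i a), Or.inr (neg_ne_zero.mpr h1), by ring⟩
    have hg : α • f i + β • f j ≠ 0 := by
      intro h1
      by_cases hβ : β = 0
      · rw [hβ, zero_smul, add_zero] at h1
        rcases hαβ with h2 | h2
        · exact hf i ((smul_eq_zero.mp h1).resolve_left h2)
        · exact h2 hβ
      · refine hij ⟨-(α / β), ?_⟩
        have h2 : β • f j = -(α • f i) := (eq_neg_of_add_eq_zero_right h1)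
        have h3 : f j = β⁻¹ • (β • f j) := by rw [smul_smul, inv_mul_cancel₀ hβ, one_smul]
        rw [h3, h2]
        refine ContinuousLinearMap.ext fun y => ?_
        show β⁻¹ * -(α * f i y) = -(α / β) * f i y
        field_simp
    refine ⟨{y | (α • f i + β • f j) y = (α • f i + β • f j) a}, R11b_null _ hg a,
      fun _ b s hs h1 h2 => ?_⟩
    have h3 : s * (α * (f i b - f i a) + β * (f j b - f j a)) = 0 := by
      rw [map_add, map_smul, map_sub, smul_eq_mul] at h1 h2
      linear_combination α * h1 + β * h2 + hrel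
    have h4 := (mul_eq_zero.mp h3).resolve_left hs
    show α * f i b + β * f j b = α * f i a + β * f j a
    linarith
  choose G hG0 hG using hbad
  have hnull : MeasureTheory.volume (⋃ p, G p) = 0 :=
    MeasureTheory.measure_iUnion_null hG0
  have hpos : 0 < MeasureTheory.volume O := hO.measure_pos MeasureTheory.volume hne
  obtain ⟨b, hb, hb'⟩ : ∃ b ∈ O, b ∉ ⋃ p, G p := by
    by_contra hcon
    push Not at hcon
    have h1 : MeasureTheory.volume O ≤ MeasureTheory.volume (⋃ p, G p) :=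
      MeasureTheory.measure_mono hcon
    rw [hnull] at h1
    exact absurd hpos (not_lt.mpr h1)
  refine ⟨b, hb, fun i j s hs h1 h2 => ?_⟩
  by_contra h3
  exact hb' (mem_iUnion.mpr ⟨(i, j), hG (i, j) h3 b s hs h1 h2⟩)

/-- a tile is not flat -/
theorem R11b_flat (h : Til P M) {f : (Fin d → ℝ) →L[ℝ] ℝ} (hf : f ≠ 0) (p : Fin d → ℝ) (t : ℝ)
    (hflat : ∀ y, y - p ∈ P → f y = t) : False := by
  obtain ⟨y0, hy0⟩ := h.int
  obtain ⟨e, he⟩ : ∃ e, f e ≠ 0 := by
    by_contra hcon
    push Not at hcon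
    exact hf (ContinuousLinearMap.ext hcon)
  obtain ⟨r, hr, hball⟩ := Metric.isOpen_iff.mp isOpen_interior y0 hy0
  obtain ⟨ε, hε, _, hs⟩ := R10b_small hr y0 e
  have h1 : y0 + ε • e ∈ P :=
    interior_subset (hball (by rw [Metric.mem_ball]; exact hs ε (by rw [abs_of_pos hε])))
  have h2 := hflat (y0 + ε • e + p) (by rwa [add_sub_cancel_right])
  have h3 := hflat (y0 + p) (by rw [add_sub_cancel_right]; exact interior_subset hy0)
  rw [map_add, map_add, map_smul, smul_eq_mul] at h2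
  rw [map_add] at h3
  have h4 : ε * f e = 0 := by linarith
  exact he ((mul_eq_zero.mp h4).resolve_left hε.ne')

/-- an interior point of `P` is in no other tile -/
theorem R11b_int (h : Til P M) {a w : Fin d → ℝ} (ha : a ∈ interior P) (hw : w ∈ M)
    (haw : a - w ∈ P) : w = 0 := by
  by_contra hw0
  have h5 := R10b_closure h haw
  have hO' : IsOpen {y : Fin d → ℝ | y + w ∈ interior P} :=
    isOpen_interior.preimage (continuous_id.add continuous_const)
  obtain ⟨z, hz1, hz2⟩ := mem_closure_iff.mp h5 _ hO'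
    (by show a - w + w ∈ interior P; rwa [sub_add_cancel])
  refine h.disj w hw hw0 (z + w) hz1 ?_
  rwa [add_sub_cancel_right]

theorem Til.gen (h : Til P M) {M0 : Set (Fin d → ℝ)} (h0 : (0 : Fin d → ℝ) ∈ M0)
    (hadd : ∀ v ∈ M0, ∀ w ∈ M0, v + w ∈ M0)
    (facets : ∀ v ∈ M, v ≠ 0 → ∀ x ∈ P, x - v ∈ P → (∀ w ∈ M, x - w ∈ P → w = 0 ∨ w = v) →
      v ∈ M0) : M ⊆ M0 := by
  intro w0 hw0
  by_contra hw0'
  obtain ⟨a, ha⟩ := h.int
  -- the separating functionals
  have hM : M.Countable := R11b_countable h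
  let ι : Type := {p : (Fin d → ℝ) × (Fin d → ℝ) // p.1 ∈ M ∧ p.2 ∈ M ∧ p.1 ≠ p.2}
  have hι : Countable ι := by
    have h1 : {p : (Fin d → ℝ) × (Fin d → ℝ) | p.1 ∈ M ∧ p.2 ∈ M ∧ p.1 ≠ p.2}.Countable :=
      Set.Countable.mono (fun p hp => Set.mem_prod.mpr ⟨hp.1, hp.2.1⟩) (hM.prod hM)
    exact h1.to_subtype
  have hsep : ∀ p : ι, ∃ (f : (Fin d → ℝ) →L[ℝ] ℝ) (t : ℝ), f ≠ 0 ∧
      (∀ x, x - p.1.1 ∈ P → f x ≤ t) ∧ ∀ x, x - p.1.2 ∈ P → t ≤ f x :=
    fun p => h.sep p.2.1 p.2.2.1 p.2.2.2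
  choose f t hf0 hf1 hf2 using hsep
  have hO : IsOpen {y : Fin d → ℝ | y - w0 ∈ interior P} :=
    isOpen_interior.preimage (continuous_id.sub continuous_const)
  obtain ⟨b, hb, hgen⟩ := R11b_generic f t hf0 hO
    ⟨a + w0, by show a + w0 - w0 ∈ interior P; rwa [add_sub_cancel_right]⟩ a
  -- the two closed sets
  have hcl : ∀ N : Set (Fin d → ℝ), IsClosed {y | ∃ v ∈ M, v ∈ N ∧ y - v ∈ P} := by
    intro N
    rw [← isOpen_compl_iff, Metric.isOpen_iff]
    intro y hy
    obtain ⟨r, hr, hn⟩ := h.nbhd y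
    refine ⟨r, hr, fun z hz hz' => hy ?_⟩
    obtain ⟨v, hv, hvN, hzv⟩ := hz'
    exact ⟨v, hv, hvN, hn z hz v hv hzv⟩
  have hγ : Continuous (fun s : ℝ => a + s • (b - a)) :=
    continuous_const.add (continuous_id.smul continuous_const)
  have hpre := isPreconnected_closed_iff.mp (isPreconnected_Icc (a := (0 : ℝ)) (b := 1))
    _ _ ((hcl M0).preimage hγ) ((hcl M0ᶜ).preimage hγ)
    (by
      intro s _
      obtain ⟨v, hv, hsv⟩ := h.cover (a + s • (b - a))
      by_cases hv0 : v ∈ M0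
      · exact Or.inl ⟨v, hv, hv0, hsv⟩
      · exact Or.inr ⟨v, hv, hv0, hsv⟩)
    ⟨0, ⟨le_rfl, zero_le_one⟩, 0, h.zero, h0, by
      show a + (0 : ℝ) • (b - a) - 0 ∈ P
      rw [zero_smul, add_zero, sub_zero]
      exact interior_subset ha⟩
    ⟨1, ⟨zero_le_one, le_rfl⟩, w0, hw0, hw0', by
      show a + (1 : ℝ) • (b - a) - w0 ∈ P
      rw [one_smul, add_sub_cancel]
      exact interior_subset hb⟩
  obtain ⟨s, -, ⟨v, hv, hv0, hxv0⟩, ⟨w, hw, hwM0, hxw0⟩⟩ := hpre
  obtain ⟨x, hx⟩ : ∃ x, x = a + s • (b - a) := ⟨_, rfl⟩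
  have hxv : x - v ∈ P := by rw [hx]; exact hxv0
  have hxw : x - w ∈ P := by rw [hx]; exact hxw0
  clear hxv0 hxw0
  have hvw : v ≠ w := by
    rintro rfl
    exact hwM0 hv0
  have hs : s ≠ 0 := by
    rintro rfl
    rw [zero_smul, add_zero] at hx
    rw [hx] at hxv hxw
    exact hvw ((R11b_int h ha hv hxv).trans (R11b_int h ha hw hxw).symm)
  -- no third tile
  have claim : ∀ u ∈ M, x - u ∈ P → u = v ∨ u = w := by
    intro u hu hxu
    by_contra hcon
    push Not at hcon
    obtain ⟨huv, huw⟩ := hcon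
    have hval : ∀ p : ι, x - p.1.1 ∈ P → x - p.1.2 ∈ P → f p x = t p := fun p h1 h2 =>
      le_antisymm (hf1 p x h1) (hf2 p x h2)
    let p1 : ι := ⟨(v, w), hv, hw, hvw⟩
    let p2 : ι := ⟨(v, u), hv, hu, huv.symm⟩
    let p3 : ι := ⟨(w, u), hw, hu, huw.symm⟩
    have e1 : f p1 x = t p1 := hval p1 hxv hxw
    have e2 : f p2 x = t p2 := hval p2 hxv hxu
    have e3 : f p3 x = t p3 := hval p3 hxw hxu
    obtain ⟨κ, hκ⟩ := hgen p1 p2 s hs (by rw [← hx]; exact e1) (by rw [← hx]; exact e2)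
    obtain ⟨κ', hκ'⟩ := hgen p1 p3 s hs (by rw [← hx]; exact e1) (by rw [← hx]; exact e3)
    have hκ0 : κ ≠ 0 := by
      rintro rfl
      rw [zero_smul] at hκ
      exact hf0 p2 hκ
    have hκ0' : κ' ≠ 0 := by
      rintro rfl
      rw [zero_smul] at hκ'
      exact hf0 p3 hκ'
    have t2 : t p2 = κ * t p1 := by
      rw [← e2, ← e1, hκ]
      rfl
    have t3 : t p3 = κ' * t p1 := by
      rw [← e3, ← e1, hκ']
      rfl
    have a1 : ∀ y, y - v ∈ P → f p1 y ≤ t p1 := fun y hy => hf1 p1 y hy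
    have a2 : ∀ y, y - w ∈ P → t p1 ≤ f p1 y := fun y hy => hf2 p1 y hy
    have b1 : ∀ y, y - v ∈ P → κ * f p1 y ≤ κ * t p1 := fun y hy => by
      have h1 := hf1 p2 y hy
      rw [t2, hκ] at h1
      exact h1
    have b2 : ∀ y, y - u ∈ P → κ * t p1 ≤ κ * f p1 y := fun y hy => by
      have h1 := hf2 p2 y hy
      rw [t2, hκ] at h1
      exact h1
    have c1 : ∀ y, y - w ∈ P → κ' * f p1 y ≤ κ' * t p1 := fun y hy => by
      have h1 := hf1 p3 y hy
      rw [t3, hκ'] at h1
      exact h1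
    have c2 : ∀ y, y - u ∈ P → κ' * t p1 ≤ κ' * f p1 y := fun y hy => by
      have h1 := hf2 p3 y hy
      rw [t3, hκ'] at h1
      exact h1
    rcases lt_or_gt_of_ne hκ0 with h1 | h1
    · exact R11b_flat h (hf0 p1) v (t p1) fun y hy =>
        le_antisymm (a1 y hy) ((mul_le_mul_left_of_neg h1).mp (b1 y hy))
    · rcases lt_or_gt_of_ne hκ0' with h2 | h2
      · exact R11b_flat h (hf0 p1) u (t p1) fun y hy =>
          le_antisymm ((mul_le_mul_left_of_neg h2).mp (c2 y hy))
            (le_of_mul_le_mul_left (b2 y hy) h1)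
      · exact R11b_flat h (hf0 p1) w (t p1) fun y hy =>
          le_antisymm (le_of_mul_le_mul_left (c1 y hy) h2) (a2 y hy)
  have hmem : w - v ∈ M := by
    rw [sub_eq_add_neg]
    exact h.add w hw (-v) (h.neg v hv)
  have hfac : w - v ∈ M0 := by
    refine facets (w - v) hmem (sub_ne_zero.mpr hvw.symm) (x - v) hxv ?_ ?_
    · rwa [sub_sub_sub_cancel_right]
    · intro w' hw' hxw'
      have h1 : x - (v + w') ∈ P := by rwa [← sub_sub]
      rcases claim (v + w') (h.add v hv w' hw') h1 with h2 | h2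
      · left
        exact add_eq_left.mp h2
      · right
        rw [← h2, add_sub_cancel_left]
  have := hadd v hv0 (w - v) hfac
  rw [add_sub_cancel] at this
  exact hwM0 this

theorem Til.unique (h : Til P M) (h' : Til P M') (sym : ∀ x ∈ P, -x ∈ P) : M ⊆ M' :=
  h.gen h'.zero h'.add fun _ hv hv0 _ hx hxv two => h.facet h' sym hv hv0 hx hxv two

end VorUnc
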