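import Pool.Agent.Lib.MP_467880_co.R11b

/-!
# R12 (R12a = flip, axis; R12b = exists_scale; R12c = sit): sign changes preserve the lattice; normalisation

* `Til.flip`: let `M' = {v | flp c v ∈ M}`. `Til P M'`: `flp c` is a linear involution, an isometry for the sup norm, and maps
  `P` onto `P`, so it preserves `interior P`, `openSegment`, etc. `Til.unique`: `M ⊆ M'`.
* `Til.axis`: `G = {t : ℝ | Pi.single i t ∈ M}` is an additive subgroup of `ℝ`. It is not trivial: `cover` for
  `x = Pi.single i R` with large `R` gives `v ∈ M` with `v i ≠ 0` (`P` is bounded), and `v - flp {i} v = Pi.single i (2 * v i) ∈ M`. It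
  is not dense: `fin` for `R = 1` (finitely many `t` with `|t| ≤ 1`). So it is cyclic (`AddSubgroup.dense_or_cyclic`),
  generated by some `a ≠ 0`; take `g = |a| / 2`.
* `Til.exists_scale`: `g i` from `axis`, `C = {c | (fun i => ind c i * g i) ∈ M}`. For `v ∈ M`: `Pi.single i (2 * v i) ∈ M`, so
  `2 v i = 2 n i g i` with an integer `n i`: `v i / g i = n i`. Let `c` be the odd support of `n`: `v - g ind c` is the sum
  of the vectors `Pi.single i (2 k i g i) ∈ M`, so `g ind c ∈ M`, `c ∈ C`. The converse in the same way. `Code C`: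
  `ind (symmDiff c c')` and `ind c + ind c'` differ by a vector with coordinates `0, 2`.
* `Til.sit`: `P' = {x / g | x ∈ P}`. All conditions except `box` are transported by the linear homeomorphism
  `x ↦ x / g` (`int`: `Til.int`). `box`: suppose `x ∈ P'`, `|x i| > 1`; WLOG (`unc`) `x i > 1`; moving `x` a little towards a point of
  `interior P'` we may assume `x ∈ interior P'` and `x i > 1` (`Convex.openSegment_interior_self_subset_interior`-like
  lemmas). `flp {i} x ∈ interior P'`. The vector `w = 2 e_i ∈ lat C`, `w ≠ 0`, and `x - w` is on the open segment between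
  `flp {i} x` and `x` (coordinate `i`: `-x i < x i - 2 < x i`), so `x - w ∈ interior P'` (convex): contradiction to `disj`.
-/

set_option autoImplicit false

open Set

namespace VorUnc

variable {d : ℕ} {P M : Set (Fin d → ℝ)}

theorem r12a_flp_flp (c : Finset (Fin d)) (x : Fin d → ℝ) : flp c (flp c x) = x := by
  funext i
  by_cases hi : i ∈ c
  · simp [flp, hi]
  · simp [flp, hi]

theorem r12a_flp_add (c : Finset (Fin d)) (x y : Fin d → ℝ) :
    flp c (x + y) = flp c x + flp c y := by
  funext i
  by_cases hi : i ∈ c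
  · simp [flp, hi]
    ring
  · simp [flp, hi]

theorem r12a_flp_sub (c : Finset (Fin d)) (x y : Fin d → ℝ) :
    flp c (x - y) = flp c x - flp c y := by
  funext i
  by_cases hi : i ∈ c
  · simp [flp, hi]
    ring
  · simp [flp, hi]

theorem r12a_flp_smul (c : Finset (Fin d)) (t : ℝ) (x : Fin d → ℝ) :
    flp c (t • x) = t • flp c x := by
  funext i
  by_cases hi : i ∈ c
  · simp [flp, hi]
  · simp [flp, hi]

theorem r12a_flp_zero (c : Finset (Fin d)) : flp c (0 : Fin d → ℝ) = 0 := by
  funext i
  simp [flp]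

theorem r12a_flp_neg (c : Finset (Fin d)) (x : Fin d → ℝ) : flp c (-x) = -flp c x := by
  funext i
  by_cases hi : i ∈ c
  · simp [flp, hi]
  · simp [flp, hi]

theorem r12a_flp_norm (c : Finset (Fin d)) (x : Fin d → ℝ) : ‖flp c x‖ = ‖x‖ := by
  have h : ∀ i, ‖flp c x i‖ = ‖x i‖ := by
    intro i
    by_cases hi : i ∈ c
    · simp [flp, hi]
    · simp [flp, hi]
  apply le_antisymm
  · rw [pi_norm_le_iff_of_nonneg (norm_nonneg _)]
    intro i
    rw [h]
    exact norm_le_pi_norm x i
  · rw [pi_norm_le_iff_of_nonneg (norm_nonneg _)]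
    intro i
    rw [← h]
    exact norm_le_pi_norm (flp c x) i

theorem r12a_flp_cont (c : Finset (Fin d)) : Continuous (flp c) := by
  refine continuous_pi fun i => ?_
  by_cases hi : i ∈ c
  · simp only [flp, hi, if_true]
    exact (continuous_apply i).neg
  · simp only [flp, hi, if_false]
    exact continuous_apply i

theorem r12a_flp_int (unc : ∀ x ∈ P, ∀ c, flp c x ∈ P) {x : Fin d → ℝ} (hx : x ∈ interior P)
    (c : Finset (Fin d)) : flp c x ∈ interior P := by
  let e : (Fin d → ℝ) ≃ₜ (Fin d → ℝ) :=
    { toFun := flp c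
      invFun := flp c
      left_inv := r12a_flp_flp c
      right_inv := r12a_flp_flp c
      continuous_toFun := r12a_flp_cont c
      continuous_invFun := r12a_flp_cont c }
  have h1 : e '' P = P := by
    apply Subset.antisymm
    · rintro _ ⟨y, hy, rfl⟩
      exact unc y hy c
    · intro y hy
      exact ⟨flp c y, unc y hy c, r12a_flp_flp c y⟩
  have h2 : e '' interior P = interior P := by
    rw [e.image_interior, h1]
  rw [← h2]
  exact ⟨x, hx, rfl⟩

theorem Til.flip (h : Til P M) (unc : ∀ x ∈ P, ∀ c, flp c x ∈ P) {v : Fin d → ℝ} (hv : v ∈ M)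
    (c : Finset (Fin d)) : flp c v ∈ M := by
  have hM' : Til P {v | flp c v ∈ M} := by
    refine
      { zero := ?_
        add := ?_
        neg := ?_
        fin := ?_
        conv := h.conv
        comp := h.comp
        cover := ?_
        disj := ?_
        ext := ?_ }
    · show flp c 0 ∈ M
      rw [r12a_flp_zero]
      exact h.zero
    · intro v hv w hw
      show flp c (v + w) ∈ M
      rw [r12a_flp_add]
      exact h.add _ hv _ hw
    · intro v hv
      show flp c (-v) ∈ M
      rw [r12a_flp_neg]
      exact h.neg _ hv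
    · intro R
      have h1 := (h.fin R).image (flp c)
      refine h1.subset ?_
      rintro v ⟨hv, hn⟩
      refine ⟨flp c v, ⟨hv, ?_⟩, r12a_flp_flp c v⟩
      rw [r12a_flp_norm]
      exact hn
    · intro x
      obtain ⟨v, hv, hx⟩ := h.cover (flp c x)
      refine ⟨flp c v, ?_, ?_⟩
      · show flp c (flp c v) ∈ M
        rw [r12a_flp_flp]
        exact hv
      · have h1 := unc _ hx c
        rw [r12a_flp_sub, r12a_flp_flp] at h1
        exact h1
    · intro v hv hv0 x hx hx'
      have h1 : flp c v ≠ 0 := by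
        intro h0
        apply hv0
        rw [← r12a_flp_flp c v, h0, r12a_flp_zero]
      refine h.disj (flp c v) hv h1 (flp c x) (r12a_flp_int unc hx c) ?_
      rw [← r12a_flp_sub]
      exact r12a_flp_int unc hx' c
    · intro v hv x hx y hy z hz hzv
      have h1 : flp c z ∈ openSegment ℝ (flp c x) (flp c y) := by
        obtain ⟨s, t, hs, ht, hst, hzst⟩ := hz
        refine ⟨s, t, hs, ht, hst, ?_⟩
        rw [← hzst, r12a_flp_add, r12a_flp_smul, r12a_flp_smul]
      have h2 : flp c z - flp c v ∈ P := by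
        rw [← r12a_flp_sub]
        exact unc _ hzv c
      have h3 := h.ext (flp c v) hv _ (unc x hx c) _ (unc y hy c) _ h1 h2
      have h4 := unc _ h3 c
      rw [← r12a_flp_sub, r12a_flp_flp] at h4
      exact h4
  have sym : ∀ x ∈ P, -x ∈ P := by
    intro x hx
    have h1 := unc x hx Finset.univ
    have h2 : flp Finset.univ x = -x := by
      funext i
      simp [flp]
    rwa [h2] at h1
  exact h.unique hM' sym hv

theorem Til.axis (h : Til P M) (unc : ∀ x ∈ P, ∀ c, flp c x ∈ P) (i : Fin d) :
    ∃ g > (0:ℝ), ∀ t : ℝ, (Pi.single i t : Fin d → ℝ) ∈ M ↔ ∃ n : ℤ, t = 2 * n * g := by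
  let G : AddSubgroup ℝ :=
    { carrier := {t | (Pi.single i t : Fin d → ℝ) ∈ M}
      zero_mem' := by
        show (Pi.single i 0 : Fin d → ℝ) ∈ M
        rw [Pi.single_zero]
        exact h.zero
      add_mem' := by
        intro a b ha hb
        show (Pi.single i (a + b) : Fin d → ℝ) ∈ M
        rw [Pi.single_add]
        exact h.add _ ha _ hb
      neg_mem' := by
        intro a ha
        show (Pi.single i (-a) : Fin d → ℝ) ∈ M
        rw [Pi.single_neg]
        exact h.neg _ ha }
  have hG : ∀ t, t ∈ G ↔ (Pi.single i t : Fin d → ℝ) ∈ M := fun t => Iff.rfl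
  -- a nonzero element
  obtain ⟨R, hR⟩ := h.comp.isBounded.exists_norm_le
  have hne : ∃ t ∈ G, t ≠ 0 := by
    obtain ⟨v, hv, hx⟩ := h.cover (Pi.single i (R + 1))
    have h1 := hR _ hx
    have h2 := norm_le_pi_norm (Pi.single i (R + 1) - v : Fin d → ℝ) i
    rw [Pi.sub_apply, Pi.single_eq_same, Real.norm_eq_abs] at h2
    have h3 : |R + 1 - v i| ≤ R := h2.trans h1
    have hvi : 0 < v i := by
      have := (abs_le.1 h3).2
      linarith
    refine ⟨2 * v i, ?_, by positivity⟩
    rw [hG]
    have h4 := h.flip unc hv {i}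
    have h5 := h.add _ hv _ (h.neg _ h4)
    have h6 : v + -flp {i} v = Pi.single i (2 * v i) := by
      funext j
      by_cases hj : j = i
      · subst hj
        simp [flp]
        ring
      · simp [flp, hj]
    rwa [h6] at h5
  have hnd : ¬ Dense (G : Set ℝ) := by
    intro hd
    have hfin : (G ∩ Set.Icc (-1) 1 : Set ℝ).Finite := by
      have h1 := (h.fin 1).image (fun v => v i)
      refine h1.subset ?_
      rintro t ⟨ht, ht1, ht2⟩
      refine ⟨Pi.single i t, ⟨ht, ?_⟩, by simp⟩
      rw [pi_norm_le_iff_of_nonneg zero_le_one]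
      intro j
      by_cases hj : j = i
      · subst hj
        rw [Pi.single_eq_same, Real.norm_eq_abs, abs_le]
        exact ⟨ht1, ht2⟩
      · rw [Pi.single_eq_of_ne hj, norm_zero]
        exact zero_le_one
    have h2 : (Set.Ioo (-1:ℝ) 1) ⊆ closure (G ∩ Set.Icc (-1) 1 : Set ℝ) := by
      intro t ht
      have h3 : t ∈ closure (Set.Ioo (-1:ℝ) 1 ∩ G) :=
        hd.open_subset_closure_inter isOpen_Ioo ht
      refine closure_mono ?_ h3
      rintro s ⟨hs1, hs2⟩
      exact ⟨hs2, hs1.1.le, hs1.2.le⟩
    rw [hfin.isClosed.closure_eq] at h2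
    exact (Set.Ioo_infinite (by norm_num : (-1:ℝ) < 1)) (hfin.subset h2)
  rcases AddSubgroup.dense_or_cyclic G with hd | ⟨a, ha⟩
  · exact absurd hd hnd
  · have ha0 : a ≠ 0 := by
      rintro rfl
      obtain ⟨t, ht, ht0⟩ := hne
      rw [ha, AddSubgroup.mem_closure_singleton] at ht
      obtain ⟨n, hn⟩ := ht
      apply ht0
      rw [← hn]
      simp
    refine ⟨|a| / 2, by positivity, fun t => ?_⟩
    rw [← hG, ha, AddSubgroup.mem_closure_singleton]
    constructor
    · rintro ⟨n, rfl⟩
      rcases abs_choice a with h1 | h1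
      · exact ⟨n, by rw [h1, zsmul_eq_mul]; ring⟩
      · exact ⟨-n, by rw [h1, zsmul_eq_mul]; push_cast; ring⟩
    · rintro ⟨n, rfl⟩
      rcases abs_choice a with h1 | h1
      · exact ⟨n, by rw [h1, zsmul_eq_mul]; ring⟩
      · exact ⟨-n, by rw [h1, zsmul_eq_mul]; push_cast; ring⟩

end VorUnc
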