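import Pool.Agent.Lib.MP_467880_co.R11b

/-!
# MP_467880_co: parallelohedra with large symmetry group, the core in Euclidean coordinates
-/

set_option autoImplicit false

open Set
open scoped InnerProductSpace

namespace VorSym

variable {d : ℕ}

/-- a centrally symmetric convex body `P` whose translates by the vectors of the discrete group `M`
tile space -/
structure TS (P M : Set (EuclideanSpace ℝ (Fin d))) : Prop where
  zero : (0 : EuclideanSpace ℝ (Fin d)) ∈ M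
  add : ∀ v ∈ M, ∀ w ∈ M, v + w ∈ M
  neg : ∀ v ∈ M, -v ∈ M
  fin : ∀ R : ℝ, {v | v ∈ M ∧ ‖v‖ ≤ R}.Finite
  conv : Convex ℝ P
  comp : IsCompact P
  int : (interior P).Nonempty
  sym : ∀ x ∈ P, -x ∈ P
  cover : ∀ x, ∃ v ∈ M, x - v ∈ P
  disj : ∀ v ∈ M, v ≠ 0 → ∀ x ∈ interior P, x - v ∉ interior P

/-- a Voronoi vector of `M`: `v` and `-v` are the only vectors of norm `≤ ‖v‖` in `v + 2M` -/
def IsVor (M : Set (EuclideanSpace ℝ (Fin d))) (v : EuclideanSpace ℝ (Fin d)) : Prop :=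
  v ∈ M ∧ v ≠ 0 ∧ ∀ u ∈ M, ‖v + (2 : ℝ) • u‖ ≤ ‖v‖ → v + (2 : ℝ) • u = v ∨ v + (2 : ℝ) • u = -v

variable {P M : Set (EuclideanSpace ℝ (Fin d))}

theorem TS.neg_int (h : TS P M) {x : EuclideanSpace ℝ (Fin d)} (hx : x ∈ interior P) :
    -x ∈ interior P := by
  refine mem_interior.2 ⟨Neg.neg ⁻¹' interior P, fun z hz => ?_,
    isOpen_interior.preimage continuous_neg, by simpa using hx⟩
  have := h.sym _ (interior_subset hz)
  simpa using this

theorem TS.zero_int (h : TS P M) : (0 : EuclideanSpace ℝ (Fin d)) ∈ interior P := by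
  obtain ⟨p, hp⟩ := h.int
  have h1 := h.conv.interior hp (h.neg_int hp) (a := 1 / 2) (b := 1 / 2) (by norm_num)
    (by norm_num) (by norm_num)
  have h2 : (1 / 2 : ℝ) • p + (1 / 2 : ℝ) • (-p) = 0 := by
    rw [← smul_add, add_neg_cancel, smul_zero]
  rwa [h2] at h1

theorem TS.closure (h : TS P M) {x : EuclideanSpace ℝ (Fin d)} (hx : x ∈ P) :
    x ∈ closure (interior P) := by
  rw [h.conv.closure_interior_eq_closure_of_nonempty_interior h.int]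
  exact subset_closure hx

/-- the invariant supporting functional of a lattice vector -/
theorem TS.sep (h : TS P M) {v : EuclideanSpace ℝ (Fin d)} (hv : v ∈ M) (hv0 : v ≠ 0) :
    ∃ n : EuclideanSpace ℝ (Fin d), ⟪n, v⟫_ℝ = 1 ∧ (∀ x ∈ P, ⟪n, x⟫_ℝ ≤ 1 / 2) ∧
      ∀ g : EuclideanSpace ℝ (Fin d) ≃ₗᵢ[ℝ] EuclideanSpace ℝ (Fin d), g '' P = P → g v = v →
        g n = n := by
  have h1 : (1 / 2 : ℝ) • v ∉ interior P := by
    intro hin
    refine h.disj v hv hv0 _ hin ?_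
    have h2 : (1 / 2 : ℝ) • v - v = -((1 / 2 : ℝ) • v) := by module
    rw [h2]
    exact h.neg_int hin
  obtain ⟨f, hf⟩ := geometric_hahn_banach_open_point h.conv.interior isOpen_interior h1
  have hfv : 0 < f v := by
    have h2 := hf 0 h.zero_int
    rw [map_zero, map_smul, smul_eq_mul] at h2
    linarith
  obtain ⟨m, hm⟩ : ∃ m : EuclideanSpace ℝ (Fin d), ∀ x, ⟪m, x⟫_ℝ = f x :=
    ⟨(InnerProductSpace.toDual ℝ _).symm f, fun x => InnerProductSpace.toDual_symm_apply⟩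
  obtain ⟨N, hN⟩ : ∃ N : Set (EuclideanSpace ℝ (Fin d)),
      N = {n | ⟪n, v⟫_ℝ = 1 ∧ ∀ x ∈ P, ⟪n, x⟫_ℝ ≤ 1 / 2} := ⟨_, rfl⟩
  have hNm : ∀ n, n ∈ N ↔ ⟪n, v⟫_ℝ = 1 ∧ ∀ x ∈ P, ⟪n, x⟫_ℝ ≤ 1 / 2 := by
    intro n
    rw [hN]
    exact Iff.rfl
  have hne : N.Nonempty := by
    refine ⟨(f v)⁻¹ • m, (hNm _).2 ⟨?_, ?_⟩⟩
    · rw [real_inner_smul_left, hm, inv_mul_cancel₀ hfv.ne']
    · intro x hx
      have h2 : f x ≤ f ((1 / 2 : ℝ) • v) := by
        have h3 : IsClosed {y | f y ≤ f ((1 / 2 : ℝ) • v)} :=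
          isClosed_le f.continuous continuous_const
        exact h3.closure_subset_iff.2 (fun y hy => (hf y hy).le) (h.closure hx)
      rw [map_smul, smul_eq_mul] at h2
      rw [real_inner_smul_left, hm, inv_mul_le_iff₀ hfv]
      linarith
  have hcl : IsClosed N := by
    have h2 : N = {n | ⟪n, v⟫_ℝ = 1} ∩ ⋂ x ∈ P, {n | ⟪n, x⟫_ℝ ≤ 1 / 2} := by
      ext n
      rw [hNm]
      simp only [mem_inter_iff, mem_iInter, mem_ofPred_eq]
    rw [h2]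
    refine (isClosed_eq (by fun_prop) continuous_const).inter ?_
    exact isClosed_biInter fun x _ => isClosed_le (by fun_prop) continuous_const
  obtain ⟨n, hn, hmin⟩ := hcl.exists_infDist_eq_dist hne 0
  have hmin' : ∀ m ∈ N, ‖n‖ ≤ ‖m‖ := by
    intro m hm
    have h2 := Metric.infDist_le_dist_of_mem (x := (0 : EuclideanSpace ℝ (Fin d))) hm
    rw [hmin, dist_zero_left, dist_zero_left] at h2
    exact h2
  refine ⟨n, ((hNm n).1 hn).1, ((hNm n).1 hn).2, ?_⟩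
  intro g hg hgv
  have hgn : g n ∈ N := by
    rw [hNm]
    refine ⟨?_, ?_⟩
    · conv_lhs => rw [← hgv]
      rw [g.inner_map_map]
      exact ((hNm n).1 hn).1
    · intro x hx
      rw [← hg] at hx
      obtain ⟨y, hy, rfl⟩ := hx
      rw [g.inner_map_map]
      exact ((hNm n).1 hn).2 y hy
  have hmid : (1 / 2 : ℝ) • (g n + n) ∈ N := by
    rw [hNm] at hgn hn ⊢
    refine ⟨?_, ?_⟩
    · rw [real_inner_smul_left, inner_add_left, hgn.1, hn.1]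
      norm_num
    · intro x hx
      rw [real_inner_smul_left, inner_add_left]
      have h3 := hgn.2 x hx
      have h4 := hn.2 x hx
      linarith
  have h5 := hmin' _ hmid
  rw [norm_smul, Real.norm_eq_abs, abs_of_pos (by norm_num : (0 : ℝ) < 1 / 2)] at h5
  have h6 := parallelogram_law_with_norm ℝ (g n) n
  rw [g.norm_map] at h6
  have h7 : 0 ≤ ‖n‖ := norm_nonneg _
  have h8 : ‖g n - n‖ * ‖g n - n‖ ≤ 0 := by
    have h9 : 2 * ‖n‖ ≤ ‖g n + n‖ := by linarith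
    nlinarith [norm_nonneg (g n + n)]
  have h9 : ‖g n - n‖ = 0 := by
    have := norm_nonneg (g n - n)
    nlinarith
  exact sub_eq_zero.1 (norm_eq_zero.1 h9)

/-- the half space of a Voronoi vector -/
theorem TS.half (h : TS P M) {v : EuclideanSpace ℝ (Fin d)} (hv : v ∈ M) (hv0 : v ≠ 0)
    (hfix : ∀ y, (∀ g : EuclideanSpace ℝ (Fin d) ≃ₗᵢ[ℝ] EuclideanSpace ℝ (Fin d), g '' P = P →
      g v = v → g y = y) → ∃ t : ℝ, y = t • v) :
    ∀ x ∈ P, 2 * ⟪x, v⟫_ℝ ≤ ‖v‖ ^ 2 := by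
  obtain ⟨n, hn1, hn2, hn3⟩ := h.sep hv hv0
  obtain ⟨t, ht⟩ := hfix n fun g hg hgv => hn3 g hg hgv
  intro x hx
  have h1 := hn2 x hx
  rw [ht, real_inner_smul_left] at h1 hn1
  rw [real_inner_self_eq_norm_sq] at hn1
  have h2 : 0 < ‖v‖ ^ 2 := by
    have := norm_pos_iff.2 hv0
    positivity
  rw [real_inner_comm] at h1
  have h3 : ⟪x, v⟫_ℝ = ‖v‖ ^ 2 * (t * ⟪x, v⟫_ℝ) := by
    rw [← mul_assoc, mul_comm (‖v‖ ^ 2) t, hn1, one_mul]
  rw [h3]
  nlinarith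

/-- Voronoi vectors suffice -/
theorem TS.all (h : TS P M) {x : EuclideanSpace ℝ (Fin d)}
    (hv : ∀ v, IsVor M v → 2 * ⟪x, v⟫_ℝ ≤ ‖v‖ ^ 2) :
    ∀ l ∈ M, 2 * ⟪x, l⟫_ℝ ≤ ‖l‖ ^ 2 := by
  by_contra hcon
  push Not at hcon
  obtain ⟨B, hB⟩ : ∃ B : Set (EuclideanSpace ℝ (Fin d)),
      B = {l | l ∈ M ∧ ‖l‖ ^ 2 < 2 * ⟪x, l⟫_ℝ} := ⟨_, rfl⟩
  have hBm : ∀ l, l ∈ B ↔ l ∈ M ∧ ‖l‖ ^ 2 < 2 * ⟪x, l⟫_ℝ := by
    intro l
    rw [hB]
    exact Iff.rfl
  have hfin : B.Finite := by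
    refine (h.fin (2 * ‖x‖)).subset ?_
    intro l hl
    rw [hBm] at hl
    refine ⟨hl.1, ?_⟩
    have h1 := real_inner_le_norm x l
    by_contra hlt
    push Not at hlt
    nlinarith [hl.2, norm_nonneg x, norm_nonneg l]
  obtain ⟨l0, hl0, hl0'⟩ := hcon
  obtain ⟨l, hl, hmin⟩ := Set.exists_min_image B (fun l => ‖l‖) hfin ⟨l0, (hBm l0).2 ⟨hl0, hl0'⟩⟩
  rw [hBm] at hl
  have hl1 : l ≠ 0 := by
    rintro rfl
    have := hl.2
    simp at this
  have hnv : ¬ IsVor M l := fun hvor => absurd (hv l hvor) (not_le.2 hl.2)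
  unfold IsVor at hnv
  push Not at hnv
  obtain ⟨u, hu, hn, hne1, hne2⟩ := hnv hl.1 hl1
  -- l = (-u) + (l + u)
  have ha : -u ∈ M := h.neg u hu
  have hb : l + u ∈ M := h.add l hl.1 u hu
  have ha0 : -u ≠ 0 := by
    intro h0
    apply hne1
    rw [neg_eq_zero] at h0
    rw [h0, smul_zero, add_zero]
  have hb0 : l + u ≠ 0 := by
    intro h0
    apply hne2
    have : u = -l := by rwa [add_comm, add_eq_zero_iff_eq_neg] at h0
    rw [this]
    module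
  have hsq : ‖l + (2 : ℝ) • u‖ ^ 2 ≤ ‖l‖ ^ 2 := by
    have := norm_nonneg (l + (2 : ℝ) • u)
    exact pow_le_pow_left₀ this hn 2
  have e1 : ‖l + (2 : ℝ) • u‖ ^ 2 = ‖l‖ ^ 2 + 4 * ⟪l, u⟫_ℝ + 4 * ‖u‖ ^ 2 := by
    rw [norm_add_sq_real, real_inner_smul_right, norm_smul]
    norm_num
    ring
  have e2 : ‖l + u‖ ^ 2 = ‖l‖ ^ 2 + 2 * ⟪l, u⟫_ℝ + ‖u‖ ^ 2 := norm_add_sq_real l u
  have hup : 0 < ‖u‖ ^ 2 := by
    have h0 : u ≠ 0 := fun h0 => ha0 (by rw [h0, neg_zero])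
    have := norm_pos_iff.2 h0
    positivity
  have hlup : 0 < ‖l + u‖ ^ 2 := by
    have := norm_pos_iff.2 hb0
    positivity
  have hlt1 : ‖-u‖ < ‖l‖ := by
    rw [norm_neg]
    apply lt_of_pow_lt_pow_left₀ 2 (norm_nonneg l)
    nlinarith
  have hlt2 : ‖l + u‖ < ‖l‖ := by
    apply lt_of_pow_lt_pow_left₀ 2 (norm_nonneg l)
    nlinarith
  have hna : 2 * ⟪x, -u⟫_ℝ ≤ ‖-u‖ ^ 2 := by
    by_contra hc
    push Not at hc
    exact absurd (hmin _ ((hBm _).2 ⟨ha, hc⟩)) (not_le.2 hlt1)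
  have hnb : 2 * ⟪x, l + u⟫_ℝ ≤ ‖l + u‖ ^ 2 := by
    by_contra hc
    push Not at hc
    exact absurd (hmin _ ((hBm _).2 ⟨hb, hc⟩)) (not_le.2 hlt2)
  rw [inner_neg_right, norm_neg] at hna
  rw [inner_add_right] at hnb
  have := hl.2
  nlinarith

/-- a tile inside the Voronoi cell is the Voronoi cell -/
theorem TS.eq_vor (h : TS P M) (hle : ∀ x ∈ P, ∀ l ∈ M, 2 * ⟪x, l⟫_ℝ ≤ ‖l‖ ^ 2) :
    P = {x | ∀ v ∈ M, ‖x‖ ≤ ‖x - v‖} := by
  have key : ∀ x v : EuclideanSpace ℝ (Fin d), ‖x‖ ≤ ‖x - v‖ ↔ 2 * ⟪x, v⟫_ℝ ≤ ‖v‖ ^ 2 := by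
    intro x v
    rw [← sq_le_sq₀ (norm_nonneg _) (norm_nonneg _), norm_sub_sq_real]
    constructor <;> intro h <;> linarith
  ext y
  constructor
  · intro hy v hv
    exact (key y v).2 (hle y hy v hv)
  · intro hy
    have ht : ∀ t : ℝ, 0 < t → t < 1 → t • y ∈ P := by
      intro t ht0 ht1
      obtain ⟨v, hv, hx⟩ := h.cover (t • y)
      by_cases hv0 : v = 0
      · rwa [hv0, sub_zero] at hx
      · exfalso
        have h1 := hle _ hx (-v) (h.neg v hv)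
        rw [inner_neg_right, inner_sub_left, real_inner_smul_left, real_inner_self_eq_norm_sq,
          norm_neg] at h1
        have h2 := (key y v).1 (hy v hv)
        have h3 : 0 < ‖v‖ ^ 2 := by
          have := norm_pos_iff.2 hv0
          positivity
        nlinarith
    have hlim : Filter.Tendsto (fun t : ℝ => t • y) (nhdsWithin 1 (Iio 1)) (nhds ((1 : ℝ) • y)) :=
      ((continuous_id.smul continuous_const).tendsto 1).mono_left nhdsWithin_le_nhds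
    rw [one_smul] at hlim
    refine h.comp.isClosed.mem_of_tendsto hlim ?_
    have h1 : ∀ᶠ t in nhdsWithin (1 : ℝ) (Iio 1), t ∈ Ioo (0 : ℝ) 1 :=
      Ioo_mem_nhdsLT one_pos
    filter_upwards [h1] with t h
    exact ht t h.1 h.2

end VorSym
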