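import Pool.Agent.Lib.MP_467880_co.S1

/-!
# MP_467880_co: irreducible sets of reflections
-/

set_option autoImplicit false

open Set
open scoped InnerProductSpace

namespace VorSym

variable {d : ℕ}

/-- the reflection in the hyperplane orthogonal to `a` (the identity for `a = 0`) -/
noncomputable def refl (a : EuclideanSpace ℝ (Fin d)) :
    EuclideanSpace ℝ (Fin d) ≃ₗᵢ[ℝ] EuclideanSpace ℝ (Fin d) :=
  (ℝ ∙ a)ᗮ.reflection

variable {P M : Set (EuclideanSpace ℝ (Fin d))}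

theorem refl_apply (a x : EuclideanSpace ℝ (Fin d)) :
    refl a x = x - (2 * ⟪a, x⟫_ℝ / ‖a‖ ^ 2) • a := by
  unfold refl
  rw [Submodule.reflection_orthogonal_apply, Submodule.reflection_singleton_apply, neg_sub,
    two_smul, ← add_smul]
  congr 2
  simp
  ring

theorem refl_self (a : EuclideanSpace ℝ (Fin d)) : refl a a = -a :=
  Submodule.reflection_orthogonalComplement_singleton_eq_neg a

theorem refl_refl (a x : EuclideanSpace ℝ (Fin d)) : refl a (refl a x) = x :=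
  Submodule.reflection_reflection _ x

theorem refl_smul (a x : EuclideanSpace ℝ (Fin d)) {t : ℝ} (ht : t ≠ 0) :
    refl (t • a) x = refl a x := by
  rw [refl_apply, refl_apply, smul_smul, real_inner_smul_left, norm_smul]
  congr 2
  by_cases ha : ‖a‖ = 0
  · simp [ha]
  · rw [mul_pow, Real.norm_eq_abs, sq_abs]
    field_simp

theorem refl_map (g : EuclideanSpace ℝ (Fin d) ≃ₗᵢ[ℝ] EuclideanSpace ℝ (Fin d))
    (a x : EuclideanSpace ℝ (Fin d)) : refl (g a) x = g (refl a (g.symm x)) := by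
  have h : ⟪g a, x⟫_ℝ = ⟪a, g.symm x⟫_ℝ := by
    conv_lhs => rw [← g.apply_symm_apply x]
    exact g.inner_map_map _ _
  rw [refl_apply, refl_apply, h, g.norm_map, map_sub, map_smul, g.apply_symm_apply]

/-- an indivisible root: reflection and integrality -/
structure Pr (P M : Set (EuclideanSpace ℝ (Fin d))) (b : EuclideanSpace ℝ (Fin d)) : Prop where
  ne : b ≠ 0
  mem : b ∈ M
  inv : refl b '' P = P
  int : ∀ v ∈ M, ∃ n : ℤ, 2 * ⟪b, v⟫_ℝ = n * ‖b‖ ^ 2

theorem Pr.pos {b : EuclideanSpace ℝ (Fin d)} (hb : Pr P M b) : 0 < ‖b‖ ^ 2 := by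
  have := norm_pos_iff.2 hb.ne
  positivity

theorem Pr.neg (h : TS P M) {b : EuclideanSpace ℝ (Fin d)} (hb : Pr P M b) : Pr P M (-b) := by
  refine ⟨neg_ne_zero.2 hb.ne, h.neg b hb.mem, ?_, ?_⟩
  · have h1 : ∀ x, refl (-b) x = refl b x := by
      intro x
      have := refl_smul b x (t := -1) (by norm_num)
      rwa [neg_one_smul] at this
    have h2 : (refl (-b) : EuclideanSpace ℝ (Fin d) → EuclideanSpace ℝ (Fin d)) = refl b :=
      funext h1
    rw [h2]
    exact hb.inv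
  · intro v hv
    obtain ⟨n, hn⟩ := hb.int v hv
    refine ⟨-n, ?_⟩
    rw [inner_neg_left, norm_neg]
    push_cast
    linarith

theorem Pr.conj (hM : ∀ g : EuclideanSpace ℝ (Fin d) ≃ₗᵢ[ℝ] EuclideanSpace ℝ (Fin d),
      g '' P = P → ∀ v ∈ M, g v ∈ M) {b c : EuclideanSpace ℝ (Fin d)} (hb : Pr P M b)
    (hc : Pr P M c) : Pr P M (refl b c) := by
  refine ⟨?_, hM _ hb.inv c hc.mem, ?_, ?_⟩
  · intro h0
    apply hc.ne
    have := congrArg (refl b) h0
    rwa [refl_refl, map_zero] at this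
  · have h1 : ∀ x, refl (refl b c) x = refl b (refl c (refl b x)) := by
      intro x
      rw [refl_map]
      congr 2
    have h2 : (refl (refl b c) : EuclideanSpace ℝ (Fin d) → EuclideanSpace ℝ (Fin d)) =
        fun x => refl b (refl c (refl b x)) := funext h1
    rw [h2]
    have h3 : (fun x => refl b (refl c (refl b x))) '' P = refl b '' (refl c '' (refl b '' P)) := by
      rw [image_image, image_image]
    rw [h3, hb.inv, hc.inv, hb.inv]
  · intro v hv
    obtain ⟨n, hn⟩ := hc.int (refl b v) (hM _ hb.inv v hv)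
    refine ⟨n, ?_⟩
    have h1 : ⟪refl b c, v⟫_ℝ = ⟪c, refl b v⟫_ℝ := by
      conv_lhs => rw [← refl_refl b v]
      exact (refl b).inner_map_map _ _
    rw [h1, (refl b).norm_map, hn]

/-- the slab condition -/
theorem Pr.slab (h : TS P M) {b : EuclideanSpace ℝ (Fin d)} (hb : Pr P M b) :
    ∀ x ∈ P, 2 * ⟪x, b⟫_ℝ ≤ ‖b‖ ^ 2 := by
  intro x hx
  by_contra hlt
  push Not at hlt
  have hO : IsOpen {y : EuclideanSpace ℝ (Fin d) | ‖b‖ ^ 2 < 2 * ⟪y, b⟫_ℝ} :=
    isOpen_lt continuous_const (by fun_prop)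
  obtain ⟨y, hy1, hy2⟩ := mem_closure_iff.1 (h.closure hx) _ hO hlt
  have hy1' : ‖b‖ ^ 2 < 2 * ⟪y, b⟫_ℝ := hy1
  have hry : refl b y ∈ interior P := by
    have h1 : (refl b).toHomeomorph '' interior P = interior P := by
      rw [Homeomorph.image_interior]
      exact congrArg interior hb.inv
    rw [← h1]
    exact ⟨y, hy2, rfl⟩
  obtain ⟨c, hc⟩ : ∃ c : ℝ, c = 2 * ⟪b, y⟫_ℝ / ‖b‖ ^ 2 := ⟨_, rfl⟩
  have hc1 : 1 < c := by
    rw [hc, lt_div_iff₀ hb.pos, one_mul, real_inner_comm]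
    exact hy1'
  refine h.disj b hb.mem hb.ne y hy2 ?_
  have h2 := h.conv.interior hy2 hry (a := 1 - 1 / c) (b := 1 / c)
    (by rw [sub_nonneg, div_le_one (by linarith)]; exact hc1.le) (by positivity) (by ring)
  have h3 : (1 - 1 / c) • y + (1 / c) • refl b y = y - b := by
    rw [refl_apply, ← hc]
    have hc0 : c ≠ 0 := by linarith
    have h4 : (1 / c) • (y - c • b) = (1 / c) • y - b := by
      rw [smul_sub, smul_smul, one_div_mul_cancel hc0, one_smul]
    rw [h4]
    module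
  rwa [h3] at h2

/-- the multiples of a vector in `M` -/
theorem TS.exists_pr (h : TS P M)
    (hM : ∀ g : EuclideanSpace ℝ (Fin d) ≃ₗᵢ[ℝ] EuclideanSpace ℝ (Fin d),
      g '' P = P → ∀ v ∈ M, g v ∈ M) {a : EuclideanSpace ℝ (Fin d)} (ha : a ≠ 0)
    (hinv : refl a '' P = P) : ∃ t : ℝ, t ≠ 0 ∧ Pr P M (t • a) := by
  have hapos : 0 < ‖a‖ := norm_pos_iff.2 ha
  let G : AddSubgroup ℝ :=
    { carrier := {t | t • a ∈ M}
      zero_mem' := by
        show (0 : ℝ) • a ∈ M
        rw [zero_smul]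
        exact h.zero
      add_mem' := by
        intro s t hs ht
        show (s + t) • a ∈ M
        rw [add_smul]
        exact h.add _ hs _ ht
      neg_mem' := by
        intro t ht
        show (-t) • a ∈ M
        rw [neg_smul]
        exact h.neg _ ht }
  have hG : ∀ t, t ∈ G ↔ t • a ∈ M := fun t => Iff.rfl
  have hGv : ∀ v ∈ M, 2 * ⟪a, v⟫_ℝ / ‖a‖ ^ 2 ∈ G := by
    intro v hv
    rw [hG]
    have h1 := h.add _ hv _ (h.neg _ (hM _ hinv v hv))
    have h2 : v + -(refl a v) = (2 * ⟪a, v⟫_ℝ / ‖a‖ ^ 2) • a := by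
      rw [refl_apply]
      abel
    rwa [h2] at h1
  obtain ⟨R, hR⟩ := h.comp.isBounded.exists_norm_le
  have hne : ∃ t ∈ G, t ≠ 0 := by
    obtain ⟨v, hv, hx⟩ := h.cover (((R + 1) / ‖a‖) • a)
    refine ⟨_, hGv v hv, ?_⟩
    have h1 := hR _ hx
    have h2 := real_inner_le_norm a ((((R + 1) / ‖a‖) • a) - v)
    rw [inner_sub_right, real_inner_smul_right, real_inner_self_eq_norm_sq] at h2
    have h3 : (R + 1) / ‖a‖ * ‖a‖ ^ 2 = (R + 1) * ‖a‖ := by
      field_simp
    rw [h3] at h2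
    have h4 : ‖a‖ * ‖((R + 1) / ‖a‖) • a - v‖ ≤ ‖a‖ * R :=
      mul_le_mul_of_nonneg_left h1 hapos.le
    have h5 : 0 < ⟪a, v⟫_ℝ := by nlinarith
    positivity
  have hnd : ¬ Dense (G : Set ℝ) := by
    intro hd
    have hfin : (G ∩ Set.Icc (-1) 1 : Set ℝ).Finite := by
      have hinj : Function.Injective (fun t : ℝ => t • a) := smul_left_injective ℝ ha
      have h1 : ((fun t : ℝ => t • a) '' (G ∩ Set.Icc (-1) 1 : Set ℝ)).Finite := by
        refine (h.fin ‖a‖).subset ?_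
        rintro _ ⟨t, ⟨ht, ht1⟩, rfl⟩
        refine ⟨ht, ?_⟩
        show ‖t • a‖ ≤ ‖a‖
        rw [norm_smul, Real.norm_eq_abs]
        have h2 : |t| ≤ 1 := abs_le.2 ht1
        nlinarith
      exact Set.Finite.of_finite_image h1 hinj.injOn
    have h2 : (Set.Ioo (-1:ℝ) 1) ⊆ _root_.closure (G ∩ Set.Icc (-1) 1 : Set ℝ) := by
      intro t ht
      have h3 : t ∈ _root_.closure (Set.Ioo (-1:ℝ) 1 ∩ G) :=
        hd.open_subset_closure_inter isOpen_Ioo ht
      refine closure_mono ?_ h3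
      rintro s ⟨hs1, hs2⟩
      exact ⟨hs2, hs1.1.le, hs1.2.le⟩
    rw [hfin.isClosed.closure_eq] at h2
    exact (Set.Ioo_infinite (by norm_num : (-1:ℝ) < 1)) (hfin.subset h2)
  rcases AddSubgroup.dense_or_cyclic G with hd | ⟨τ, hτ⟩
  · exact absurd hd hnd
  · have hτ0 : τ ≠ 0 := by
      rintro rfl
      obtain ⟨t, ht, ht0⟩ := hne
      rw [hτ, AddSubgroup.mem_closure_singleton] at ht
      obtain ⟨n, hn⟩ := ht
      apply ht0
      rw [← hn]
      simp
    have hτG : τ ∈ G := by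
      rw [hτ]
      exact AddSubgroup.subset_closure (mem_singleton τ)
    refine ⟨τ, hτ0, smul_ne_zero hτ0 ha, hτG, ?_, ?_⟩
    · have h2 : (refl (τ • a) : EuclideanSpace ℝ (Fin d) → EuclideanSpace ℝ (Fin d)) = refl a :=
        funext fun x => refl_smul a x hτ0
      rw [h2]
      exact hinv
    · intro v hv
      have h1 := hGv v hv
      rw [hτ, AddSubgroup.mem_closure_singleton] at h1
      obtain ⟨n, hn⟩ := h1
      refine ⟨n, ?_⟩
      rw [zsmul_eq_mul, eq_div_iff (by positivity)] at hn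
      rw [real_inner_smul_left, norm_smul, mul_pow, Real.norm_eq_abs, sq_abs]
      linear_combination (-τ) * hn

end VorSym
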