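import Pool.Agent.Lib.MP_467880_co.S2

/-!
# MP_467880_co: an irreducible set of reflections leaves only the multiples of a Voronoi vector
-/

set_option autoImplicit false

open Set
open scoped InnerProductSpace

namespace VorSym

variable {d : ℕ} {P M : Set (EuclideanSpace ℝ (Fin d))}

/-- `y` is fixed by all symmetries fixing `v` -/
def Fx (P : Set (EuclideanSpace ℝ (Fin d))) (v y : EuclideanSpace ℝ (Fin d)) : Prop :=
  ∀ g : EuclideanSpace ℝ (Fin d) ≃ₗᵢ[ℝ] EuclideanSpace ℝ (Fin d), g '' P = P → g v = v → g y = y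

theorem Pr.orth {b v y : EuclideanSpace ℝ (Fin d)} (hb : Pr P M b) (hy : Fx P v y)
    (h0 : ⟪b, v⟫_ℝ = 0) : ⟪b, y⟫_ℝ = 0 := by
  have h1 : refl b v = v := by
    rw [refl_apply, h0, mul_zero, zero_div, zero_smul, sub_zero]
  have h2 := hy _ hb.inv h1
  rw [refl_apply, sub_eq_self, smul_eq_zero] at h2
  rcases h2 with h2 | h2
  · rw [div_eq_zero_iff] at h2
    rcases h2 with h2 | h2
    · linarith
    · exact absurd h2 hb.pos.ne'
  · exact absurd h2 hb.ne

/-- a root which is at least as long as the projection of `v` is `v` -/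
theorem Pr.big (h : TS P M) {b v y : EuclideanSpace ℝ (Fin d)} (hb : Pr P M b)
    (hv : IsVor M v) (hy : Fx P v y) (h1 : ‖b‖ ^ 2 ≤ ⟪b, v⟫_ℝ) : ∃ t : ℝ, y = t • v := by
  have hbv : b = v := by
    have h2 : ‖v + (2 : ℝ) • (-b)‖ ≤ ‖v‖ := by
      rw [← sq_le_sq₀ (norm_nonneg _) (norm_nonneg _), norm_add_sq_real, real_inner_smul_right,
        inner_neg_right, norm_smul, norm_neg, real_inner_comm]
      norm_num
      nlinarith
    rcases hv.2.2 (-b) (h.neg b hb.mem) h2 with h3 | h3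
    · exfalso
      rw [add_eq_left, smul_eq_zero] at h3
      rcases h3 with h3 | h3
      · norm_num at h3
      · exact hb.ne (neg_eq_zero.1 h3)
    · have h4 : (2 : ℝ) • (v - b) = 0 := by
        have : (2 : ℝ) • (v - b) = (v + (2 : ℝ) • (-b)) + v := by module
        rw [this, h3, neg_add_cancel]
      rw [smul_eq_zero] at h4
      rcases h4 with h4 | h4
      · norm_num at h4
      · exact (sub_eq_zero.1 h4).symm
  obtain ⟨g, hg⟩ : ∃ g : EuclideanSpace ℝ (Fin d) ≃ₗᵢ[ℝ] EuclideanSpace ℝ (Fin d),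
      ∀ x, g x = -(refl b x) :=
    ⟨(refl b).trans (LinearIsometryEquiv.neg ℝ), fun x => rfl⟩
  have hgP : g '' P = P := by
    have h5 : g '' P = (fun x => -x) '' (refl b '' P) := by
      rw [image_image]
      exact image_congr fun x _ => hg x
    rw [h5, hb.inv]
    ext x
    constructor
    · rintro ⟨z, hz, rfl⟩
      exact h.sym z hz
    · intro hx
      exact ⟨-x, h.sym x hx, neg_neg x⟩
  have hgv : g v = v := by
    rw [hg, ← hbv, refl_self, neg_neg]
  have h6 := hy g hgP hgv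
  rw [hg, refl_apply, hbv, neg_sub] at h6
  refine ⟨⟪v, y⟫_ℝ / ‖v‖ ^ 2, ?_⟩
  have h7 : (2 : ℝ) • y = (2 : ℝ) • ((⟪v, y⟫_ℝ / ‖v‖ ^ 2) • v) := by
    rw [two_smul]
    conv_lhs => 
      congr
      · rw [← h6]
    rw [sub_add_cancel, smul_smul]
    congr 1
    ring
  exact (smul_right_injective _ (by norm_num : (2 : ℝ) ≠ 0)) h7

theorem Pr.small {b v : EuclideanSpace ℝ (Fin d)} (hb : Pr P M b) (hv : v ∈ M)
    (h1 : ⟪b, v⟫_ℝ < ‖b‖ ^ 2) (h2 : -‖b‖ ^ 2 < ⟪b, v⟫_ℝ) :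
    2 * ⟪b, v⟫_ℝ = -‖b‖ ^ 2 ∨ ⟪b, v⟫_ℝ = 0 ∨ 2 * ⟪b, v⟫_ℝ = ‖b‖ ^ 2 := by
  obtain ⟨n, hn⟩ := hb.int v hv
  have hp := hb.pos
  have h3 : (n : ℝ) < 2 := by nlinarith
  have h4 : (-2 : ℝ) < n := by nlinarith
  have h5 : n < 2 := by exact_mod_cast h3
  have h6 : -2 < n := by exact_mod_cast h4
  have h7 : n = -1 ∨ n = 0 ∨ n = 1 := by omega
  rcases h7 with h7 | h7 | h7
  · left
    rw [hn, h7]
    push_cast
    ring
  · right
    left
    rw [h7] at hn
    push_cast at hn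
    linarith
  · right
    right
    rw [hn, h7]
    push_cast
    ring

/-- the ratio lemma, normalised -/
theorem ratio_aux (h : TS P M)
    (hM : ∀ g : EuclideanSpace ℝ (Fin d) ≃ₗᵢ[ℝ] EuclideanSpace ℝ (Fin d),
      g '' P = P → ∀ v ∈ M, g v ∈ M) {v y : EuclideanSpace ℝ (Fin d)}
    (hy : Fx P v y) (hsm : ∀ b, Pr P M b → ⟪b, v⟫_ℝ < ‖b‖ ^ 2)
    {b c : EuclideanSpace ℝ (Fin d)} (hb : Pr P M b) (hc : Pr P M c)
    (hbv : 2 * ⟪b, v⟫_ℝ = ‖b‖ ^ 2) (hcv : 2 * ⟪c, v⟫_ℝ = ‖c‖ ^ 2) (hbc : ⟪b, c⟫_ℝ ≠ 0) :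
    ⟪b, y⟫_ℝ * ⟪c, v⟫_ℝ = ⟪c, y⟫_ℝ * ⟪b, v⟫_ℝ := by
  have hsm' : ∀ b, Pr P M b → -‖b‖ ^ 2 < ⟪b, v⟫_ℝ := by
    intro b hb
    have := hsm _ (hb.neg h)
    rw [inner_neg_left, norm_neg] at this
    linarith
  obtain ⟨p, hp⟩ := hb.int c hc.mem
  obtain ⟨q, hq⟩ := hc.int b hb.mem
  rw [real_inner_comm] at hq
  have hbp := hb.pos
  have hcp := hc.pos
  have hd1 : Pr P M (refl b c) := Pr.conj hM hb hc
  have hd2 : Pr P M (refl c b) := Pr.conj hM hc hb
  have e1 : refl b c = c - (p : ℝ) • b := by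
    rw [refl_apply, hp, mul_div_cancel_right₀ _ hbp.ne']
  have e2 : refl c b = b - (q : ℝ) • c := by
    rw [refl_apply, real_inner_comm, hq, mul_div_cancel_right₀ _ hcp.ne']
  have hpq : (p : ℝ) * ‖b‖ ^ 2 = q * ‖c‖ ^ 2 := by rw [← hp, ← hq]
  have i1 : 2 * ⟪refl b c, v⟫_ℝ = (1 - q) * ‖c‖ ^ 2 := by
    rw [e1, inner_sub_left, real_inner_smul_left]
    linear_combination hcv - (p : ℝ) * hbv - hpq
  have i2 : 2 * ⟪refl c b, v⟫_ℝ = (1 - p) * ‖b‖ ^ 2 := by
    rw [e2, inner_sub_left, real_inner_smul_left]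
    linear_combination hbv - (q : ℝ) * hcv + hpq
  have n1 : ‖refl b c‖ = ‖c‖ := (refl b).norm_map c
  have n2 : ‖refl c b‖ = ‖b‖ := (refl c).norm_map b
  have hp0 : p ≠ 0 := by
    rintro rfl
    apply hbc
    push_cast at hp
    linarith
  have hq0 : q ≠ 0 := by
    rintro rfl
    apply hbc
    push_cast at hq
    linarith
  have q1 : (-1 : ℝ) < q := by
    have := hsm _ hd1
    rw [n1] at this
    nlinarith
  have q2 : (q : ℝ) < 3 := by
    have := hsm' _ hd1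
    rw [n1] at this
    nlinarith
  have p1 : (-1 : ℝ) < p := by
    have := hsm _ hd2
    rw [n2] at this
    nlinarith
  have p2 : (p : ℝ) < 3 := by
    have := hsm' _ hd2
    rw [n2] at this
    nlinarith
  have q1' : -1 < q := by exact_mod_cast q1
  have q2' : q < 3 := by exact_mod_cast q2
  have p1' : -1 < p := by exact_mod_cast p1
  have p2' : p < 3 := by exact_mod_cast p2
  have hqq : q = 1 ∨ q = 2 := by omega
  have hpp : p = 1 ∨ p = 2 := by omega
  rcases hqq with hqq | hqq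
  · have h0 : ⟪refl b c, v⟫_ℝ = 0 := by
      rw [hqq] at i1
      push_cast at i1
      linarith
    have h1 := hd1.orth hy h0
    rw [e1, inner_sub_left, real_inner_smul_left] at h1
    rw [hqq] at hpq
    push_cast at hpq
    linear_combination (-⟪b, v⟫_ℝ) * h1 + (⟪b, y⟫_ℝ / 2) * (hcv - hpq - p * hbv)
  · rcases hpp with hpp | hpp
    · have h0 : ⟪refl c b, v⟫_ℝ = 0 := by
        rw [hpp] at i2
        push_cast at i2
        linarith
      have h1 := hd2.orth hy h0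
      rw [e2, inner_sub_left, real_inner_smul_left] at h1
      rw [hpp] at hpq
      push_cast at hpq
      linear_combination (⟪c, v⟫_ℝ) * h1 - (⟪c, y⟫_ℝ / 2) * (hbv + hpq - q * hcv)
    · have h0 : ‖b - c‖ ^ 2 = 0 := by
        rw [norm_sub_sq_real]
        rw [hqq] at hq
        rw [hpp] at hp
        push_cast at hp hq
        linarith
      have h1 : b = c := by
        have h2 : ‖b - c‖ = 0 := by
          exact pow_eq_zero_iff (two_ne_zero) |>.1 h0
        exact sub_eq_zero.1 (norm_eq_zero.1 h2)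
      rw [h1]

/-- the ratio lemma -/
theorem ratio (h : TS P M)
    (hM : ∀ g : EuclideanSpace ℝ (Fin d) ≃ₗᵢ[ℝ] EuclideanSpace ℝ (Fin d),
      g '' P = P → ∀ v ∈ M, g v ∈ M) {v y : EuclideanSpace ℝ (Fin d)} (hv : v ∈ M)
    (hy : Fx P v y) (hsm : ∀ b, Pr P M b → ⟪b, v⟫_ℝ < ‖b‖ ^ 2)
    {b c : EuclideanSpace ℝ (Fin d)} (hb : Pr P M b) (hc : Pr P M c)
    (hbv : ⟪b, v⟫_ℝ ≠ 0) (hcv : ⟪c, v⟫_ℝ ≠ 0) (hbc : ⟪b, c⟫_ℝ ≠ 0) :
    ⟪b, y⟫_ℝ * ⟪c, v⟫_ℝ = ⟪c, y⟫_ℝ * ⟪b, v⟫_ℝ := by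
  have hsm' : ∀ b, Pr P M b → -‖b‖ ^ 2 < ⟪b, v⟫_ℝ := by
    intro b hb
    have := hsm _ (hb.neg h)
    rw [inner_neg_left, norm_neg] at this
    linarith
  have key : ∀ b, Pr P M b → ⟪b, v⟫_ℝ ≠ 0 → ∃ s : ℝ, (s = 1 ∨ s = -1) ∧ Pr P M (s • b) ∧
      2 * ⟪s • b, v⟫_ℝ = ‖s • b‖ ^ 2 := by
    intro b hb h0
    rcases hb.small hv (hsm b hb) (hsm' b hb) with h1 | h1 | h1
    · refine ⟨-1, Or.inr rfl, ?_, ?_⟩
      · rw [neg_one_smul]
        exact hb.neg h
      · rw [neg_one_smul, inner_neg_left, norm_neg]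
        linarith
    · exact absurd h1 h0
    · refine ⟨1, Or.inl rfl, ?_, ?_⟩
      · rwa [one_smul]
      · rwa [one_smul]
  obtain ⟨s, hs, hbs, hbs'⟩ := key b hb hbv
  obtain ⟨t, ht, hct, hct'⟩ := key c hc hcv
  have hs0 : s ≠ 0 := by rcases hs with hs | hs <;> rw [hs] <;> norm_num
  have ht0 : t ≠ 0 := by rcases ht with ht | ht <;> rw [ht] <;> norm_num
  have h1 := ratio_aux h hM hy hsm hbs hct hbs' hct' (by
    rw [real_inner_smul_left, real_inner_smul_right]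
    exact mul_ne_zero hs0 (mul_ne_zero ht0 hbc))
  rw [real_inner_smul_left, real_inner_smul_left, real_inner_smul_left,
    real_inner_smul_left] at h1
  have h2 : (s * t) * (⟪b, y⟫_ℝ * ⟪c, v⟫_ℝ) = (s * t) * (⟪c, y⟫_ℝ * ⟪b, v⟫_ℝ) := by
    linear_combination h1
  exact mul_left_cancel₀ (mul_ne_zero hs0 ht0) h2

/-- **an irreducible set of reflections** -/
theorem irred_fix (h : TS P M)
    (hM : ∀ g : EuclideanSpace ℝ (Fin d) ≃ₗᵢ[ℝ] EuclideanSpace ℝ (Fin d),
      g '' P = P → ∀ v ∈ M, g v ∈ M) {R : Set (EuclideanSpace ℝ (Fin d))}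
    (hR : ∀ a ∈ R, refl a '' P = P)
    (hirr : ∀ U : Submodule ℝ (EuclideanSpace ℝ (Fin d)),
      (∀ a ∈ R, ∀ x ∈ U, refl a x ∈ U) → U = ⊥ ∨ U = ⊤)
    {v : EuclideanSpace ℝ (Fin d)} (hv : IsVor M v) (y : EuclideanSpace ℝ (Fin d))
    (hy : Fx P v y) : ∃ t : ℝ, y = t • v := by
  by_cases hbig : ∃ b, Pr P M b ∧ ‖b‖ ^ 2 ≤ ⟪b, v⟫_ℝ
  · obtain ⟨b, hb, hb1⟩ := hbig
    exact hb.big h hv hy hb1
  push Not at hbig
  have hroot : ∀ a ∈ R, a = 0 ∨ ∃ c, Pr P M c ∧ ∀ x, refl a x = refl c x := by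
    intro a ha
    by_cases ha0 : a = 0
    · exact Or.inl ha0
    · right
      obtain ⟨t, ht, hPr⟩ := h.exists_pr hM ha0 (hR a ha)
      exact ⟨_, hPr, fun x => (refl_smul a x ht).symm⟩
  have hzero : ∀ x : EuclideanSpace ℝ (Fin d), refl 0 x = x := by
    intro x
    rw [refl_apply, smul_zero, sub_zero]
  by_cases hex : ∃ b, Pr P M b ∧ ⟪b, v⟫_ℝ ≠ 0
  · obtain ⟨b0, hb0, hb0v⟩ := hex
    obtain ⟨r, hr⟩ : ∃ r : ℝ, r = ⟪b0, y⟫_ℝ / ⟪b0, v⟫_ℝ := ⟨_, rfl⟩
    obtain ⟨S, hS⟩ : ∃ S : Set (EuclideanSpace ℝ (Fin d)),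
        ∀ b, b ∈ S ↔ Pr P M b ∧ ⟪b, v⟫_ℝ ≠ 0 ∧ ⟪b, y⟫_ℝ = r * ⟪b, v⟫_ℝ :=
      ⟨{b | Pr P M b ∧ ⟪b, v⟫_ℝ ≠ 0 ∧ ⟪b, y⟫_ℝ = r * ⟪b, v⟫_ℝ}, fun b => Iff.rfl⟩
    have hb0S : b0 ∈ S := by
      rw [hS]
      refine ⟨hb0, hb0v, ?_⟩
      rw [hr, div_mul_cancel₀ _ hb0v]
    have hinv : ∀ a ∈ R, ∀ x ∈ Submodule.span ℝ S, refl a x ∈ Submodule.span ℝ S := by
      intro a ha x hx
      rcases hroot a ha with rfl | ⟨c, hc, hcx⟩
      · rwa [hzero]
      rw [hcx]
      clear hcx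
      induction hx using Submodule.span_induction with
      | mem b hb =>
        have hb' := (hS b).1 hb
        obtain ⟨hb1, hb2, hb3⟩ := hb'
        by_cases h0 : ⟪c, b⟫_ℝ = 0
        · rw [refl_apply, h0, mul_zero, zero_div, zero_smul, sub_zero]
          exact Submodule.subset_span hb
        · by_cases hcv : ⟪c, v⟫_ℝ = 0
          · have hcy := hc.orth hy hcv
            apply Submodule.subset_span
            rw [hS]
            have e1 : ⟪refl c b, v⟫_ℝ = ⟪b, v⟫_ℝ := by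
              rw [refl_apply, inner_sub_left, real_inner_smul_left, hcv, mul_zero, sub_zero]
            have e2 : ⟪refl c b, y⟫_ℝ = ⟪b, y⟫_ℝ := by
              rw [refl_apply, inner_sub_left, real_inner_smul_left, hcy, mul_zero, sub_zero]
            rw [e1, e2]
            exact ⟨Pr.conj hM hc hb1, hb2, hb3⟩
          · have h1 := ratio h hM hv.1 hy hbig hc hb1 hcv hb2 h0
            have hcS : c ∈ S := by
              rw [hS]
              refine ⟨hc, hcv, ?_⟩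
              rw [hb3] at h1
              have h2 : ⟪b, v⟫_ℝ * ⟪c, y⟫_ℝ = ⟪b, v⟫_ℝ * (r * ⟪c, v⟫_ℝ) := by
                linear_combination h1
              exact mul_left_cancel₀ hb2 h2
            rw [refl_apply]
            exact Submodule.sub_mem _ (Submodule.subset_span hb)
              (Submodule.smul_mem _ _ (Submodule.subset_span hcS))
      | zero =>
        rw [map_zero]
        exact Submodule.zero_mem _
      | add x z _ _ hx hz =>
        rw [map_add]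
        exact Submodule.add_mem _ hx hz
      | smul t x _ hx =>
        rw [map_smul]
        exact Submodule.smul_mem _ _ hx
    rcases hirr _ hinv with hU | hU
    · exfalso
      have h1 : b0 ∈ Submodule.span ℝ S := Submodule.subset_span hb0S
      rw [hU, Submodule.mem_bot] at h1
      exact hb0.ne h1
    · have hall : ∀ x : EuclideanSpace ℝ (Fin d), ⟪x, y⟫_ℝ = r * ⟪x, v⟫_ℝ := by
        intro x
        have hx : x ∈ Submodule.span ℝ S := by
          rw [hU]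
          exact Submodule.mem_top
        induction hx using Submodule.span_induction with
        | mem b hb => exact ((hS b).1 hb).2.2
        | zero => rw [inner_zero_left, inner_zero_left, mul_zero]
        | add x z _ _ hx hz =>
          rw [inner_add_left, inner_add_left, hx, hz]
          ring
        | smul t x _ hx =>
          rw [real_inner_smul_left, real_inner_smul_left, hx]
          ring
      refine ⟨r, ?_⟩
      refine ext_inner_left ℝ fun x => ?_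
      rw [real_inner_smul_right, hall]
  · push Not at hex
    have hinv : ∀ a ∈ R, ∀ x ∈ Submodule.span ℝ {v}, refl a x ∈ Submodule.span ℝ {v} := by
      intro a ha x hx
      rcases hroot a ha with rfl | ⟨c, hc, hcx⟩
      · rwa [hzero]
      obtain ⟨t, rfl⟩ := Submodule.mem_span_singleton.1 hx
      rw [hcx, map_smul]
      apply Submodule.smul_mem
      rw [refl_apply, hex c hc, mul_zero, zero_div, zero_smul, sub_zero]
      exact Submodule.mem_span_singleton_self v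
    rcases hirr _ hinv with hU | hU
    · exfalso
      have h1 : v ∈ Submodule.span ℝ {v} := Submodule.mem_span_singleton_self v
      rw [hU, Submodule.mem_bot] at h1
      exact hv.2.1 h1
    · have h1 : y ∈ Submodule.span ℝ {v} := by
        rw [hU]
        exact Submodule.mem_top
      obtain ⟨t, ht⟩ := Submodule.mem_span_singleton.1 h1
      exact ⟨t, ht.symm⟩

end VorSym
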