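import Pool.Agent.Lib.MP_467880_co.S3

/-!
# MP_467880_co: transport of tilings; the lattice is invariant under the symmetries of the tile
-/

set_option autoImplicit false

open Set Module
open scoped InnerProductSpace

namespace VorSym

/-- face-to-face tilings in a general space -/
structure GT {F : Type*} [NormedAddCommGroup F] [NormedSpace ℝ F] (P M : Set F) : Prop where
  zero : (0 : F) ∈ M
  add : ∀ v ∈ M, ∀ w ∈ M, v + w ∈ M
  neg : ∀ v ∈ M, -v ∈ M
  fin : ∀ R : ℝ, {v | v ∈ M ∧ ‖v‖ ≤ R}.Finite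
  conv : Convex ℝ P
  comp : IsCompact P
  cover : ∀ x, ∃ v ∈ M, x - v ∈ P
  disj : ∀ v ∈ M, v ≠ 0 → ∀ x ∈ interior P, x - v ∉ interior P
  ext : ∀ v ∈ M, ∀ x ∈ P, ∀ y ∈ P, ∀ z ∈ openSegment ℝ x y, z - v ∈ P → x - v ∈ P

theorem GT.map {F F' : Type*} [NormedAddCommGroup F] [NormedSpace ℝ F] [FiniteDimensional ℝ F]
    [NormedAddCommGroup F'] [NormedSpace ℝ F'] [FiniteDimensional ℝ F'] {P M : Set F}
    (h : GT P M) (B : F ≃ᵃ[ℝ] F') : GT (B '' P) (B.linear '' M) := by
  obtain ⟨e, he⟩ : ∃ e : F ≃ₗ[ℝ] F', e = B.linear := ⟨_, rfl⟩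
  rw [← he]
  have hBadd : ∀ v x, B (v + x) = e v + B x := by
    intro v x
    have := B.map_vadd x v
    rw [he]
    exact this
  have hBsub : ∀ x v, B (x - v) = B x - e v := by
    intro x v
    have h1 := hBadd v (x - v)
    rw [add_sub_cancel] at h1
    rw [h1, add_sub_cancel_left]
  have hBcont : Continuous B := (B : F →ᵃ[ℝ] F').continuous_of_finiteDimensional
  have hBscont : Continuous B.symm := (B.symm : F' →ᵃ[ℝ] F).continuous_of_finiteDimensional
  let Bh : F ≃ₜ F' :=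
    { B.toEquiv with
      continuous_toFun := hBcont
      continuous_invFun := hBscont }
  have hBint : interior (B '' P) = B '' interior P := (Bh.image_interior P).symm
  refine
    { zero := ⟨0, h.zero, map_zero e⟩
      add := ?_
      neg := ?_
      fin := ?_
      conv := h.conv.affine_image (B : F →ᵃ[ℝ] F')
      comp := h.comp.image hBcont
      cover := ?_
      disj := ?_
      ext := ?_ }
  · rintro _ ⟨u, hu, rfl⟩ _ ⟨w, hw, rfl⟩
    exact ⟨u + w, h.add u hu w hw, map_add e u w⟩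
  · rintro _ ⟨u, hu, rfl⟩
    exact ⟨-u, h.neg u hu, map_neg e u⟩
  · intro R
    let ec : F' →L[ℝ] F := LinearMap.toContinuousLinearMap (e.symm : F' →ₗ[ℝ] F)
    refine ((h.fin (‖ec‖ * R)).image e).subset ?_
    rintro _ ⟨⟨u, hu, rfl⟩, hn⟩
    refine ⟨u, ⟨hu, ?_⟩, rfl⟩
    have h1 := ec.le_opNorm (e u)
    have h2 : ec (e u) = u := e.symm_apply_apply u
    rw [h2] at h1
    exact h1.trans (mul_le_mul_of_nonneg_left hn (norm_nonneg _))
  · intro x
    obtain ⟨v, hv, hx⟩ := h.cover (B.symm x)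
    refine ⟨e v, ⟨v, hv, rfl⟩, B.symm x - v, hx, ?_⟩
    rw [hBsub, AffineEquiv.apply_symm_apply]
  · rintro _ ⟨u, hu, rfl⟩ hu0 x hx hx'
    rw [hBint] at hx hx'
    obtain ⟨p, hp, rfl⟩ := hx
    obtain ⟨p', hp', hpp⟩ := hx'
    have hu0' : u ≠ 0 := by
      rintro rfl
      exact hu0 (map_zero e)
    refine h.disj u hu hu0' p hp ?_
    have h1 : p - u = p' := by
      apply B.injective
      rw [hBsub, hpp]
    rwa [h1]
  · rintro _ ⟨u, hu, rfl⟩ _ ⟨a, ha, rfl⟩ _ ⟨c, hc, rfl⟩ z hz hzv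
    have hz' : B.symm z ∈ openSegment ℝ a c := by
      obtain ⟨s, t, hs, ht, hst, hzst⟩ := hz
      refine ⟨s, t, hs, ht, hst, ?_⟩
      apply B.injective
      rw [AffineEquiv.apply_symm_apply, ← hzst]
      exact Convex.combo_affine_apply (f := (B : F →ᵃ[ℝ] F')) hst
    obtain ⟨p, hp, hpz⟩ := hzv
    have h1 : B.symm z - u = p := by
      apply B.injective
      rw [hBsub, AffineEquiv.apply_symm_apply, hpz]
    have h2 := h.ext u hu a ha c hc _ hz' (by rw [h1]; exact hp)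
    exact ⟨a - u, h2, hBsub a u⟩

variable {d : ℕ}

theorem GT.til {P M : Set (Fin d → ℝ)} (h : GT P M) : VorUnc.Til P M :=
  { zero := h.zero
    add := h.add
    neg := h.neg
    fin := h.fin
    conv := h.conv
    comp := h.comp
    cover := h.cover
    disj := h.disj
    ext := h.ext }

/-- the identity from the Euclidean space to the space with the sup norm -/
noncomputable def tau (d : ℕ) : EuclideanSpace ℝ (Fin d) ≃ᵃ[ℝ] (Fin d → ℝ) :=
  (WithLp.linearEquiv 2 ℝ (Fin d → ℝ)).toAffineEquiv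

theorem tau_neg (x : EuclideanSpace ℝ (Fin d)) : tau d (-x) = -(tau d x) := rfl

/-- the lattice is determined by the tile -/
theorem GT.uniq {P M M' : Set (EuclideanSpace ℝ (Fin d))} (h : GT P M) (h' : GT P M')
    (sym : ∀ x ∈ P, -x ∈ P) : M ⊆ M' := by
  have h1 := (h.map (tau d)).til.unique (h'.map (tau d)).til (by
    rintro _ ⟨x, hx, rfl⟩
    exact ⟨-x, sym x hx, tau_neg x⟩)
  intro v hv
  obtain ⟨w, hw, hwv⟩ := h1 ⟨v, hv, rfl⟩
  have h2 : w = v := (tau d).linear.injective hwv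
  rwa [← h2]

theorem GT.int {P M : Set (EuclideanSpace ℝ (Fin d))} (h : GT P M) : (interior P).Nonempty := by
  have h1 := (h.map (tau d)).til.int
  have hBcont : Continuous (tau d) :=
    ((tau d) : EuclideanSpace ℝ (Fin d) →ᵃ[ℝ] (Fin d → ℝ)).continuous_of_finiteDimensional
  have hBscont : Continuous (tau d).symm :=
    ((tau d).symm : (Fin d → ℝ) →ᵃ[ℝ] EuclideanSpace ℝ (Fin d)).continuous_of_finiteDimensional
  let Bh : EuclideanSpace ℝ (Fin d) ≃ₜ (Fin d → ℝ) :=
    { (tau d).toEquiv with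
      continuous_toFun := hBcont
      continuous_invFun := hBscont }
  have hBint : interior (tau d '' P) = tau d '' interior P := (Bh.image_interior P).symm
  rw [hBint] at h1
  exact h1.of_image

/-- the symmetries of the tile are symmetries of the lattice -/
theorem GT.inv {P M : Set (EuclideanSpace ℝ (Fin d))} (h : GT P M) (sym : ∀ x ∈ P, -x ∈ P)
    (g : EuclideanSpace ℝ (Fin d) ≃ₗᵢ[ℝ] EuclideanSpace ℝ (Fin d)) (hg : g '' P = P) :
    ∀ v ∈ M, g v ∈ M := by
  have h1 := h.map g.toLinearEquiv.toAffineEquiv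
  have h2 : (g.toLinearEquiv.toAffineEquiv '' P) = P := hg
  rw [h2] at h1
  intro v hv
  exact h1.uniq h sym ⟨v, hv, rfl⟩

theorem GT.ts {P M : Set (EuclideanSpace ℝ (Fin d))} (h : GT P M) (sym : ∀ x ∈ P, -x ∈ P) :
    TS P M :=
  { zero := h.zero
    add := h.add
    neg := h.neg
    fin := h.fin
    conv := h.conv
    comp := h.comp
    int := h.int
    sym := sym
    cover := h.cover
    disj := h.disj }

/-- the main theorem in coordinates -/
theorem GT.rigid {P M : Set (EuclideanSpace ℝ (Fin d))} (h : GT P M) (sym : ∀ x ∈ P, -x ∈ P)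
    (hfix : ∀ v, IsVor M v → ∀ y, Fx P v y → ∃ t : ℝ, y = t • v) :
    P = {x | ∀ v ∈ M, ‖x‖ ≤ ‖x - v‖} := by
  have hT := h.ts sym
  refine hT.eq_vor fun x hx => hT.all fun v hv => ?_
  exact hT.half hv.1 hv.2.1 (hfix v hv) x hx

theorem GT.irred {P M : Set (EuclideanSpace ℝ (Fin d))} (h : GT P M) (sym : ∀ x ∈ P, -x ∈ P)
    {R : Set (EuclideanSpace ℝ (Fin d))} (hR : ∀ a ∈ R, refl a '' P = P)
    (hirr : ∀ U : Submodule ℝ (EuclideanSpace ℝ (Fin d)),
      (∀ a ∈ R, ∀ x ∈ U, refl a x ∈ U) → U = ⊥ ∨ U = ⊤) :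
    P = {x | ∀ v ∈ M, ‖x‖ ≤ ‖x - v‖} :=
  h.rigid sym fun _ hv y hy => irred_fix (h.ts sym) (h.inv sym) hR hirr hv y hy

end VorSym
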